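import Mathlib

namespace Pool.Agent.Work.MP_71a505_nt

/-- an integer whose square is a cube is a cube -/
theorem cube_of_sq_eq_cube {M d : ℤ} (h : M ^ 2 = d ^ 3) : ∃ e : ℤ, M = e ^ 3 := by
  rcases eq_or_ne d 0 with hd | hd
  · subst hd
    have : M = 0 := by
      have h' : M ^ 2 = 0 := by simpa using h
      exact pow_eq_zero_iff (two_ne_zero) |>.1 h'
    exact ⟨0, by simp [this]⟩
  · have h1 : d ^ 2 ∣ M ^ 2 := ⟨d, by rw [h]; ring⟩
    have h2 : d ∣ M := (Int.pow_dvd_pow_iff two_ne_zero).1 h1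
    obtain ⟨e, rfl⟩ := h2
    have h3 : e ^ 2 = d := by
      have : d ^ 2 * (e ^ 2 - d) = 0 := by linear_combination h
      rcases mul_eq_zero.1 this with h0 | h0
      · exact absurd (pow_eq_zero_iff (two_ne_zero) |>.1 h0) hd
      · linarith
    exact ⟨e, by rw [← h3]; ring⟩

/-- coprime `M, K` with `M^2 K` a cube: both are cubes -/
theorem cubes_of_sq_mul {M K z : ℤ} (hc : IsCoprime M K) (h : M ^ 2 * K = z ^ 3) :
    (∃ u : ℤ, M = u ^ 3) ∧ (∃ v : ℤ, K = v ^ 3) := by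
  have hc' : IsCoprime (M ^ 2) K := hc.pow_left
  have ho : Odd 3 := by decide
  obtain ⟨⟨d, hd⟩, ⟨v, hv⟩⟩ := Int.eq_pow_of_mul_eq_pow_odd hc' ho h
  exact ⟨cube_of_sq_eq_cube hd, ⟨v, hv⟩⟩

/-- The algebraic part: if `(L X + M)(L' X + M') = (1 - 3x) X^2 + 3 x^2 X - x^3` over the
integers then `M` and `L + M` are cubes. -/
theorem cubes_of_factor {x L M L' M' : ℤ} (h1 : L * L' = 1 - 3 * x)
    (h2 : L * M' + L' * M = 3 * x ^ 2) (h3 : M * M' = - x ^ 3) :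
    (∃ u : ℤ, M = u ^ 3) ∧ (∃ v : ℤ, L + M = v ^ 3) := by
  have hq : (1 - 3 * x) * M ^ 2 - 3 * x ^ 2 * M * L - x ^ 3 * L ^ 2 = 0 := by
    have e : (1 - 3 * x) * M ^ 2 - 3 * x ^ 2 * M * L - x ^ 3 * L ^ 2
        = (L * L') * M ^ 2 - (L * M' + L' * M) * M * L + (M * M') * L ^ 2 := by
      rw [h1, h2, h3]; ring
    rw [e]; ring
  have hz : M ^ 2 * (L + M) = (L * x + M) ^ 3 := by
    linear_combination L * hq
  apply cubes_of_sq_mul _ hz
  -- coprimality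
  rw [Int.isCoprime_iff_gcd_eq_one]
  by_contra hg
  obtain ⟨p, hp, hpd⟩ := Nat.exists_prime_and_dvd hg
  have hpi : Prime (p : ℤ) := Nat.prime_iff_prime_int.1 hp
  have hM : (p : ℤ) ∣ M := (Int.natCast_dvd_natCast.2 hpd).trans (Int.gcd_dvd_left _ _)
  have hK : (p : ℤ) ∣ L + M := (Int.natCast_dvd_natCast.2 hpd).trans (Int.gcd_dvd_right _ _)
  have hL : (p : ℤ) ∣ L := (dvd_add_left hM).1 hK
  have hx3 : (p : ℤ) ∣ x ^ 3 := by
    have : (p : ℤ) ∣ - x ^ 3 := h3 ▸ Dvd.dvd.mul_right hM M'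
    exact (dvd_neg).1 this
  have hx : (p : ℤ) ∣ x := hpi.dvd_of_dvd_pow hx3
  have h1' : (p : ℤ) ∣ 1 - 3 * x := h1 ▸ Dvd.dvd.mul_right hL L'
  have : (p : ℤ) ∣ 1 := by
    have h4 : (p : ℤ) ∣ 3 * x := Dvd.dvd.mul_left hx 3
    have h5 := dvd_add h1' h4
    simpa using h5
  exact hpi.not_isUnit (isUnit_of_dvd_one this)

theorem cube_inj {a b : ℤ} (h : a ^ 3 = b ^ 3) : a = b := by
  have ho : Odd 3 := by decide
  exact (ho.strictMono_pow).injective h

theorem cube_sum_pos {u v : ℤ} (h : 0 < u ^ 3 + v ^ 3) : 0 < u + v := by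
  by_contra hh
  push Not at hh
  have h1 : v ≤ -u := by linarith
  have ho : Odd 3 := by decide
  have h2 : v ^ 3 ≤ (-u) ^ 3 := (ho.strictMono_pow).monotone h1
  have e : (-u) ^ 3 = - u ^ 3 := by ring
  rw [e] at h2
  linarith

theorem pos_of_mul_pos' {d e : ℤ} (hd : 0 < d) (h : 0 < d * e) : 0 < e := by
  by_contra hh
  push Not at hh
  have : d * e ≤ 0 := mul_nonpos_of_nonneg_of_nonpos hd.le hh
  linarith

/-- The size estimate. -/
theorem size_of_cubes {x q g d d1 : ℤ} (hg : 0 < g) (hx0 : x ≠ 0) (hx1 : x ≠ 1)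
    (hd : 0 < d) (hd1 : 0 < d1)
    (f1 : d * (d ^ 2 + 3 * x) = 2 * q) (f2 : d1 * (d1 ^ 2 + 3 * (x - 1)) = 2 * q + 2 * g)
    (p1 : 0 < d ^ 2 + 3 * x) (p2 : 0 < d1 ^ 2 + 3 * (x - 1)) :
    27 * q ^ 2 ≤ 4 * (g + 1) ^ 3 := by
  -- d < d1
  have hdd : d + 1 ≤ d1 := by
    by_contra hh
    push Not at hh
    have hle : d1 ≤ d := by linarith
    have hsq : d1 ^ 2 ≤ d ^ 2 := by nlinarith
    have : d1 * (d1 ^ 2 + 3 * (x - 1)) ≤ d * (d ^ 2 + 3 * x) := by
      apply mul_le_mul hle _ p2.le hd.le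
      linarith
    linarith
  -- the cubic at d + 1
  have hstep : (d + 1) * ((d + 1) ^ 2 + 3 * (x - 1)) = 2 * q + 3 * (d ^ 2 + x) - 2 := by
    linear_combination f1
  have hpos2 : 0 < (d + 1) ^ 2 + (x - 1) := by
    rcases lt_or_ge x 0 with hx | hx
    · have e : (d + 1) ^ 2 + (x - 1) = (d ^ 2 + 3 * x) + 2 * (d - x) := by ring
      rw [e]; linarith
    · have : 2 ≤ x := by omega
      have h0 : 0 < (d + 1) ^ 2 := by positivity
      linarith
  have hmono : (d + 1) * ((d + 1) ^ 2 + 3 * (x - 1)) ≤ d1 * (d1 ^ 2 + 3 * (x - 1)) := by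
    have e : d1 * (d1 ^ 2 + 3 * (x - 1)) - (d + 1) * ((d + 1) ^ 2 + 3 * (x - 1))
        = (d1 - (d + 1)) * (d1 ^ 2 + d1 * (d + 1) + (d + 1) ^ 2 + 3 * (x - 1)) := by ring
    have h1 : (d + 1) ^ 2 ≤ d1 ^ 2 := by nlinarith
    have h2 : (d + 1) ^ 2 ≤ d1 * (d + 1) := by nlinarith
    have hge : 0 ≤ d1 ^ 2 + d1 * (d + 1) + (d + 1) ^ 2 + 3 * (x - 1) := by linarith
    have : 0 ≤ (d1 - (d + 1)) * (d1 ^ 2 + d1 * (d + 1) + (d + 1) ^ 2 + 3 * (x - 1)) :=
      mul_nonneg (by linarith) hge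
    linarith
  have hA : 3 * (d ^ 2 + x) ≤ 2 * (g + 1) := by linarith
  -- lower bound for A = d^2 + x
  have hd2 : 0 < d ^ 2 := by positivity
  have hApos : 0 < d ^ 2 + x := by linarith
  have hcube : 4 * q ^ 2 ≤ 2 * (d ^ 2 + x) ^ 3 := by
    have e : 2 * (d ^ 2 + x) ^ 3 - (d * (d ^ 2 + 3 * x)) ^ 2
        = (d ^ 2 - x) ^ 2 * (d ^ 2 + 2 * x) := by ring
    have hge : 0 ≤ d ^ 2 + 2 * x := by linarith
    have : 0 ≤ (d ^ 2 - x) ^ 2 * (d ^ 2 + 2 * x) := by positivity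
    rw [f1] at e
    linarith
  have hA3 : (3 * (d ^ 2 + x)) ^ 3 ≤ (2 * (g + 1)) ^ 3 := by
    apply pow_le_pow_left₀ (by positivity) hA
  have e1 : (3 * (d ^ 2 + x)) ^ 3 = 27 * (d ^ 2 + x) ^ 3 := by ring
  have e2 : (2 * (g + 1)) ^ 3 = 8 * (g + 1) ^ 3 := by ring
  rw [e1, e2] at hA3
  linarith

/-- `x = 0` and `x = 1` are impossible. -/
theorem x_ne {x l m q g : ℤ} (hq : 0 < q)
    (k1 : (g - l) * (g + l) = 1 - 3 * x)
    (k2 : (g - l) * (q + m) + (g + l) * (q - m) = 3 * x ^ 2)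
    (k3 : (q - m) * (q + m) = - x ^ 3) : x ≠ 0 ∧ x ≠ 1 := by
  constructor
  · intro hx
    subst hx
    have k3a : (q - m) * (q + m) = 0 := by rw [k3]; ring
    rcases mul_eq_zero.1 k3a with hm | hm
    · have h0 : (g - l) * (q + m) = 0 := by
        have := k2; rw [hm] at this; simpa using this
      rcases mul_eq_zero.1 h0 with h0 | h0
      · rw [h0] at k1; norm_num at k1
      · linarith
    · have h0 : (g + l) * (q - m) = 0 := by
        have := k2; rw [hm] at this; simpa using this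
      rcases mul_eq_zero.1 h0 with h0 | h0
      · rw [h0] at k1; norm_num at k1
      · linarith
  · intro hx
    subst hx
    have k3a : (q - m) * (q + m) = -1 := by rw [k3]; norm_num
    have hunit : (q - m) ∣ 1 := ⟨-(q + m), by linarith⟩
    have := Int.isUnit_iff.1 (isUnit_of_dvd_one hunit)
    rcases this with h0 | h0
    · rw [h0] at k3a; linarith
    · rw [h0] at k3a; linarith

/-- A curve `Y^2 = X^2 (X - 1) + (g X + q)^2` (with `g, q > 0`) with an integral flex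
`x`, tangent `l X + m`, satisfies `27 q^2 ≤ 4 (g+1)^3`. -/
theorem size_bound {x l m q g : ℤ} (hq : 0 < q) (hg : 0 < g)
    (k1 : (g - l) * (g + l) = 1 - 3 * x)
    (k2 : (g - l) * (q + m) + (g + l) * (q - m) = 3 * x ^ 2)
    (k3 : (q - m) * (q + m) = - x ^ 3) : 27 * q ^ 2 ≤ 4 * (g + 1) ^ 3 := by
  obtain ⟨⟨u, hu⟩, ⟨u1, hu1⟩⟩ := cubes_of_factor k1 k2 k3
  have k1' : (g + l) * (g - l) = 1 - 3 * x := by rw [mul_comm]; exact k1
  have k2' : (g + l) * (q - m) + (g - l) * (q + m) = 3 * x ^ 2 := by rw [add_comm]; exact k2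
  have k3' : (q + m) * (q - m) = - x ^ 3 := by rw [mul_comm]; exact k3
  obtain ⟨⟨v, hv⟩, ⟨v1, hv1⟩⟩ := cubes_of_factor k1' k2' k3'
  have huv : (u * v) ^ 3 = (-x) ^ 3 := by
    rw [mul_pow, ← hu, ← hv, k3]; ring
  have huv' : u * v = - x := cube_inj huv
  have hu1v1 : (u1 * v1) ^ 3 = (1 - x) ^ 3 := by
    rw [mul_pow, ← hu1, ← hv1]
    linear_combination k1 + k2 + k3
  have hu1v1' : u1 * v1 = 1 - x := cube_inj hu1v1
  have s1 : u ^ 3 + v ^ 3 = 2 * q := by rw [← hu, ← hv]; ring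
  have s2 : u1 ^ 3 + v1 ^ 3 = 2 * q + 2 * g := by rw [← hu1, ← hv1]; ring
  have f1 : (u + v) * ((u + v) ^ 2 + 3 * x) = 2 * q := by
    rw [← s1]; linear_combination (3 * (u + v)) * huv'
  have f2 : (u1 + v1) * ((u1 + v1) ^ 2 + 3 * (x - 1)) = 2 * q + 2 * g := by
    rw [← s2]; linear_combination (3 * (u1 + v1)) * hu1v1'
  have hd : 0 < u + v := cube_sum_pos (by rw [s1]; linarith)
  have hd1 : 0 < u1 + v1 := cube_sum_pos (by rw [s2]; linarith)
  have p1 : 0 < (u + v) ^ 2 + 3 * x := pos_of_mul_pos' hd (by rw [f1]; linarith)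
  have p2 : 0 < (u1 + v1) ^ 2 + 3 * (x - 1) := pos_of_mul_pos' hd1 (by rw [f2]; linarith)
  obtain ⟨hx0, hx1⟩ := x_ne hq k1 k2 k3
  exact size_of_cubes hg hx0 hx1 hd hd1 f1 f2 p1 p2

/-- No integral solution for a regular triple. -/
theorem core_int {a b c r x l m : ℤ} (ha : 0 < a) (hb : 0 < b) (hr : 0 < r)
    (h : a * b + 1 = r ^ 2) (hc : c = a + b + 2 * r)
    (h1 : l ^ 2 = a * b + a * c + b * c + 3 * x)
    (h2 : 2 * l * m = (a * b * c) * (a + b + c) - 3 * x ^ 2)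
    (h3 : m ^ 2 = (a * b * c) ^ 2 + x ^ 3) : False := by
  have hab3 : 3 ≤ a * b := by
    have h0 : 1 ≤ a * b := by nlinarith
    have hr2 : 2 ≤ r := by nlinarith
    nlinarith
  have hcpos : 0 < c := by rw [hc]; positivity
  have hqpos : 0 < a * b * c := by positivity
  have hgpos : 0 < a + b + r := by positivity
  have k1 : ((a + b + r) - l) * ((a + b + r) + l) = 1 - 3 * x := by
    rw [hc] at h1
    linear_combination (-1 : ℤ) * h1 - h
  have k2 : ((a + b + r) - l) * (a * b * c + m) + ((a + b + r) + l) * (a * b * c - m)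
      = 3 * x ^ 2 := by
    have e : a + b + c = 2 * (a + b + r) := by rw [hc]; ring
    rw [e] at h2
    linear_combination (-1 : ℤ) * h2
  have k3 : (a * b * c - m) * (a * b * c + m) = - x ^ 3 := by
    linear_combination (-1 : ℤ) * h3
  have hs := size_bound hqpos hgpos k1 k2 k3
  have hgc : a + b + r + 1 ≤ c := by rw [hc]; linarith
  have hs2 : 27 * (a * b * c) ^ 2 ≤ 4 * c ^ 3 := by
    have : (a + b + r + 1) ^ 3 ≤ c ^ 3 := pow_le_pow_left₀ (by positivity) hgc 3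
    linarith
  have hfin2 : 27 * (a * b) ^ 2 ≤ 4 * c := by
    have hc2 : 0 < c ^ 2 := by positivity
    have : c ^ 2 * (27 * (a * b) ^ 2) ≤ c ^ 2 * (4 * c) := by
      calc c ^ 2 * (27 * (a * b) ^ 2) = 27 * (a * b * c) ^ 2 := by ring
        _ ≤ 4 * c ^ 3 := hs2
        _ = c ^ 2 * (4 * c) := by ring
    exact le_of_mul_le_mul_left this hc2
  have hcle : c ≤ 3 * (a * b) + 1 := by
    have h5 : a + b ≤ a * b + 1 := by nlinarith
    have h6 : r ≤ a * b := by nlinarith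
    rw [hc]; linarith
  nlinarith

end Pool.Agent.Work.MP_71a505_nt
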