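import Mathlib
import Pool.Agent.Work.MP_71a505_nt.Core

namespace Pool.Agent.Work.MP_71a505_nt

/-- Integral tangent data at a point of order 3. -/
def Data (a b c x l m : ℤ) : Prop :=
  l ^ 2 = a * b + a * c + b * c + 3 * x ∧
  2 * l * m = (a * b * c) * (a + b + c) - 3 * x ^ 2 ∧
  m ^ 2 = (a * b * c) ^ 2 + x ^ 3

/-- The descent step: a triple with a point of order three comes from a smaller `d ≥ 1`. -/
theorem descent {a b c r s t x l m : ℤ} (ha : 0 < a) (hab : a < b) (hbc : b < c)
    (hr : 0 < r) (hs : 0 < s) (ht : 0 < t)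
    (h1 : a * b + 1 = r ^ 2) (h2 : a * c + 1 = s ^ 2) (h3 : b * c + 1 = t ^ 2)
    (hD : Data a b c x l m) :
    ∃ d u v : ℤ, 1 ≤ d ∧ 4 * a * b * d < c ∧ a * d + 1 = u ^ 2 ∧ b * d + 1 = v ^ 2 ∧
      (c - (a + b + d + 2 * a * b * d)) ^ 2 = 4 * (a * b + 1) * (a * d + 1) * (b * d + 1) := by
  set d : ℤ := a + b + c + 2 * a * b * c - 2 * r * s * t with hd
  have hb : 0 < b := by linarith
  have hc : 0 < c := by linarith
  have hv : b * d + 1 = (b * s - r * t) ^ 2 := by
    rw [hd]
    linear_combination (b ^ 2) * h2 + (a * b + 1) * h3 + t ^ 2 * h1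
  have hu : a * d + 1 = (a * t - r * s) ^ 2 := by
    rw [hd]
    linear_combination (a ^ 2) * h3 + (a * b + 1) * h2 + s ^ 2 * h1
  have hd0 : 0 ≤ d := by
    by_contra hh
    push Not at hh
    have h4 : b * d ≤ b * (-1) := mul_le_mul_of_nonneg_left (by linarith) hb.le
    have h5 : 0 ≤ (b * s - r * t) ^ 2 := sq_nonneg _
    linarith
  have hprod : d * (a + b + c + 2 * a * b * c + 2 * r * s * t)
      = (a + b - c) ^ 2 - 4 * (a * b + 1) := by
    have e : (r * s * t) ^ 2 = (a * b + 1) * (a * c + 1) * (b * c + 1) := by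
      rw [h1, h2, h3]; ring
    rw [hd]
    linear_combination (-4 : ℤ) * e
  have hdne : d ≠ 0 := by
    intro h0
    rw [h0, zero_mul] at hprod
    have h4 : (c - a - b - 2 * r) * (c - a - b + 2 * r) = 0 := by
      linear_combination (-1 : ℤ) * hprod + 4 * h1
    rcases mul_eq_zero.1 h4 with h5 | h5
    · exact core_int ha hb hr h1 (by linarith) hD.1 hD.2.1 hD.2.2
    · have h6 : a < 2 * r := by nlinarith
      linarith
  have hd1 : 1 ≤ d := by omega
  have hpi : 0 < a * b * c := by positivity
  have hrp : 0 < r * s * t := by positivity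
  have hrst : a * b * c < r * s * t := by
    have e : (a * b * c) ^ 2 < (r * s * t) ^ 2 := by
      have e2 : (r * s * t) ^ 2 = (a * b + 1) * (a * c + 1) * (b * c + 1) := by
        rw [h1, h2, h3]; ring
      rw [e2]
      have : 0 < a * b := by positivity
      have : 0 < a * c := by positivity
      have : 0 < b * c := by positivity
      have : (a * b + 1) * (a * c + 1) * (b * c + 1) = (a * b * c) ^ 2
        + (a * b) * (a * c) + (a * b) * (b * c) + (a * c) * (b * c) + a * b + a * c + b * c
        + 1 := by ring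
      rw [this]
      have h10 : 0 < (a * b) * (a * c) + (a * b) * (b * c) + (a * c) * (b * c) + a * b + a * c
        + b * c + 1 := by positivity
      linarith
    exact lt_of_pow_lt_pow_left₀ 2 hrp.le e
  refine ⟨d, a * t - r * s, b * s - r * t, hd1, ?_, hu, hv, ?_⟩
  · -- d * 4abc < d * d_+ < c^2
    have h5 : 4 * (a * b * c) < a + b + c + 2 * a * b * c + 2 * r * s * t := by linarith
    have h6 : d * (4 * (a * b * c)) < d * (a + b + c + 2 * a * b * c + 2 * r * s * t) :=
      mul_lt_mul_of_pos_left h5 (by linarith)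
    have h7 : (a + b - c) ^ 2 ≤ c ^ 2 := by
      apply sq_le_sq'
      · linarith
      · linarith
    have h8 : 0 < a * b := by positivity
    have h9 : c * (4 * a * b * d) < c * c := by
      calc c * (4 * a * b * d) = d * (4 * (a * b * c)) := by ring
        _ < d * (a + b + c + 2 * a * b * c + 2 * r * s * t) := h6
        _ = (a + b - c) ^ 2 - 4 * (a * b + 1) := hprod
        _ ≤ c * c := by nlinarith
    exact lt_of_mul_lt_mul_left h9 hc.le
  · have e : (r * s * t) ^ 2 = (a * b + 1) * (a * c + 1) * (b * c + 1) := by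
      rw [h1, h2, h3]; ring
    have e2 : (c - (a + b + d + 2 * a * b * d)) ^ 2
        - 4 * (a * b + 1) * (a * d + 1) * (b * d + 1)
        = (d - (a + b + c + 2 * a * b * c)) ^ 2
          - 4 * (a * b + 1) * (a * c + 1) * (b * c + 1) := by ring
    have e3 : d - (a + b + c + 2 * a * b * c) = - 2 * (r * s * t) := by rw [hd]; ring
    rw [e3] at e2
    linear_combination e2 + 4 * e

end Pool.Agent.Work.MP_71a505_nt
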