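import Mathlib
import Pool.Agent.Work.MP_71a505_nt.Core
import Pool.Agent.Work.MP_71a505_nt.Descent

namespace Pool.Agent.Work.MP_71a505_nt

/-- one of the three squares -/
theorem sq_of_data {a b c x l m : ℤ} (h : Data a b c x l m) :
    ∃ α : ℤ, α ^ 2 = x + a * b ∧ α ^ 3 = m - l * (a * b) := by
  obtain ⟨h1, h2, h3⟩ := h
  have e : (m - l * (a * b)) ^ 2 = (x + a * b) ^ 3 := by
    linear_combination h3 - (a * b) * h2 + (a * b) ^ 2 * h1
  obtain ⟨α, hα⟩ := cube_of_sq_eq_cube e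
  refine ⟨α, ?_, hα.symm⟩
  apply cube_inj
  rw [← e, hα]; ring

/-- The three squares `x + ab`, `x + ac`, `x + bc` and the relation between their roots. -/
theorem squares {a b c x l m : ℤ} (ha : a ≠ 0) (hb : b ≠ 0) (hc : c ≠ 0)
    (hab : a ≠ b) (hac : a ≠ c) (hbc : b ≠ c)
    (h : Data a b c x l m) :
    ∃ α β γ : ℤ, α ^ 2 = x + a * b ∧ β ^ 2 = x + a * c ∧ γ ^ 2 = x + b * c ∧
      α * β + β * γ + γ * α = 0 := by
  obtain ⟨α, ha2, ha3⟩ := sq_of_data h
  have h' : Data a c b x l m := by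
    obtain ⟨h1, h2, h3⟩ := h
    refine ⟨by rw [h1]; ring, by rw [h2]; ring, by rw [h3]; ring⟩
  have h'' : Data b c a x l m := by
    obtain ⟨h1, h2, h3⟩ := h
    refine ⟨by rw [h1]; ring, by rw [h2]; ring, by rw [h3]; ring⟩
  obtain ⟨β, hb2, hb3⟩ := sq_of_data h'
  obtain ⟨γ, hc2, hc3⟩ := sq_of_data h''
  refine ⟨α, β, γ, ha2, hb2, hc2, ?_⟩
  have ga : α ^ 3 + l * α ^ 2 = m + l * x := by rw [ha3, ha2]; ring
  have gb : β ^ 3 + l * β ^ 2 = m + l * x := by rw [hb3, hb2]; ring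
  have gc : γ ^ 3 + l * γ ^ 2 = m + l * x := by rw [hc3, hc2]; ring
  have nab : α ≠ β := by
    intro e
    rw [e, hb2] at ha2
    have : a * (c - b) = 0 := by linear_combination ha2
    rcases mul_eq_zero.1 this with h0 | h0
    · exact ha h0
    · exact hbc (by linarith)
  have nbc : β ≠ γ := by
    intro e
    rw [e, hc2] at hb2
    have : c * (b - a) = 0 := by linear_combination hb2
    rcases mul_eq_zero.1 this with h0 | h0
    · exact hc h0
    · exact hab (by linarith)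
  have nac : α ≠ γ := by
    intro e
    rw [e, hc2] at ha2
    have : b * (c - a) = 0 := by linear_combination ha2
    rcases mul_eq_zero.1 this with h0 | h0
    · exact hb h0
    · exact hac (by linarith)
  have e1 : α ^ 2 + α * β + β ^ 2 + l * (α + β) = 0 := by
    have : (α - β) * (α ^ 2 + α * β + β ^ 2 + l * (α + β)) = 0 := by
      linear_combination ga - gb
    rcases mul_eq_zero.1 this with h0 | h0
    · exact absurd (by linarith) nab
    · exact h0
  have e2 : β ^ 2 + β * γ + γ ^ 2 + l * (β + γ) = 0 := by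
    have : (β - γ) * (β ^ 2 + β * γ + γ ^ 2 + l * (β + γ)) = 0 := by
      linear_combination gb - gc
    rcases mul_eq_zero.1 this with h0 | h0
    · exact absurd (by linarith) nbc
    · exact h0
  have e3 : α + β + γ + l = 0 := by
    have : (α - γ) * (α + β + γ + l) = 0 := by
      linear_combination e1 - e2
    rcases mul_eq_zero.1 this with h0 | h0
    · exact absurd (by linarith) nac
    · exact h0
  linear_combination (α + β) * e3 - e1

theorem dec3a : ∀ a b c r s t : ZMod 3, a * b + 1 = r ^ 2 → a * c + 1 = s ^ 2 →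
    b * c + 1 = t ^ 2 → a * b ≠ 0 → (a * b = 2 ∧ c = 0) := by decide

theorem dec3b : ∀ x α β γ : ZMod 3, α ^ 2 = x + 2 → β ^ 2 = x → γ ^ 2 = x →
    α * β + β * γ + γ * α ≠ 0 := by decide

theorem dec4a : ∀ a b c r s t : ZMod 4, a * b + 1 = r ^ 2 → a * c + 1 = s ^ 2 →
    b * c + 1 = t ^ 2 → 2 * (a * b) ≠ 0 → (a * b = 3 ∧ a * c = 0 ∧ b * c = 0) := by decide

theorem dec4b : ∀ x α β γ : ZMod 4, α ^ 2 = x + 3 → β ^ 2 = x → γ ^ 2 = x →
    α * β + β * γ + γ * α ≠ 0 := by decide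

/-- `24 ∣ ab`. -/
theorem dvd24 {a b c r s t x α β γ : ℤ}
    (h1 : a * b + 1 = r ^ 2) (h2 : a * c + 1 = s ^ 2) (h3 : b * c + 1 = t ^ 2)
    (ha : α ^ 2 = x + a * b) (hb : β ^ 2 = x + a * c) (hc : γ ^ 2 = x + b * c)
    (hs : α * β + β * γ + γ * α = 0) : (24 : ℤ) ∣ a * b := by
  have d3 : (3 : ℤ) ∣ a * b := by
    by_contra hn
    have hn' : ((a * b : ℤ) : ZMod 3) ≠ 0 := by
      intro h0
      exact hn ((ZMod.intCast_zmod_eq_zero_iff_dvd _ 3).1 h0)
    have c1 := congrArg (Int.cast : ℤ → ZMod 3) h1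
    have c2 := congrArg (Int.cast : ℤ → ZMod 3) h2
    have c3 := congrArg (Int.cast : ℤ → ZMod 3) h3
    have c4 := congrArg (Int.cast : ℤ → ZMod 3) ha
    have c5 := congrArg (Int.cast : ℤ → ZMod 3) hb
    have c6 := congrArg (Int.cast : ℤ → ZMod 3) hc
    have c7 := congrArg (Int.cast : ℤ → ZMod 3) hs
    push_cast at hn' c1 c2 c3 c4 c5 c6 c7
    obtain ⟨e1, e2⟩ := dec3a _ _ _ _ _ _ c1 c2 c3 hn'
    rw [e1] at c4
    rw [e2, mul_zero, add_zero] at c5 c6
    exact dec3b _ _ _ _ c4 c5 c6 c7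
  have d2 : (2 : ℤ) ∣ a * b := by
    by_contra hn
    have hn' : (2 * (a * b) : ZMod 4) ≠ 0 := by
      intro h0
      have h0' : ((2 * (a * b) : ℤ) : ZMod 4) = 0 := by push_cast; exact h0
      have := (ZMod.intCast_zmod_eq_zero_iff_dvd _ 4).1 h0'
      apply hn
      have h4 : (2 : ℤ) * 2 ∣ 2 * (a * b) := by simpa using this
      exact (mul_dvd_mul_iff_left (by norm_num)).1 h4
    have c1 := congrArg (Int.cast : ℤ → ZMod 4) h1
    have c2 := congrArg (Int.cast : ℤ → ZMod 4) h2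
    have c3 := congrArg (Int.cast : ℤ → ZMod 4) h3
    have c4 := congrArg (Int.cast : ℤ → ZMod 4) ha
    have c5 := congrArg (Int.cast : ℤ → ZMod 4) hb
    have c6 := congrArg (Int.cast : ℤ → ZMod 4) hc
    have c7 := congrArg (Int.cast : ℤ → ZMod 4) hs
    push_cast at c1 c2 c3 c4 c5 c6 c7
    obtain ⟨e1, e2, e3⟩ := dec4a _ _ _ _ _ _ c1 c2 c3 hn'
    rw [e1] at c4
    rw [e2, add_zero] at c5
    rw [e3, add_zero] at c6
    exact dec4b _ _ _ _ c4 c5 c6 c7
  have d8 : (8 : ℤ) ∣ a * b := by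
    have hr : Odd r := by
      rw [← Int.not_even_iff_odd]
      intro he
      have : (2 : ℤ) ∣ r ^ 2 := dvd_pow he.two_dvd two_ne_zero
      rw [← h1] at this
      have := (dvd_add_right d2).1 this
      norm_num at this
    have := Int.eight_dvd_sq_sub_one_of_odd hr
    have e : a * b = r ^ 2 - 1 := by linarith
    rwa [e]
  have hcop : IsCoprime (3 : ℤ) 8 := ⟨3, -1, by norm_num⟩
  have := hcop.mul_dvd d3 d8
  simpa using this

end Pool.Agent.Work.MP_71a505_nt
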