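import Mathlib

namespace Pool.Agent.Work.MP_71a505_nt

/-- `ab+1 = r^2`, `ac+1 = s^2`, `bc+1 = t^2` with `a, b, c ≥ 0` and positive roots. -/
def Sq3 (a b c r s t : ℤ) : Prop :=
  0 ≤ a ∧ 0 ≤ b ∧ 0 ≤ c ∧ 0 < r ∧ 0 < s ∧ 0 < t ∧
    a * b + 1 = r ^ 2 ∧ a * c + 1 = s ^ 2 ∧ b * c + 1 = t ^ 2

/-- pairwise coprime -/
def PC (r s t : ℤ) : Prop := IsCoprime r s ∧ IsCoprime r t ∧ IsCoprime s t

/-- the number `d = a + b + c + 2abc - 2rst` -/
def dm (a b c r s t : ℤ) : ℤ := a + b + c + 2 * a * b * c - 2 * r * s * t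

theorem dm_v {a b c r s t : ℤ} (h : Sq3 a b c r s t) :
    b * dm a b c r s t + 1 = (b * s - r * t) ^ 2 := by
  obtain ⟨-, -, -, -, -, -, h1, h2, h3⟩ := h
  unfold dm
  linear_combination (b ^ 2) * h2 + (a * b + 1) * h3 + t ^ 2 * h1

theorem dm_u {a b c r s t : ℤ} (h : Sq3 a b c r s t) :
    a * dm a b c r s t + 1 = (a * t - r * s) ^ 2 := by
  obtain ⟨-, -, -, -, -, -, h1, h2, h3⟩ := h
  unfold dm
  linear_combination (a ^ 2) * h3 + (a * b + 1) * h2 + s ^ 2 * h1

theorem dm_prod {a b c r s t : ℤ} (h : Sq3 a b c r s t) :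
    dm a b c r s t * (a + b + c + 2 * a * b * c + 2 * r * s * t)
      = (a + b - c) ^ 2 - 4 * (a * b + 1) := by
  obtain ⟨-, -, -, -, -, -, h1, h2, h3⟩ := h
  have e : (r * s * t) ^ 2 = (a * b + 1) * (a * c + 1) * (b * c + 1) := by
    rw [h1, h2, h3]; ring
  unfold dm
  linear_combination (-4 : ℤ) * e

/-- no square of the form `a^2 + 1` with `a > 0` -/
theorem no_sq {a u : ℤ} (ha : 0 < a) (hu : 0 < u) (h : a * a + 1 = u ^ 2) : False := by
  have h1 : a < u := by nlinarith
  nlinarith

theorem mul_ge_three {a b r : ℤ} (ha : 0 < a) (hb : 0 < b) (hr : 0 < r)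
    (h : a * b + 1 = r ^ 2) : 3 ≤ a * b := by
  have h0 : 1 ≤ a * b := by nlinarith
  have hr2 : 2 ≤ r := by nlinarith
  nlinarith

theorem dm_nonneg {a b c r s t : ℤ} (ha : 0 < a) (hb : 0 < b) (h : Sq3 a b c r s t) :
    0 ≤ dm a b c r s t := by
  by_contra hh
  push Not at hh
  -- one of a, b is at least 2
  have hv := dm_v h
  have hu := dm_u h
  have h1 : 0 ≤ (b * s - r * t) ^ 2 := sq_nonneg _
  have h2 : 0 ≤ (a * t - r * s) ^ 2 := sq_nonneg _
  have hab := mul_ge_three ha hb h.2.2.2.1 h.2.2.2.2.2.2.1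
  rcases le_or_gt 2 b with hb2 | hb2
  · nlinarith
  · have hb1 : b = 1 := by omega
    rw [hb1] at hab
    nlinarith

/-- The basic size facts about `d`. -/
theorem dm_lt {a b c r s t : ℤ} (ha : 0 < a) (hb : 0 < b) (hac : a < c) (hbc : b < c)
    (h : Sq3 a b c r s t) :
    4 * a * b * dm a b c r s t < c ∧ dm a b c r s t < c := by
  have h' := h
  obtain ⟨-, -, -, hr, hs, ht, h1, h2, h3⟩ := h'
  have hc : 0 < c := ha.trans hac
  have hd0 := dm_nonneg ha hb h
  have hprod := dm_prod h
  set d := dm a b c r s t with hd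
  have hpi : 0 < a * b * c := by positivity
  have hrp : 0 < r * s * t := by positivity
  have hrst : a * b * c < r * s * t := by
    have e : (a * b * c) ^ 2 < (r * s * t) ^ 2 := by
      have e2 : (r * s * t) ^ 2 = (a * b + 1) * (a * c + 1) * (b * c + 1) := by
        rw [h1, h2, h3]; ring
      rw [e2]
      have : (a * b + 1) * (a * c + 1) * (b * c + 1) = (a * b * c) ^ 2
        + (a * b) * (a * c) + (a * b) * (b * c) + (a * c) * (b * c) + a * b + a * c + b * c
        + 1 := by ring
      rw [this]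
      have h10 : 0 < (a * b) * (a * c) + (a * b) * (b * c) + (a * c) * (b * c) + a * b + a * c
        + b * c + 1 := by positivity
      linarith
    exact lt_of_pow_lt_pow_left₀ 2 hrp.le e
  have h5 : 4 * (a * b * c) < a + b + c + 2 * a * b * c + 2 * r * s * t := by linarith
  have h6 : d * (4 * (a * b * c)) ≤ d * (a + b + c + 2 * a * b * c + 2 * r * s * t) :=
    mul_le_mul_of_nonneg_left h5.le hd0
  have h7 : (a + b - c) ^ 2 ≤ c ^ 2 := by
    apply sq_le_sq'
    · linarith
    · linarith
  have h8 : 0 < a * b := by positivity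
  have h9 : c * (4 * a * b * d) < c * c := by
    calc c * (4 * a * b * d) = d * (4 * (a * b * c)) := by ring
      _ ≤ d * (a + b + c + 2 * a * b * c + 2 * r * s * t) := h6
      _ = (a + b - c) ^ 2 - 4 * (a * b + 1) := hprod
      _ < c * c := by nlinarith
  have h10 : 4 * a * b * d < c := lt_of_mul_lt_mul_left h9 hc.le
  refine ⟨h10, ?_⟩
  have h11 : d ≤ 4 * a * b * d := by nlinarith
  linarith

/-- The regular quadruple relation. -/
theorem dm_quad {a b c r s t : ℤ} (h : Sq3 a b c r s t) :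
    (c - (a + b + dm a b c r s t + 2 * a * b * dm a b c r s t)) ^ 2
      = 4 * (r * (a * t - r * s) * (b * s - r * t)) ^ 2 := by
  have hu := dm_u h
  have hv := dm_v h
  have h' := h
  obtain ⟨-, -, -, -, -, -, h1, h2, h3⟩ := h'
  have e4 : 4 * (r * (a * t - r * s) * (b * s - r * t)) ^ 2
      = 4 * (a * b + 1) * (a * dm a b c r s t + 1) * (b * dm a b c r s t + 1) := by
    rw [hu, hv, h1]; ring
  rw [e4]
  have e : (r * s * t) ^ 2 = (a * b + 1) * (a * c + 1) * (b * c + 1) := by
    rw [h1, h2, h3]; ring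
  have e3 : dm a b c r s t - (a + b + c + 2 * a * b * c) = - 2 * (r * s * t) := by
    unfold dm; ring
  have e2 : (c - (a + b + dm a b c r s t + 2 * a * b * dm a b c r s t)) ^ 2
      - 4 * (a * b + 1) * (a * dm a b c r s t + 1) * (b * dm a b c r s t + 1)
      = (dm a b c r s t - (a + b + c + 2 * a * b * c)) ^ 2
        - 4 * (a * b + 1) * (a * c + 1) * (b * c + 1) := by ring
  rw [e3] at e2
  linear_combination e2 + 4 * e

/-- the sharper lower bound for `c` when `d ≥ 1` -/
theorem dm_lt' {a b c r s t : ℤ} (ha : 0 < a) (hb : 0 < b) (hac : a < c) (hbc : b < c)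
    (h : Sq3 a b c r s t) (hd : 1 ≤ dm a b c r s t) :
    4 * a * b * dm a b c r s t + a + b + dm a b c r s t < c := by
  have h4 := (dm_lt ha hb hac hbc h).1
  have hq := dm_quad h
  have hu := dm_u h
  have hv := dm_v h
  have h' := h
  obtain ⟨-, -, -, hr, hs, ht, h1, h2, h3⟩ := h'
  set d := dm a b c r s t with hdd
  set R := r * (a * t - r * s) * (b * s - r * t) with hR
  have hab := mul_ge_three ha hb hr h1
  have hd0 : 0 < d := by linarith
  have hR2 : (a * b * d) ^ 2 < |R| ^ 2 := by
    rw [sq_abs]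
    have e2 : R ^ 2 = (a * b + 1) * (a * d + 1) * (b * d + 1) := by
      rw [hu, hv, h1, hR]; ring
    rw [e2]
    have : (a * b + 1) * (a * d + 1) * (b * d + 1) = (a * b * d) ^ 2
      + (a * b) * (a * d) + (a * b) * (b * d) + (a * d) * (b * d) + a * b + a * d + b * d
      + 1 := by ring
    rw [this]
    have h10 : 0 < (a * b) * (a * d) + (a * b) * (b * d) + (a * d) * (b * d) + a * b + a * d
      + b * d + 1 := by positivity
    linarith
  have hRlt : a * b * d < |R| := lt_of_pow_lt_pow_left₀ 2 (abs_nonneg _) hR2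
  have hfac : (c - (a + b + d + 2 * a * b * d) - 2 * |R|)
      * (c - (a + b + d + 2 * a * b * d) + 2 * |R|) = 0 := by
    have : |R| ^ 2 = R ^ 2 := sq_abs R
    linear_combination hq - 4 * this
  rcases mul_eq_zero.1 hfac with h5 | h5
  · linarith
  · exfalso
    have h6 : 4 * (a * b * d) < a + b + d := by linarith
    have h7 : a + b ≤ a * b + 1 := by nlinarith
    have h8 : a * b ≤ a * b * d := by nlinarith
    have h9 : 3 * d ≤ a * b * d := by nlinarith
    linarith

/-- regular case -/
theorem dm_zero {a b c r s t : ℤ} (h : Sq3 a b c r s t) (hd : dm a b c r s t = 0) :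
    c = a + b + 2 * r ∨ c = a + b - 2 * r := by
  have hprod := dm_prod h
  rw [hd, zero_mul] at hprod
  have h1 := h.2.2.2.2.2.2.1
  have h4 : (c - a - b - 2 * r) * (c - a - b + 2 * r) = 0 := by
    linear_combination (-1 : ℤ) * hprod + 4 * h1
  rcases mul_eq_zero.1 h4 with h5 | h5
  · left; linarith
  · right; linarith

/-- the new triple -/
theorem Sq3_dm {a b c r s t : ℤ} (ha : 0 < a) (hb : 0 < b) (h : Sq3 a b c r s t) :
    Sq3 a b (dm a b c r s t) r |a * t - r * s| |b * s - r * t| := by
  have hd0 := dm_nonneg ha hb h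
  have hu := dm_u h
  have hv := dm_v h
  have h1 := h.2.2.2.2.2.2.1
  refine ⟨ha.le, hb.le, hd0, h.2.2.2.1, ?_, ?_, h1, ?_, ?_⟩
  · rw [abs_pos]
    intro h0
    rw [h0] at hu
    nlinarith [mul_nonneg ha.le hd0]
  · rw [abs_pos]
    intro h0
    rw [h0] at hv
    nlinarith [mul_nonneg hb.le hd0]
  · rw [sq_abs]; exact hu
  · rw [sq_abs]; exact hv

theorem PC_step {a b r s t : ℤ}
    (h : PC r |a * t - r * s| |b * s - r * t|) : PC r s t := by
  obtain ⟨h1, h2, h3⟩ := h
  rw [IsCoprime.abs_right_iff] at h1 h2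
  rw [IsCoprime.abs_abs_iff] at h3
  refine ⟨?_, ?_, ?_⟩
  · -- r, s from r, bs - rt
    obtain ⟨x, y, hxy⟩ := h2
    exact ⟨x - y * t, y * b, by linear_combination hxy⟩
  · obtain ⟨x, y, hxy⟩ := h1
    exact ⟨x - y * s, y * a, by linear_combination hxy⟩
  · obtain ⟨x, y, hxy⟩ := h3
    exact ⟨y * b - x * r, x * a - y * r, by linear_combination hxy⟩

theorem PC_aux (n : ℕ) : ∀ a b c r s t : ℤ, a + b + c ≤ n → Sq3 a b c r s t → PC r s t := by
  induction n using Nat.strong_induction_on with
  | _ n ih =>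
    intro a b c r s t hn h
    have h' := h
    obtain ⟨ha, hb, hc, hr, hs, ht, h1, h2, h3⟩ := h'
    -- a zero element
    rcases ha.eq_or_lt with ha0 | ha0
    · have e1 : r = 1 := by
        have : r ^ 2 = 1 := by rw [← h1, ← ha0]; ring
        nlinarith
      have e2 : s = 1 := by
        have : s ^ 2 = 1 := by rw [← h2, ← ha0]; ring
        nlinarith
      rw [e1, e2]
      exact ⟨isCoprime_one_left, isCoprime_one_left, isCoprime_one_left⟩
    rcases hb.eq_or_lt with hb0 | hb0
    · have e1 : r = 1 := by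
        have : r ^ 2 = 1 := by rw [← h1, ← hb0]; ring
        nlinarith
      have e2 : t = 1 := by
        have : t ^ 2 = 1 := by rw [← h3, ← hb0]; ring
        nlinarith
      rw [e1, e2]
      exact ⟨isCoprime_one_left, isCoprime_one_left, isCoprime_one_right⟩
    rcases hc.eq_or_lt with hc0 | hc0
    · have e1 : s = 1 := by
        have : s ^ 2 = 1 := by rw [← h2, ← hc0]; ring
        nlinarith
      have e2 : t = 1 := by
        have : t ^ 2 = 1 := by rw [← h3, ← hc0]; ring
        nlinarith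
      rw [e1, e2]
      exact ⟨isCoprime_one_right, isCoprime_one_right, isCoprime_one_right⟩
    have nab : a ≠ b := fun e => no_sq hb0 hr (by rw [← h1, e])
    have nac : a ≠ c := fun e => no_sq hc0 hs (by rw [← h2, e])
    have nbc : b ≠ c := fun e => no_sq hc0 ht (by rw [← h3, e])
    -- generic step for a largest third element
    have key : ∀ a b c r s t : ℤ, a + b + c ≤ n → 0 < a → 0 < b → a < c → b < c →
        Sq3 a b c r s t → PC r s t := by
      intro a b c r s t hn ha hb hac hbc h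
      apply PC_step (a := a) (b := b)
      have hlt := (dm_lt ha hb hac hbc h).2
      have hd0 := dm_nonneg ha hb h
      have hsum : 0 ≤ a + b + dm a b c r s t := by linarith
      obtain ⟨k, hk⟩ : ∃ k : ℕ, a + b + dm a b c r s t = k :=
        ⟨(a + b + dm a b c r s t).toNat, by omega⟩
      have hkn : k < n := by
        have : (k : ℤ) < n := by linarith
        exact_mod_cast this
      exact ih k hkn _ _ _ _ _ _ hk.le (Sq3_dm ha hb h)
    rcases lt_or_gt_of_ne nac with hac | hac
    · rcases lt_or_gt_of_ne nbc with hbc | hbc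
      · exact key a b c r s t hn ha0 hb0 hac hbc h
      · -- b largest : (a, c, b; s, r, t)
        have := key a c b s r t (by linarith) ha0 hc0 (hac.trans hbc) hbc
          ⟨ha, hc, hb, hs, hr, ht, h2, h1, by rw [← h3]; ring⟩
        exact ⟨this.1.symm, this.2.2, this.2.1⟩
    · rcases lt_or_gt_of_ne nab with hab | hab
      · -- c < a < b : b largest
        have := key a c b s r t (by linarith) ha0 hc0 hab (hac.trans hab)
          ⟨ha, hc, hb, hs, hr, ht, h2, h1, by rw [← h3]; ring⟩
        exact ⟨this.1.symm, this.2.2, this.2.1⟩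
      · -- a largest : (b, c, a; t, r, s)
        have := key b c a t r s (by linarith) hb0 hc0 hab hac
          ⟨hb, hc, ha, ht, hr, hs, h3, by rw [← h1]; ring, by rw [← h2]; ring⟩
        exact ⟨this.2.2, this.1.symm, this.2.1.symm⟩

/-- In every Diophantine triple the three roots are pairwise coprime. -/
theorem pairwise_coprime {a b c r s t : ℤ} (h : Sq3 a b c r s t) : PC r s t := by
  have h' := h
  obtain ⟨ha, hb, hc, -⟩ := h'
  exact PC_aux (a + b + c).toNat a b c r s t (by omega) h

end Pool.Agent.Work.MP_71a505_nt
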