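import Mathlib
import Pool.Agent.Work.MP_71a505_nt.Core
import Pool.Agent.Work.MP_71a505_nt.Descent
import Pool.Agent.Work.MP_71a505_nt.Congr
import Pool.Agent.Work.MP_71a505_nt.Coprime

namespace Pool.Agent.Work.MP_71a505_nt

/-- The three squares `x + ab`, `x + ac`, `x + bc`, with all the relations between their
roots and the tangent line. -/
theorem squares' {a b c x l m : ℤ} (ha : a ≠ 0) (hb : b ≠ 0) (hc : c ≠ 0)
    (hab : a ≠ b) (hac : a ≠ c) (hbc : b ≠ c)
    (h : Data a b c x l m) :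
    ∃ α β γ : ℤ, α ^ 2 = x + a * b ∧ β ^ 2 = x + a * c ∧ γ ^ 2 = x + b * c ∧
      α * β + β * γ + γ * α = 0 ∧ l = -(α + β + γ) ∧ α * β * γ = m + l * x := by
  obtain ⟨α, ha2, ha3⟩ := sq_of_data h
  have h' : Data a c b x l m := by
    obtain ⟨h1, h2, h3⟩ := h
    refine ⟨by rw [h1]; ring, by rw [h2]; ring, by rw [h3]; ring⟩
  have h'' : Data b c a x l m := by
    obtain ⟨h1, h2, h3⟩ := h
    refine ⟨by rw [h1]; ring, by rw [h2]; ring, by rw [h3]; ring⟩
  obtain ⟨β, hb2, hb3⟩ := sq_of_data h'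
  obtain ⟨γ, hc2, hc3⟩ := sq_of_data h''
  have ga : α ^ 3 + l * α ^ 2 = m + l * x := by rw [ha3, ha2]; ring
  have gb : β ^ 3 + l * β ^ 2 = m + l * x := by rw [hb3, hb2]; ring
  have gc : γ ^ 3 + l * γ ^ 2 = m + l * x := by rw [hc3, hc2]; ring
  have nab : α ≠ β := by
    intro e
    rw [e, hb2] at ha2
    have : a * (c - b) = 0 := by linear_combination ha2
    rcases mul_eq_zero.1 this with h0 | h0
    · exact ha h0
    · exact hbc (by linarith)
  have nbc : β ≠ γ := by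
    intro e
    rw [e, hc2] at hb2
    have : c * (b - a) = 0 := by linear_combination hb2
    rcases mul_eq_zero.1 this with h0 | h0
    · exact hc h0
    · exact hab (by linarith)
  have nac : α ≠ γ := by
    intro e
    rw [e, hc2] at ha2
    have : b * (c - a) = 0 := by linear_combination ha2
    rcases mul_eq_zero.1 this with h0 | h0
    · exact hb h0
    · exact hac (by linarith)
  have e1 : α ^ 2 + α * β + β ^ 2 + l * (α + β) = 0 := by
    have : (α - β) * (α ^ 2 + α * β + β ^ 2 + l * (α + β)) = 0 := by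
      linear_combination ga - gb
    rcases mul_eq_zero.1 this with h0 | h0
    · exact absurd (by linarith) nab
    · exact h0
  have e2 : β ^ 2 + β * γ + γ ^ 2 + l * (β + γ) = 0 := by
    have : (β - γ) * (β ^ 2 + β * γ + γ ^ 2 + l * (β + γ)) = 0 := by
      linear_combination gb - gc
    rcases mul_eq_zero.1 this with h0 | h0
    · exact absurd (by linarith) nbc
    · exact h0
  have e3 : α + β + γ + l = 0 := by
    have : (α - γ) * (α + β + γ + l) = 0 := by
      linear_combination e1 - e2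
    rcases mul_eq_zero.1 this with h0 | h0
    · exact absurd (by linarith) nac
    · exact h0
  have e4 : α * β + β * γ + γ * α = 0 := by linear_combination (α + β) * e3 - e1
  refine ⟨α, β, γ, ha2, hb2, hc2, e4, by linarith, ?_⟩
  rw [← ga]
  linear_combination α * e4 - α ^ 2 * e3

/-- parity facts -/
theorem four_dvd {x P Q R α β γ : ℤ} (hP : (8 : ℤ) ∣ P) (hQ : (8 : ℤ) ∣ Q) (hR : (8 : ℤ) ∣ R)
    (ha : α ^ 2 = x + P) (hb : β ^ 2 = x + Q) (hc : γ ^ 2 = x + R)
    (hs : α * β + β * γ + γ * α = 0) :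
    (8 : ℤ) ∣ x ∧ (4 : ℤ) ∣ α ∧ (4 : ℤ) ∣ β ∧ (4 : ℤ) ∣ γ := by
  obtain ⟨P, rfl⟩ := hP
  obtain ⟨Q, rfl⟩ := hQ
  obtain ⟨R, rfl⟩ := hR
  -- parity
  have par : ∀ z w : ℤ, z ^ 2 = x + 8 * w → (Odd x ↔ Odd z) := by
    intro z w h
    have : x = z ^ 2 - 8 * w := by linarith
    rw [this]
    constructor
    · intro ho
      by_contra hz
      rw [Int.not_odd_iff_even] at hz
      obtain ⟨k, rfl⟩ := hz
      obtain ⟨j, hj⟩ := ho
      ring_nf at hj
      omega
    · rintro ⟨k, rfl⟩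
      exact ⟨2 * k ^ 2 + 2 * k - 4 * w, by ring⟩
  have pa := par α P ha
  have pb := par β Q hb
  have pc := par γ R hc
  have hx : Even x := by
    rw [← Int.not_odd_iff_even]
    intro ho
    obtain ⟨i, hi⟩ := pa.1 ho
    obtain ⟨j, hj⟩ := pb.1 ho
    obtain ⟨k, hk⟩ := pc.1 ho
    rw [hi, hj, hk] at hs
    ring_nf at hs
    omega
  have ea : Even α := by
    rw [← Int.not_odd_iff_even]; intro h; exact (Int.not_odd_iff_even.2 hx) (pa.2 h)
  have eb : Even β := by
    rw [← Int.not_odd_iff_even]; intro h; exact (Int.not_odd_iff_even.2 hx) (pb.2 h)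
  have ec : Even γ := by
    rw [← Int.not_odd_iff_even]; intro h; exact (Int.not_odd_iff_even.2 hx) (pc.2 h)
  obtain ⟨α', rfl⟩ := ea
  obtain ⟨β', rfl⟩ := eb
  obtain ⟨γ', rfl⟩ := ec
  have hs' : α' * β' + β' * γ' + γ' * α' = 0 := by nlinarith
  -- x = 4 y
  obtain ⟨y, hy⟩ : ∃ y, x = 4 * y := ⟨α' ^ 2 - 2 * P, by nlinarith⟩
  rw [hy] at ha hb hc
  have ha' : α' ^ 2 = y + 2 * P := by nlinarith
  have hb' : β' ^ 2 = y + 2 * Q := by nlinarith
  have hc' : γ' ^ 2 = y + 2 * R := by nlinarith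
  have par2 : ∀ z w : ℤ, z ^ 2 = y + 2 * w → (Odd y ↔ Odd z) := by
    intro z w h
    have : y = z ^ 2 - 2 * w := by linarith
    rw [this]
    constructor
    · intro ho
      by_contra hz
      rw [Int.not_odd_iff_even] at hz
      obtain ⟨k, rfl⟩ := hz
      obtain ⟨j, hj⟩ := ho
      ring_nf at hj
      omega
    · rintro ⟨k, rfl⟩
      exact ⟨2 * k ^ 2 + 2 * k - w, by ring⟩
  have qa := par2 α' P ha'
  have qb := par2 β' Q hb'
  have qc := par2 γ' R hc'
  have hy2 : Even y := by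
    rw [← Int.not_odd_iff_even]
    intro ho
    obtain ⟨i, hi⟩ := qa.1 ho
    obtain ⟨j, hj⟩ := qb.1 ho
    obtain ⟨k, hk⟩ := qc.1 ho
    rw [hi, hj, hk] at hs'
    ring_nf at hs'
    omega
  have fa : Even α' := by
    rw [← Int.not_odd_iff_even]; intro h; exact (Int.not_odd_iff_even.2 hy2) (qa.2 h)
  have fb : Even β' := by
    rw [← Int.not_odd_iff_even]; intro h; exact (Int.not_odd_iff_even.2 hy2) (qb.2 h)
  have fc : Even γ' := by
    rw [← Int.not_odd_iff_even]; intro h; exact (Int.not_odd_iff_even.2 hy2) (qc.2 h)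
  obtain ⟨y', hy'⟩ := hy2
  obtain ⟨α'', rfl⟩ := fa
  obtain ⟨β'', rfl⟩ := fb
  obtain ⟨γ'', rfl⟩ := fc
  exact ⟨⟨y', by omega⟩, ⟨α'', by ring⟩, ⟨β'', by ring⟩, ⟨γ'', by ring⟩⟩

end Pool.Agent.Work.MP_71a505_nt
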