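import Mathlib
import Pool.Agent.Work.MP_71a505_nt.Roots

namespace Pool.Agent.Work.MP_71a505_nt

theorem sum_sq {a b c r s t x l m : ℤ} (h : Sq3 a b c r s t) (hD : Data a b c x l m) :
    (l + m) ^ 2 = (r * s * t) ^ 2 + (x - 1) ^ 3 := by
  obtain ⟨-, -, -, -, -, -, h1, h2, h3⟩ := h
  obtain ⟨d1, d2, d3⟩ := hD
  have e : (r * s * t) ^ 2 = (a * b + 1) * (a * c + 1) * (b * c + 1) := by
    rw [h1, h2, h3]; ring
  rw [e]
  linear_combination d1 + d2 + d3

theorem coprime_S {r s t x α β γ w : ℤ} (hpc : PC r s t) (hx : Even x)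
    (ha : α ^ 2 = r ^ 2 + (x - 1)) (hb : β ^ 2 = s ^ 2 + (x - 1)) (hc : γ ^ 2 = t ^ 2 + (x - 1))
    (hs : α * β + β * γ + γ * α = 0) (hw : w ^ 2 = (r * s * t) ^ 2 + (x - 1) ^ 3) :
    IsCoprime (r * s * t - w) (r * s * t + w) := by
  rw [Int.isCoprime_iff_gcd_eq_one]
  by_contra hg
  obtain ⟨p, hp, hpd⟩ := Nat.exists_prime_and_dvd hg
  have hpi : Prime (p : ℤ) := Nat.prime_iff_prime_int.1 hp
  have hM : (p : ℤ) ∣ r * s * t - w := (Int.natCast_dvd_natCast.2 hpd).trans (Int.gcd_dvd_left _ _)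
  have hK : (p : ℤ) ∣ r * s * t + w := (Int.natCast_dvd_natCast.2 hpd).trans (Int.gcd_dvd_right _ _)
  have hx3 : (p : ℤ) ∣ (x - 1) ^ 3 := by
    have e : (x - 1) ^ 3 = - ((r * s * t - w) * (r * s * t + w)) := by
      linear_combination (-1 : ℤ) * hw
    rw [e]
    exact (dvd_neg).2 (Dvd.dvd.mul_right hM _)
  have hxp : (p : ℤ) ∣ x - 1 := hpi.dvd_of_dvd_pow hx3
  -- p is odd
  have hp2 : ¬ (p : ℤ) ∣ 2 := by
    intro h2
    have h2' : p ∣ 2 := by exact_mod_cast h2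
    have hpeq : p = 2 := (Nat.prime_dvd_prime_iff_eq hp Nat.prime_two).1 h2'
    rw [hpeq] at hxp
    obtain ⟨k, hk⟩ := hx
    obtain ⟨j, hj⟩ := hxp
    push_cast at hj
    omega
  have h2rho : (p : ℤ) ∣ 2 * (r * s * t) := by
    have := dvd_add hM hK
    have e : r * s * t - w + (r * s * t + w) = 2 * (r * s * t) := by ring
    rwa [e] at this
  have hrho : (p : ℤ) ∣ r * s * t := (hpi.dvd_or_dvd h2rho).resolve_left hp2
  have sqdvd : ∀ {z w : ℤ}, z ^ 2 = w ^ 2 + (x - 1) → ((p : ℤ) ∣ z ↔ (p : ℤ) ∣ w) := by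
    intro z w h
    constructor
    · intro hz
      have h1 : (p : ℤ) ∣ z ^ 2 := dvd_pow hz two_ne_zero
      rw [h] at h1
      exact hpi.dvd_of_dvd_pow ((dvd_add_left hxp).1 h1)
    · intro hw'
      have h1 : (p : ℤ) ∣ w ^ 2 + (x - 1) := dvd_add (dvd_pow hw' two_ne_zero) hxp
      rw [← h] at h1
      exact hpi.dvd_of_dvd_pow h1
  have contra : ∀ {y z : ℤ}, IsCoprime y z → (p : ℤ) ∣ y → (p : ℤ) ∣ z → False := by
    intro y z hyz hy hz
    obtain ⟨i, j, hij⟩ := hyz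
    have : (p : ℤ) ∣ 1 := by
      rw [← hij]
      exact dvd_add (Dvd.dvd.mul_left hy i) (Dvd.dvd.mul_left hz j)
    exact hpi.not_isUnit (isUnit_of_dvd_one this)
  obtain ⟨hrs, hrt, hst⟩ := hpc
  rcases hpi.dvd_or_dvd hrho with h0 | h0
  · rcases hpi.dvd_or_dvd h0 with h0 | h0
    · -- p | r
      have ha' : (p : ℤ) ∣ α := (sqdvd ha).2 h0
      have hbg : (p : ℤ) ∣ β * γ := by
        have e : β * γ = - (α * (β + γ)) := by linear_combination hs
        rw [e]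
        exact (dvd_neg).2 (Dvd.dvd.mul_right ha' _)
      rcases hpi.dvd_or_dvd hbg with h1 | h1
      · exact contra hrs h0 ((sqdvd hb).1 h1)
      · exact contra hrt h0 ((sqdvd hc).1 h1)
    · -- p | s
      have hb' : (p : ℤ) ∣ β := (sqdvd hb).2 h0
      have hag : (p : ℤ) ∣ γ * α := by
        have e : γ * α = - (β * (α + γ)) := by linear_combination hs
        rw [e]
        exact (dvd_neg).2 (Dvd.dvd.mul_right hb' _)
      rcases hpi.dvd_or_dvd hag with h1 | h1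
      · exact contra hst h0 ((sqdvd hc).1 h1)
      · exact contra hrs ((sqdvd ha).1 h1) h0
  · -- p | t
    have hc' : (p : ℤ) ∣ γ := (sqdvd hc).2 h0
    have hab : (p : ℤ) ∣ α * β := by
      have e : α * β = - (γ * (α + β)) := by linear_combination hs
      rw [e]
      exact (dvd_neg).2 (Dvd.dvd.mul_right hc' _)
    rcases hpi.dvd_or_dvd hab with h1 | h1
    · exact contra hrt ((sqdvd ha).1 h1) h0
    · exact contra hst ((sqdvd hb).1 h1) h0

theorem cubes_S {r s t x α β γ w : ℤ} (hpc : PC r s t) (hx : Even x)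
    (ha : α ^ 2 = r ^ 2 + (x - 1)) (hb : β ^ 2 = s ^ 2 + (x - 1)) (hc : γ ^ 2 = t ^ 2 + (x - 1))
    (hs : α * β + β * γ + γ * α = 0) (hw : w ^ 2 = (r * s * t) ^ 2 + (x - 1) ^ 3) :
    ∃ δ D : ℤ, r * s * t = δ * (δ ^ 2 + 3 * D ^ 2) ∧ w = D * (D ^ 2 + 3 * δ ^ 2) ∧
      D ^ 2 = δ ^ 2 + (x - 1) := by
  have hcop := coprime_S hpc hx ha hb hc hs hw
  have hprod : (r * s * t - w) * (r * s * t + w) = (1 - x) ^ 3 := by
    linear_combination (-1 : ℤ) * hw
  have ho : Odd 3 := by decide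
  obtain ⟨⟨u, hu⟩, ⟨v, hv⟩⟩ := Int.eq_pow_of_mul_eq_pow_odd hcop ho hprod
  have huv : u * v = 1 - x := by
    apply cube_inj
    rw [mul_pow, ← hu, ← hv, hprod]
  have hodd : Odd (u * v) := by
    rw [huv]
    exact Odd.sub_even odd_one hx
  obtain ⟨ou, ov⟩ := Int.odd_mul.1 hodd
  obtain ⟨δ, hδ⟩ := ou.add_odd ov
  obtain ⟨D, hD⟩ := ov.sub_odd ou
  have eu : u = δ - D := by omega
  have ev : v = δ + D := by omega
  refine ⟨δ, D, ?_, ?_, ?_⟩
  · have : 2 * (r * s * t) = u ^ 3 + v ^ 3 := by rw [← hu, ← hv]; ring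
    rw [eu, ev] at this
    have h2 : 2 * (r * s * t) = 2 * (δ * (δ ^ 2 + 3 * D ^ 2)) := by rw [this]; ring
    exact mul_left_cancel₀ two_ne_zero h2
  · have : 2 * w = v ^ 3 - u ^ 3 := by rw [← hu, ← hv]; ring
    rw [eu, ev] at this
    have h2 : 2 * w = 2 * (D * (D ^ 2 + 3 * δ ^ 2)) := by rw [this]; ring
    exact mul_left_cancel₀ two_ne_zero h2
  · rw [eu, ev] at huv
    linear_combination (-1 : ℤ) * huv

end Pool.Agent.Work.MP_71a505_nt
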