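import Mathlib
import Pool.Agent.Work.MP_71a505_nt.CubesS

namespace Pool.Agent.Work.MP_71a505_nt

/-- the quartic relation in terms of `r, s, t` -/
theorem quartic_rel {a b c r s t x l m : ℤ} (h : Sq3 a b c r s t) (hD : Data a b c x l m) :
    4 * ((r ^ 2 + s ^ 2 + t ^ 2) + 3 * (x - 1)) * ((r * s * t) ^ 2 + (x - 1) ^ 3)
      = ((r ^ 2 * s ^ 2 + r ^ 2 * t ^ 2 + s ^ 2 * t ^ 2) - 3 * (x - 1) ^ 2) ^ 2 := by
  have hs := sum_sq h hD
  obtain ⟨-, -, -, -, -, -, h1, h2, h3⟩ := h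
  obtain ⟨d1, d2, d3⟩ := hD
  have e1 : l ^ 2 = (r ^ 2 + s ^ 2 + t ^ 2) + 3 * (x - 1) := by
    rw [← h1, ← h2, ← h3, d1]; ring
  have e2 : 2 * l * (l + m)
      = (r ^ 2 * s ^ 2 + r ^ 2 * t ^ 2 + s ^ 2 * t ^ 2) - 3 * (x - 1) ^ 2 := by
    rw [← h1, ← h2, ← h3]
    linear_combination 2 * d1 + d2
  rw [← e1, ← hs, ← e2]
  ring

/-- `δ > r` -/
theorem delta_gt {r s t e δ D : ℤ} (hr : 0 < r) (hrs : 2 * r ≤ s) (hst : s < t)
    (hq : 4 * ((r ^ 2 + s ^ 2 + t ^ 2) + 3 * e) * ((r * s * t) ^ 2 + e ^ 3)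
      = ((r ^ 2 * s ^ 2 + r ^ 2 * t ^ 2 + s ^ 2 * t ^ 2) - 3 * e ^ 2) ^ 2)
    (hδ : 0 < δ) (hρ : r * s * t = δ * (δ ^ 2 + 3 * D ^ 2)) (hD : D ^ 2 = δ ^ 2 + e) :
    r < δ := by
  by_contra hle
  push Not at hle
  have hs : 0 < s := by linarith
  have ht : 0 < t := by linarith
  have hρ' : r * (s * t) = δ * (4 * δ ^ 2 + 3 * e) := by
    rw [hD] at hρ
    linear_combination hρ
  have hpos : 0 < 4 * δ ^ 2 + 3 * e := by
    have : 0 < δ * (4 * δ ^ 2 + 3 * e) := by rw [← hρ']; positivity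
    exact pos_of_mul_pos' hδ this
  have h1 : s * t ≤ 4 * r ^ 2 + 3 * e := by
    have h2 : r * (s * t) ≤ r * (4 * r ^ 2 + 3 * e) := by
      rw [hρ']
      have hd2 : δ ^ 2 ≤ r ^ 2 := by nlinarith
      calc δ * (4 * δ ^ 2 + 3 * e) ≤ r * (4 * δ ^ 2 + 3 * e) :=
            mul_le_mul_of_nonneg_right hle hpos.le
        _ ≤ r * (4 * r ^ 2 + 3 * e) := by
            apply mul_le_mul_of_nonneg_left _ hr.le
            linarith
    exact le_of_mul_le_mul_left h2 hr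
  set z : ℤ := 3 * e with hz
  set z0 : ℤ := s * t - 4 * r ^ 2 with hz0
  have hst4 : 4 * r ^ 2 < s * t := by
    have : 2 * r < t := by linarith
    nlinarith
  have hz0pos : 0 < z0 := by rw [hz0]; linarith
  have hzz : z0 ≤ z := by rw [hz0]; linarith
  have hG : z ^ 4 + 4 * (r ^ 2 + s ^ 2 + t ^ 2) * z ^ 3
      + 18 * (r ^ 2 * s ^ 2 + r ^ 2 * t ^ 2 + s ^ 2 * t ^ 2) * z ^ 2
      + 108 * (r * s * t) ^ 2 * z + 108 * (r ^ 2 + s ^ 2 + t ^ 2) * (r * s * t) ^ 2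
      - 27 * (r ^ 2 * s ^ 2 + r ^ 2 * t ^ 2 + s ^ 2 * t ^ 2) ^ 2 = 0 := by
    rw [hz]
    linear_combination 27 * hq
  have hG0 : z0 ^ 4 + 4 * (r ^ 2 + s ^ 2 + t ^ 2) * z0 ^ 3
      + 18 * (r ^ 2 * s ^ 2 + r ^ 2 * t ^ 2 + s ^ 2 * t ^ 2) * z0 ^ 2
      + 108 * (r * s * t) ^ 2 * z0 + 108 * (r ^ 2 + s ^ 2 + t ^ 2) * (r * s * t) ^ 2
      - 27 * (r ^ 2 * s ^ 2 + r ^ 2 * t ^ 2 + s ^ 2 * t ^ 2) ^ 2
      = (t - s) ^ 2 * (4 * (s * t - r ^ 2) ^ 2 * (s * t + 8 * r ^ 2)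
        - 27 * r ^ 4 * (t - s) ^ 2) := by
    rw [hz0]; ring
  have hmono : z0 ^ 4 + 4 * (r ^ 2 + s ^ 2 + t ^ 2) * z0 ^ 3
      + 18 * (r ^ 2 * s ^ 2 + r ^ 2 * t ^ 2 + s ^ 2 * t ^ 2) * z0 ^ 2
      + 108 * (r * s * t) ^ 2 * z0 ≤ z ^ 4 + 4 * (r ^ 2 + s ^ 2 + t ^ 2) * z ^ 3
      + 18 * (r ^ 2 * s ^ 2 + r ^ 2 * t ^ 2 + s ^ 2 * t ^ 2) * z ^ 2
      + 108 * (r * s * t) ^ 2 * z := by
    have p4 : z0 ^ 4 ≤ z ^ 4 := pow_le_pow_left₀ hz0pos.le hzz 4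
    have p3 : z0 ^ 3 ≤ z ^ 3 := pow_le_pow_left₀ hz0pos.le hzz 3
    have p2 : z0 ^ 2 ≤ z ^ 2 := pow_le_pow_left₀ hz0pos.le hzz 2
    have q3 : 4 * (r ^ 2 + s ^ 2 + t ^ 2) * z0 ^ 3 ≤ 4 * (r ^ 2 + s ^ 2 + t ^ 2) * z ^ 3 :=
      mul_le_mul_of_nonneg_left p3 (by positivity)
    have q2 : 18 * (r ^ 2 * s ^ 2 + r ^ 2 * t ^ 2 + s ^ 2 * t ^ 2) * z0 ^ 2
        ≤ 18 * (r ^ 2 * s ^ 2 + r ^ 2 * t ^ 2 + s ^ 2 * t ^ 2) * z ^ 2 :=
      mul_le_mul_of_nonneg_left p2 (by positivity)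
    have q1 : 108 * (r * s * t) ^ 2 * z0 ≤ 108 * (r * s * t) ^ 2 * z :=
      mul_le_mul_of_nonneg_left hzz (by positivity)
    linarith
  have hineq : 27 * r ^ 4 * (t - s) ^ 2 < 4 * (s * t - r ^ 2) ^ 2 * (s * t + 8 * r ^ 2) := by
    -- (t - s)^2 < t^2
    have h3 : (t - s) ^ 2 < t ^ 2 := by
      apply pow_lt_pow_left₀ (by linarith) (by linarith) two_ne_zero
    have h4 : 27 * r ^ 4 * (t - s) ^ 2 < 27 * r ^ 4 * t ^ 2 :=
      mul_lt_mul_of_pos_left h3 (by positivity)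
    -- 4 (q - r^2) ≥ 3 q
    have h5 : 3 * (s * t) ≤ 4 * (s * t - r ^ 2) := by linarith
    have hqpos : 0 < s * t := by positivity
    have h6 : (3 * (s * t)) ^ 2 ≤ (4 * (s * t - r ^ 2)) ^ 2 :=
      pow_le_pow_left₀ (by positivity) h5 2
    -- 12 r^4 t^2 ≤ q^3
    have h7 : 8 * r ^ 3 ≤ s ^ 3 := by
      have := pow_le_pow_left₀ (by positivity) hrs 3
      calc 8 * r ^ 3 = (2 * r) ^ 3 := by ring
        _ ≤ s ^ 3 := this
    have h8 : 12 * r ^ 4 * t ^ 2 ≤ (s * t) ^ 3 := by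
      have h9 : 12 * r ^ 4 ≤ 8 * r ^ 3 * t := by
        have : 12 * r ≤ 8 * t := by linarith
        have h10 : r ^ 3 * (12 * r) ≤ r ^ 3 * (8 * t) := mul_le_mul_of_nonneg_left this (by positivity)
        linarith
      have h11 : 8 * r ^ 3 * t ≤ s ^ 3 * t := mul_le_mul_of_nonneg_right h7 ht.le
      calc 12 * r ^ 4 * t ^ 2 ≤ (s ^ 3 * t) * t ^ 2 :=
            mul_le_mul_of_nonneg_right (h9.trans h11) (by positivity)
        _ = (s * t) ^ 3 := by ring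
    have h12 : (s * t) * (3 * (s * t)) ^ 2 ≤ (s * t) * (4 * (s * t - r ^ 2)) ^ 2 :=
      mul_le_mul_of_nonneg_left h6 hqpos.le
    have h13 : 0 ≤ (s * t - r ^ 2) ^ 2 * r ^ 2 := by positivity
    nlinarith
  have hpos2 : 0 < (t - s) ^ 2 * (4 * (s * t - r ^ 2) ^ 2 * (s * t + 8 * r ^ 2)
        - 27 * r ^ 4 * (t - s) ^ 2) := by
    apply mul_pos
    · have : 0 < t - s := by linarith
      positivity
    · linarith
  linarith

/-- relation between the absolute values of the roots -/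
theorem abs_rel {α β γ l : ℤ} (hs : α * β + β * γ + γ * α = 0) (h1 : α ^ 2 < β ^ 2)
    (h2 : β ^ 2 < γ ^ 2) (hl : l = -(α + β + γ)) :
    |α| * (|β| + |γ|) = |β| * |γ| ∧ 0 < α * l ∧ 0 < |α| := by
  have a1 : |α| < |β| := sq_lt_sq.1 h1
  have a2 : |β| < |γ| := sq_lt_sq.1 h2
  have hb0 : 0 < |β| := lt_of_le_of_lt (abs_nonneg _) a1
  have hc0 : 0 < |γ| := hb0.trans a2
  have hα0 : α ≠ 0 := by
    intro h0
    rw [h0] at hs
    have h3 : β * γ = 0 := by linarith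
    rcases mul_eq_zero.1 h3 with h4 | h4
    · rw [h4] at hb0; simp at hb0
    · rw [h4] at hc0; simp at hc0
  have hbg : 0 < β * γ := by
    by_contra hneg
    push Not at hneg
    -- |β + γ| = |γ| - |β|
    have e1 : |α| * |β + γ| = |β| * |γ| := by
      rw [← abs_mul, ← abs_mul]
      have : α * (β + γ) = - (β * γ) := by linear_combination hs
      rw [this, abs_neg]
    have e2 : |β + γ| ≤ |γ| - |β| := by
      have h5 : (β + γ) ^ 2 ≤ (|γ| - |β|) ^ 2 := by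
        have e3 : (|γ| - |β|) ^ 2 = γ ^ 2 + β ^ 2 - 2 * |β * γ| := by
          rw [abs_mul]
          have := sq_abs γ
          have := sq_abs β
          linarith [sq_abs γ, sq_abs β, sub_sq |γ| |β|]
        rw [e3, abs_of_nonpos hneg]
        linarith [add_sq β γ]
      exact abs_le_of_sq_le_sq h5 (by linarith)
    have e4 : |α| * |β + γ| ≤ |α| * (|γ| - |β|) := mul_le_mul_of_nonneg_left e2 (abs_nonneg _)
    have e5 : |α| * (|γ| - |β|) ≤ |α| * |γ| := by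
      apply mul_le_mul_of_nonneg_left _ (abs_nonneg _)
      linarith
    have e6 : |β| * |γ| ≤ |α| * |γ| := by linarith
    have := le_of_mul_le_mul_right e6 hc0
    linarith
  have e1 : |α| * |β + γ| = |β| * |γ| := by
    rw [← abs_mul, ← abs_mul]
    have : α * (β + γ) = - (β * γ) := by linear_combination hs
    rw [this, abs_neg]
  have e2 : |β + γ| = |β| + |γ| := by
    rcases pos_and_pos_or_neg_and_neg_of_mul_pos hbg with ⟨h3, h4⟩ | ⟨h3, h4⟩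
    · rw [abs_of_pos h3, abs_of_pos h4, abs_of_pos (by linarith)]
    · rw [abs_of_neg h3, abs_of_neg h4, abs_of_neg (by linarith)]; ring
  rw [e2] at e1
  refine ⟨e1, ?_, abs_pos.2 hα0⟩
  have e3 : α * l = β * γ - α ^ 2 := by rw [hl]; linear_combination (-1 : ℤ) * hs
  rw [e3]
  have e4 : β * γ = |β| * |γ| := by rw [← abs_mul, abs_of_pos hbg]
  have e5 : α ^ 2 = |α| * |α| := by rw [← sq, sq_abs]
  rw [e4, e5]
  have := mul_lt_mul a1 (a1.le.trans a2.le) (abs_pos.2 hα0) hb0.le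
  linarith

end Pool.Agent.Work.MP_71a505_nt
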