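import Mathlib
import Pool.Agent.Work.MP_71a505_nt.Size

namespace Pool.Agent.Work.MP_71a505_nt

/-- lower bound `12 A^2 ≥ 4 st - 4 r^2 - (t-s)^2` -/
theorem lower_A {r s t e A B C : ℤ} (hs : 0 < s) (hst : s < t) (he : 0 ≤ e)
    (hA : A ^ 2 = r ^ 2 + e) (hB : B ^ 2 = s ^ 2 + e) (hC : C ^ 2 = t ^ 2 + e)
    (hB0 : 0 < B) (hC0 : 0 < C) (hrel : A * (B + C) = B * C) :
    4 * (s * t) - 4 * r ^ 2 - (t - s) ^ 2 ≤ 12 * A ^ 2 := by
  have ht : 0 < t := hs.trans hst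
  -- 16 A^2 (B+C)^2 = 16 (BC)^2 ≥ (B+C)^2 (4BC - (C-B)^2)
  have hsum : 0 < B + C := by linarith
  have h1 : 4 * (B * C) - (C - B) ^ 2 ≤ 16 * A ^ 2 := by
    have h2 : (B + C) ^ 2 * (4 * (B * C) - (C - B) ^ 2) ≤ (B + C) ^ 2 * (16 * A ^ 2) := by
      have e1 : (B + C) ^ 2 * (16 * A ^ 2) = 16 * (B * C) ^ 2 := by
        rw [← hrel]; ring
      have e2 : 16 * (B * C) ^ 2 - (B + C) ^ 2 * (4 * (B * C) - (C - B) ^ 2)
          = (4 * (B * C) - (B + C) ^ 2) ^ 2 := by ring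
      have := sq_nonneg (4 * (B * C) - (B + C) ^ 2)
      linarith
    exact le_of_mul_le_mul_left h2 (by positivity)
  -- BC ≥ st + e
  have h3 : s * t + e ≤ B * C := by
    have h4 : (s * t + e) ^ 2 ≤ (B * C) ^ 2 := by
      have e1 : (B * C) ^ 2 - (s * t + e) ^ 2 = e * (t - s) ^ 2 := by
        rw [mul_pow, hB, hC]; ring
      have : 0 ≤ e * (t - s) ^ 2 := by positivity
      linarith
    exact le_of_sq_le_sq h4 (by positivity)
  -- C - B ≤ t - s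
  have hBs : s ≤ B := by
    have h4 : s ^ 2 ≤ B ^ 2 := by linarith
    exact le_of_sq_le_sq h4 hB0.le
  have hCt : t ≤ C := by
    have h4 : t ^ 2 ≤ C ^ 2 := by linarith
    exact le_of_sq_le_sq h4 hC0.le
  have hBC : B < C := by
    have h4 : B ^ 2 < C ^ 2 := by
      rw [hB, hC]
      have : s ^ 2 < t ^ 2 := pow_lt_pow_left₀ hst hs.le two_ne_zero
      linarith
    exact lt_of_pow_lt_pow_left₀ 2 hC0.le h4
  have h5 : C - B ≤ t - s := by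
    have h6 : (C - B) * (C + B) = (t - s) * (t + s) := by
      linear_combination hC - hB
    by_contra h7
    push Not at h7
    have h8 : (t - s) * (t + s) < (C - B) * (C + B) :=
      mul_lt_mul h7 (by linarith) (by linarith) (by linarith)
    linarith
  have h9 : (C - B) ^ 2 ≤ (t - s) ^ 2 := pow_le_pow_left₀ (by linarith) h5 2
  linarith

/-- common consequences: `σ < 3 A^2`, `σ t < 6 A^3`. -/
theorem sigma_lt {r s t e A B C : ℤ} (hr : 0 < r) (hrs : r < s) (hst : s < t) (he : 0 ≤ e)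
    (hA : A ^ 2 = r ^ 2 + e) (hB : B ^ 2 = s ^ 2 + e) (hC : C ^ 2 = t ^ 2 + e)
    (hA0 : 0 < A) (hB0 : 0 < B) (hC0 : 0 < C) (hrel : A * (B + C) = B * C) :
    s ^ 2 - r ^ 2 < 3 * A ^ 2 ∧ (s ^ 2 - r ^ 2) * t < 6 * A ^ 3 := by
  have hs : 0 < s := hr.trans hrs
  have ht : 0 < t := hs.trans hst
  have hAB : A < B := by
    have h4 : A ^ 2 < B ^ 2 := by
      rw [hA, hB]
      have : r ^ 2 < s ^ 2 := pow_lt_pow_left₀ hrs hr.le two_ne_zero
      linarith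
    exact lt_of_pow_lt_pow_left₀ 2 hB0.le h4
  have hBC : B < C := by
    have h4 : B ^ 2 < C ^ 2 := by
      rw [hB, hC]
      have : s ^ 2 < t ^ 2 := pow_lt_pow_left₀ hst hs.le two_ne_zero
      linarith
    exact lt_of_pow_lt_pow_left₀ 2 hC0.le h4
  have hCt : t ≤ C := by
    have h4 : t ^ 2 ≤ C ^ 2 := by linarith
    exact le_of_sq_le_sq h4 hC0.le
  have hB2 : B < 2 * A := by
    have h5 : C * B < C * (2 * A) := by
      have : A * (B + C) < A * (C + C) := by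
        apply mul_lt_mul_of_pos_left _ hA0
        linarith
      linarith
    exact lt_of_mul_lt_mul_left h5 hC0.le
  have hσ : s ^ 2 - r ^ 2 = B ^ 2 - A ^ 2 := by rw [hA, hB]; ring
  constructor
  · rw [hσ]
    have : B ^ 2 < (2 * A) ^ 2 := pow_lt_pow_left₀ hB2 hB0.le two_ne_zero
    linarith
  · have h6 : (s ^ 2 - r ^ 2) * C = A * B * (A + B) := by
      rw [hσ]
      linear_combination (-(A + B)) * hrel
    have h7 : A * B * (A + B) < A * (2 * A) * (A + 2 * A) := by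
      apply mul_lt_mul
      · exact mul_lt_mul_of_pos_left hB2 hA0
      · linarith
      · linarith
      · positivity
    have h8 : 0 ≤ s ^ 2 - r ^ 2 := by
      have : r ^ 2 < s ^ 2 := pow_lt_pow_left₀ hrs hr.le two_ne_zero
      linarith
    have h9 : (s ^ 2 - r ^ 2) * t ≤ (s ^ 2 - r ^ 2) * C := mul_le_mul_of_nonneg_left hCt h8
    have e : A * (2 * A) * (A + 2 * A) = 6 * A ^ 3 := by ring
    linarith

/-- The close estimate. -/
theorem close_est {r s t A δ D : ℤ} (hr : 0 < r) (hs : 0 < s) (hst : s < t) (hA0 : 0 < A)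
    (hδ : r < δ) (hlow : 4 * (s * t) - 4 * r ^ 2 - (t - s) ^ 2 ≤ 12 * A ^ 2)
    (hρ : r * s * t = δ * (δ ^ 2 + 3 * D ^ 2)) (hD : D ^ 2 = δ ^ 2 + (A ^ 2 - r ^ 2))
    (hAδ : 8 * A < δ ^ 2 - r ^ 2) (hσ : 0 ≤ s ^ 2 - r ^ 2) (hσA : s ^ 2 - r ^ 2 < 3 * A ^ 2) :
    256 * (s ^ 2 - r ^ 2) ^ 5 < 3 * r ^ 4 * (s * t) ^ 2 * ((t - s) ^ 2) ^ 2 := by
  have ht : 0 < t := hs.trans hst
  have hδ0 : 0 < δ := hr.trans hδ
  set q := s * t with hq
  set τ := (t - s) ^ 2 with hτ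
  have hq0 : 0 < q := by positivity
  have hτ0 : 0 < τ := by
    have : 0 < t - s := by linarith
    positivity
  have hδr : 0 < δ ^ 2 - r ^ 2 := by
    have : r ^ 2 < δ ^ 2 := pow_lt_pow_left₀ hδ hr.le two_ne_zero
    linarith
  have hρ' : r * q = δ * (4 * δ ^ 2 - 3 * r ^ 2 + 3 * A ^ 2) := by
    rw [hD] at hρ
    rw [hq]
    linear_combination hρ
  -- 4 q (δ - r) ≤ δ τ
  have h1 : 4 * q * (δ - r) ≤ δ * τ := by
    have h2 : δ * (16 * (δ ^ 2 - r ^ 2) + 4 * q - τ) ≤ 4 * (r * q) := by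
      have : 4 * (r * q) = δ * (16 * δ ^ 2 - 12 * r ^ 2 + 12 * A ^ 2) := by rw [hρ']; ring
      rw [this]
      apply mul_le_mul_of_nonneg_left _ hδ0.le
      linarith
    have h3 : 0 ≤ δ * (16 * (δ ^ 2 - r ^ 2)) := by positivity
    nlinarith
  -- 16 q A < δ^2 τ
  have h2 : 16 * q * A < δ ^ 2 * τ := by
    have h3 : 4 * q * (δ - r) * (δ + r) ≤ δ * τ * (δ + r) :=
      mul_le_mul_of_nonneg_right h1 (by linarith)
    have h4 : δ * τ * (δ + r) ≤ δ * τ * (δ + δ) := by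
      apply mul_le_mul_of_nonneg_left _ (by positivity)
      linarith
    have h5 : 4 * q * (8 * A) < 4 * q * (δ ^ 2 - r ^ 2) :=
      mul_lt_mul_of_pos_left hAδ (by positivity)
    nlinarith
  -- 3 A^2 δ < r q
  have h3 : 3 * A ^ 2 * δ < r * q := by
    rw [hρ']
    have : 0 < 4 * δ ^ 2 - 3 * r ^ 2 := by nlinarith
    nlinarith [mul_pos hδ0 this]
  have h4 : (3 * A ^ 2 * δ) ^ 2 < (r * q) ^ 2 :=
    pow_lt_pow_left₀ h3 (by positivity) two_ne_zero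
  -- 144 A^5 < r^2 q τ
  have h5 : 144 * A ^ 5 < r ^ 2 * q * τ := by
    have h6 : q * (144 * A ^ 5) < q * (r ^ 2 * q * τ) := by
      calc q * (144 * A ^ 5) = (16 * q * A) * (9 * A ^ 4) := by ring
        _ < (δ ^ 2 * τ) * (9 * A ^ 4) := mul_lt_mul_of_pos_right h2 (by positivity)
        _ = (3 * A ^ 2 * δ) ^ 2 * τ := by ring
        _ < (r * q) ^ 2 * τ := mul_lt_mul_of_pos_right h4 hτ0
        _ = q * (r ^ 2 * q * τ) := by ring
    exact lt_of_mul_lt_mul_left h6 hq0.le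
  have h6 : (144 * A ^ 5) ^ 2 < (r ^ 2 * q * τ) ^ 2 :=
    pow_lt_pow_left₀ h5 (by positivity) two_ne_zero
  have h7 : (s ^ 2 - r ^ 2) ^ 5 < (3 * A ^ 2) ^ 5 :=
    pow_lt_pow_left₀ hσA hσ (by norm_num)
  have e7 : (3 * A ^ 2) ^ 5 = 243 * A ^ 10 := by ring
  have e6 : (144 * A ^ 5) ^ 2 = 20736 * A ^ 10 := by ring
  have e8 : (r ^ 2 * q * τ) ^ 2 = r ^ 4 * q ^ 2 * τ ^ 2 := by ring
  rw [e6, e8] at h6
  rw [e7] at h7
  have e9 : 3 * r ^ 4 * q ^ 2 * τ ^ 2 = 3 * (r ^ 4 * q ^ 2 * τ ^ 2) := by ring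
  rw [e9]
  linarith

/-- The far estimate. -/
theorem far_est {r s t A δ D : ℤ} (hr : 0 < r) (hs : 0 < s) (ht : 0 < t) (hA0 : 0 < A)
    (hδ : r < δ)
    (hρ : r * s * t = δ * (δ ^ 2 + 3 * D ^ 2)) (hD : D ^ 2 = δ ^ 2 + (A ^ 2 - r ^ 2))
    (hAδ : 24 * A < δ ^ 2 - r ^ 2) (hσ : 0 < s ^ 2 - r ^ 2)
    (hσA : (s ^ 2 - r ^ 2) * t < 6 * A ^ 3) :
    1679616 * (s ^ 2 - r ^ 2) ^ 10 < (r ^ 2) ^ 6 * (s ^ 2) ^ 6 * t ^ 2 := by
  have hδ0 : 0 < δ := hr.trans hδ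
  set q := s * t with hq
  have hq0 : 0 < q := by positivity
  have hρ' : r * q = δ * (4 * δ ^ 2 - 3 * r ^ 2 + 3 * A ^ 2) := by
    rw [hD] at hρ
    rw [hq]
    linear_combination hρ
  have hδr : r ^ 2 < δ ^ 2 := pow_lt_pow_left₀ hδ hr.le two_ne_zero
  have h3 : 3 * A ^ 2 * δ < r * q := by
    rw [hρ']
    have : 0 < 4 * δ ^ 2 - 3 * r ^ 2 := by nlinarith
    nlinarith [mul_pos hδ0 this]
  have h4 : (3 * A ^ 2 * δ) ^ 2 < (r * q) ^ 2 :=
    pow_lt_pow_left₀ h3 (by positivity) two_ne_zero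
  have h5 : 216 * A ^ 5 < (r * q) ^ 2 := by
    have h24 : 24 * A < δ ^ 2 := by
      have : 0 < r ^ 2 := by positivity
      linarith
    calc 216 * A ^ 5 = (24 * A) * (9 * A ^ 4) := by ring
      _ < δ ^ 2 * (9 * A ^ 4) := mul_lt_mul_of_pos_right h24 (by positivity)
      _ = (3 * A ^ 2 * δ) ^ 2 := by ring
      _ < (r * q) ^ 2 := h4
  set σ := s ^ 2 - r ^ 2 with hσd
  have h6 : (σ * t) ^ 5 < (6 * A ^ 3) ^ 5 :=
    pow_lt_pow_left₀ hσA (by positivity) (by norm_num)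
  have h7 : (216 * A ^ 5) ^ 3 < ((r * q) ^ 2) ^ 3 :=
    pow_lt_pow_left₀ h5 (by positivity) (by norm_num)
  have e6 : (6 * A ^ 3) ^ 5 = 7776 * A ^ 15 := by ring
  have e7 : (216 * A ^ 5) ^ 3 = 10077696 * A ^ 15 := by ring
  rw [e6] at h6
  rw [e7] at h7
  have h8 : 1296 * (σ * t) ^ 5 < ((r * q) ^ 2) ^ 3 := by
    have h9 : 1296 * (σ * t) ^ 5 < 1296 * (7776 * A ^ 15) := by linarith
    have h10 : 1296 * (7776 * A ^ 15) = 10077696 * A ^ 15 := by ring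
    linarith
  have h9 : 1296 * σ ^ 5 < r ^ 6 * s ^ 6 * t := by
    have h10 : t ^ 5 * (1296 * σ ^ 5) < t ^ 5 * (r ^ 6 * s ^ 6 * t) := by
      calc t ^ 5 * (1296 * σ ^ 5) = 1296 * (σ * t) ^ 5 := by ring
        _ < ((r * q) ^ 2) ^ 3 := h8
        _ = t ^ 5 * (r ^ 6 * s ^ 6 * t) := by rw [hq]; ring
    exact lt_of_mul_lt_mul_left h10 (by positivity)
  have h10 : (1296 * σ ^ 5) ^ 2 < (r ^ 6 * s ^ 6 * t) ^ 2 :=
    pow_lt_pow_left₀ h9 (by positivity) two_ne_zero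
  calc 1679616 * σ ^ 10 = (1296 * σ ^ 5) ^ 2 := by ring
    _ < (r ^ 6 * s ^ 6 * t) ^ 2 := h10
    _ = (r ^ 2) ^ 6 * (s ^ 2) ^ 6 * t ^ 2 := by ring

end Pool.Agent.Work.MP_71a505_nt
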