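import Mathlib
import Pool.Agent.Work.MP_71a505_nt.Close

namespace Pool.Agent.Work.MP_71a505_nt

/-- an exceptional triple is not regular -/
theorem dm_pos_of_data {a b c r s t x l m : ℤ} (h : Sq3 a b c r s t) (ha : 0 < a) (hab : a < b)
    (hbc : b < c) (hD : Data a b c x l m) : 1 ≤ dm a b c r s t := by
  have hb : 0 < b := ha.trans hab
  have hd0 := dm_nonneg ha hb h
  rcases hd0.eq_or_lt with h0 | h0
  · exfalso
    have h1 := h.2.2.2.2.2.2.1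
    have hr := h.2.2.2.1
    rcases dm_zero h h0.symm with h5 | h5
    · exact core_int ha hb hr h1 h5 hD.1 hD.2.1 hD.2.2
    · have h6 : a < 2 * r := by nlinarith
      linarith
  · exact h0

theorem two_mul_r_le_s {a b c r s : ℤ} (ha : 0 < a) (hb : 0 < b) (hs : 0 < s)
    (h1 : a * b + 1 = r ^ 2) (h2 : a * c + 1 = s ^ 2) (hc : 4 * a * b + a + b + 1 < c) :
    2 * r ≤ s := by
  have h3 : (2 * r) ^ 2 ≤ s ^ 2 := by
    have e : (2 * r) ^ 2 = 4 * (a * b) + 4 := by rw [mul_pow, ← h1]; ring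
    rw [e, ← h2]
    have h4 : a * (4 * a * b + a + b + 2) ≤ a * c := mul_le_mul_of_nonneg_left (by linarith) ha.le
    have h5 : 0 < a * b := by positivity
    have h6 : a * b ≤ a * (a * b) := by nlinarith
    have h7 : 1 ≤ a := ha
    have h8 : 1 ≤ a * a := by nlinarith
    nlinarith
  exact le_of_sq_le_sq h3 hs.le

/-- `e > 0` -/
theorem e_pos {r s t e A B C : ℤ} (hrs : 2 * r ≤ s) (hst : s < t) (hr : 0 < r)
    (hA : A ^ 2 = r ^ 2 + e) (hB : B ^ 2 = s ^ 2 + e) (hC : C ^ 2 = t ^ 2 + e)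
    (hA0 : 0 < A) (hB0 : 0 < B) (hC0 : 0 < C) (hrel : A * (B + C) = B * C) : 0 < e := by
  have hs : 0 < s := by linarith
  have hBC : B < C := by
    have h4 : B ^ 2 < C ^ 2 := by
      rw [hB, hC]
      have : s ^ 2 < t ^ 2 := pow_lt_pow_left₀ hst hs.le two_ne_zero
      linarith
    exact lt_of_pow_lt_pow_left₀ 2 hC0.le h4
  have hB2 : B < 2 * A := by
    have h5 : C * B < C * (2 * A) := by
      have : A * (B + C) < A * (C + C) := by
        apply mul_lt_mul_of_pos_left _ hA0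
        linarith
      linarith
    exact lt_of_mul_lt_mul_left h5 hC0.le
  have h6 : B ^ 2 < (2 * A) ^ 2 := pow_lt_pow_left₀ hB2 hB0.le two_ne_zero
  have h7 : (2 * r) ^ 2 ≤ s ^ 2 := pow_le_pow_left₀ (by linarith) hrs 2
  nlinarith

/-- sign of `l m` when `b ≥ 4a` -/
theorem lm_nonneg {a b c r s t x l m A B C : ℤ} (h : Sq3 a b c r s t) (ha : 0 < a)
    (hab : 4 * a ≤ b) (hbc : b < c) (hD : Data a b c x l m) (hrs : r < s)
    (hx : 0 < x - 1)
    (hA : A ^ 2 = r ^ 2 + (x - 1)) (hB : B ^ 2 = s ^ 2 + (x - 1)) (hC : C ^ 2 = t ^ 2 + (x - 1))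
    (hA0 : 0 < A) (hB0 : 0 < B) (hC0 : 0 < C) (hrel : A * (B + C) = B * C) : 0 ≤ l * m := by
  obtain ⟨-, -, -, hr, hs, ht, h1, h2, h3⟩ := h
  by_contra hneg
  push Not at hneg
  have hb : 0 < b := by linarith
  have hc : 0 < c := by linarith
  have hx0 : 0 < x := by linarith
  have h4 : (a * b * c) * (a + b + c) < 3 * x ^ 2 := by
    have := hD.2.1
    linarith
  have hAB : A < B := by
    have h4 : A ^ 2 < B ^ 2 := by
      rw [hA, hB]
      have : r ^ 2 < s ^ 2 := pow_lt_pow_left₀ hrs hr.le two_ne_zero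
      linarith
    exact lt_of_pow_lt_pow_left₀ 2 hB0.le h4
  have hσ : B ^ 2 - A ^ 2 = a * (c - b) := by
    rw [hA, hB, ← h1, ← h2]; ring
  -- 2 A^3 < σ C
  have h5 : 2 * A ^ 3 < a * (c - b) * C := by
    have e1 : a * (c - b) * C = A * B * (A + B) := by
      rw [← hσ]; linear_combination (-(A + B)) * hrel
    rw [e1]
    have : A * A * (A + A) < A * B * (A + B) := by
      apply mul_lt_mul
      · exact mul_lt_mul_of_pos_left hAB hA0
      · linarith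
      · linarith
      · positivity
    linarith [this, show A * A * (A + A) = 2 * A ^ 3 by ring]
  have h6 : a * (c - b) * C < a * c * C := by
    apply mul_lt_mul_of_pos_right _ hC0
    apply mul_lt_mul_of_pos_left _ ha
    linarith
  have h7 : (2 * A ^ 3) ^ 2 < (a * c * C) ^ 2 :=
    pow_lt_pow_left₀ (h5.trans h6) (by positivity) two_ne_zero
  have hC2 : C ^ 2 = b * c + x := by rw [hC, ← h3]; ring
  have hA2 : x < A ^ 2 := by
    rw [hA, ← h1]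
    have : 0 < a * b := by positivity
    linarith
  have h8 : 4 * x ^ 3 < a ^ 2 * c ^ 2 * (b * c + x) := by
    have e1 : (a * c * C) ^ 2 = a ^ 2 * c ^ 2 * (b * c + x) := by
      rw [mul_pow, hC2]; ring
    have e2 : (2 * A ^ 3) ^ 2 = 4 * (A ^ 2) ^ 3 := by ring
    have h9 : x ^ 3 < (A ^ 2) ^ 3 := pow_lt_pow_left₀ hA2 hx0.le (by norm_num)
    rw [e1, e2] at h7
    linarith
  have h9 : a * b * c ^ 2 < 3 * x ^ 2 := by
    have : a * b * c ^ 2 ≤ (a * b * c) * (a + b + c) := by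
      have : 0 < a * b * c * (a + b) := by positivity
      nlinarith
    linarith
  -- 4 a^2 c^2 x < 3 x^3
  have h10 : 4 * (a ^ 2 * c ^ 2 * x) < 3 * x ^ 3 := by
    have h11 : (a * x) * (a * b * c ^ 2) < (a * x) * (3 * x ^ 2) :=
      mul_lt_mul_of_pos_left h9 (by positivity)
    have h12 : (4 * a) * (a ^ 2 * c ^ 2 * x) ≤ b * (a ^ 2 * c ^ 2 * x) :=
      mul_le_mul_of_nonneg_right hab (by positivity)
    have h13 : a * (4 * (a ^ 2 * c ^ 2 * x)) < a * (3 * x ^ 3) := by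
      calc a * (4 * (a ^ 2 * c ^ 2 * x)) = (4 * a) * (a ^ 2 * c ^ 2 * x) := by ring
        _ ≤ b * (a ^ 2 * c ^ 2 * x) := h12
        _ = (a * x) * (a * b * c ^ 2) := by ring
        _ < (a * x) * (3 * x ^ 2) := h11
        _ = a * (3 * x ^ 3) := by ring
    exact lt_of_mul_lt_mul_left h13 ha.le
  have h11 : 13 * x ^ 3 < 4 * (a ^ 2 * b * c ^ 3) := by
    have e : a ^ 2 * c ^ 2 * (b * c + x) = a ^ 2 * b * c ^ 3 + a ^ 2 * c ^ 2 * x := by ring
    rw [e] at h8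
    linarith
  have h12 : (13 * x ^ 3) ^ 2 < (4 * (a ^ 2 * b * c ^ 3)) ^ 2 :=
    pow_lt_pow_left₀ h11 (by positivity) two_ne_zero
  have h13 : (a * b * c ^ 2) ^ 3 < (3 * x ^ 2) ^ 3 :=
    pow_lt_pow_left₀ h9 (by positivity) (by norm_num)
  have h14 : (a ^ 3 * b ^ 2 * c ^ 6) * (169 * b) < (a ^ 3 * b ^ 2 * c ^ 6) * (432 * a) := by
    have e1 : (13 * x ^ 3) ^ 2 = 169 * x ^ 6 := by ring
    have e2 : (4 * (a ^ 2 * b * c ^ 3)) ^ 2 = 16 * (a ^ 4 * b ^ 2 * c ^ 6) := by ring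
    have e3 : (3 * x ^ 2) ^ 3 = 27 * x ^ 6 := by ring
    have e4 : (a * b * c ^ 2) ^ 3 = a ^ 3 * b ^ 3 * c ^ 6 := by ring
    rw [e1, e2] at h12
    rw [e3, e4] at h13
    calc (a ^ 3 * b ^ 2 * c ^ 6) * (169 * b) = 169 * (a ^ 3 * b ^ 3 * c ^ 6) := by ring
      _ < 27 * (16 * (a ^ 4 * b ^ 2 * c ^ 6)) := by linarith
      _ = (a ^ 3 * b ^ 2 * c ^ 6) * (432 * a) := by ring
  have h15 : 169 * b < 432 * a := lt_of_mul_lt_mul_left h14 (by positivity)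
  linarith

theorem dec3c' : ∀ α β γ D δ : ZMod 3, (β ^ 2 = α ^ 2 ∧ γ ^ 2 = α ^ 2 ∧
    α * β + β * γ + γ * α = 0 ∧ δ ≠ 0 ∧ D ^ 2 = δ ^ 2 + (α ^ 2 - 1) ∧
    (D - α) * (D - β) * (D - γ) = δ ^ 2 * (-(α + β + γ))) → D = α := by decide

theorem dec3c {x α β γ D δ : ZMod 3} (h1 : α ^ 2 = x) (h2 : β ^ 2 = x) (h3 : γ ^ 2 = x)
    (h4 : α * β + β * γ + γ * α = 0) (h5 : δ ≠ 0) (h6 : D ^ 2 = δ ^ 2 + (x - 1))
    (h7 : (D - α) * (D - β) * (D - γ) = δ ^ 2 * (-(α + β + γ))) : D = α := by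
  subst h1
  exact dec3c' α β γ D δ ⟨h2, h3, h4, h5, h6, h7⟩

theorem three_dvd {a b c r s t x l m α β γ δ D : ℤ} (h1 : a * b + 1 = r ^ 2)
    (h2 : a * c + 1 = s ^ 2) (h3 : b * c + 1 = t ^ 2)
    (g1 : (3 : ℤ) ∣ a * b) (g2 : (3 : ℤ) ∣ a * c) (g3 : (3 : ℤ) ∣ b * c)
    (ha : α ^ 2 = x + a * b) (hb : β ^ 2 = x + a * c) (hc : γ ^ 2 = x + b * c)
    (hs : α * β + β * γ + γ * α = 0) (hl : l = -(α + β + γ)) (hy : α * β * γ = m + l * x)
    (hρ : r * s * t = δ * (δ ^ 2 + 3 * D ^ 2)) (hw : l + m = D * (D ^ 2 + 3 * δ ^ 2))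
    (hD : D ^ 2 = δ ^ 2 + (x - 1)) : (3 : ℤ) ∣ D - α := by
  have hI : (D - α) * (D - β) * (D - γ) = δ ^ 2 * (l - 3 * D) := by
    have e : (D - α) * (D - β) * (D - γ)
        = D ^ 3 + (-(α + β + γ)) * D ^ 2 + (α * β + β * γ + γ * α) * D - α * β * γ := by ring
    rw [e, hs, ← hl, hy]
    have e2 : m = D * (D ^ 2 + 3 * δ ^ 2) - l := by linarith
    rw [e2]
    linear_combination l * hD
  -- δ is prime to 3
  have hδ : ¬ (3 : ℤ) ∣ δ := by
    intro hδ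
    have h4 : (3 : ℤ) ∣ r * s * t := by rw [hρ]; exact Dvd.dvd.mul_right hδ _
    have nd : ∀ y z : ℤ, (3 : ℤ) ∣ y → y + 1 = z ^ 2 → ¬ (3 : ℤ) ∣ z := by
      intro y z hy hz hz3
      have : (3 : ℤ) ∣ z ^ 2 := dvd_pow hz3 two_ne_zero
      rw [← hz] at this
      have := (dvd_add_right hy).1 this
      norm_num at this
    rcases Int.prime_three.dvd_or_dvd h4 with h5 | h5
    · rcases Int.prime_three.dvd_or_dvd h5 with h6 | h6
      · exact nd _ _ g1 h1 h6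
      · exact nd _ _ g2 h2 h6
    · exact nd _ _ g3 h3 h5
  have z1 : ((a * b : ℤ) : ZMod 3) = 0 := (ZMod.intCast_zmod_eq_zero_iff_dvd _ 3).2 g1
  have z2 : ((a * c : ℤ) : ZMod 3) = 0 := (ZMod.intCast_zmod_eq_zero_iff_dvd _ 3).2 g2
  have z3 : ((b * c : ℤ) : ZMod 3) = 0 := (ZMod.intCast_zmod_eq_zero_iff_dvd _ 3).2 g3
  have z4 : (δ : ZMod 3) ≠ 0 := by
    intro h0
    exact hδ ((ZMod.intCast_zmod_eq_zero_iff_dvd _ 3).1 h0)
  have c4 := congrArg (Int.cast : ℤ → ZMod 3) ha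
  have c5 := congrArg (Int.cast : ℤ → ZMod 3) hb
  have c6 := congrArg (Int.cast : ℤ → ZMod 3) hc
  have c7 := congrArg (Int.cast : ℤ → ZMod 3) hs
  have c8 := congrArg (Int.cast : ℤ → ZMod 3) hD
  have c9 := congrArg (Int.cast : ℤ → ZMod 3) hI
  have c10 := congrArg (Int.cast : ℤ → ZMod 3) hl
  push_cast at z1 z2 z3 c4 c5 c6 c7 c8 c9 c10
  rw [z1, add_zero] at c4
  rw [z2, add_zero] at c5
  rw [z3, add_zero] at c6
  have h30 : (3 : ZMod 3) = 0 := by decide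
  rw [h30, zero_mul, sub_zero, c10] at c9
  have := dec3c c4 c5 c6 c7 z4 c8 c9
  apply (ZMod.intCast_zmod_eq_zero_iff_dvd _ 3).1
  push_cast
  rw [this, sub_self]

end Pool.Agent.Work.MP_71a505_nt
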