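import Mathlib
import Pool.Agent.Work.MP_71a505_nt.Assemble

namespace Pool.Agent.Work.MP_71a505_nt

/-- `d ≠ a` and `d ≠ b` -/
theorem ne_of_sq {a d u : ℤ} (ha : 0 < a) (hu : 0 < u) (h : a * d + 1 = u ^ 2) : a ≠ d := by
  intro e
  rw [← e] at h
  exact no_sq ha hu h

/-- classification of `d` : the case `d > b` -/
theorem d_gt_case {a b d r u v : ℤ} (h : Sq3 a b d r u v) (ha : 0 < a) (hb : 0 < b)
    (hab : a < b) (hbd : b < d) : a + b + 2 * r ≤ d := by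
  have hd0 := dm_nonneg ha hb h
  have hprod := dm_prod h
  obtain ⟨-, -, hd, hr, hu, hv, h1, h2, h3⟩ := h
  have hpos : 0 ≤ dm a b d r u v * (a + b + d + 2 * a * b * d + 2 * r * u * v) := by
    apply mul_nonneg hd0
    positivity
  rw [hprod, h1] at hpos
  -- (d - a - b)^2 ≥ (2r)^2
  have har : a < r := by nlinarith
  by_contra hh
  push Not at hh
  have h5 : -(2 * r) < d - a - b := by linarith
  have h6 : d - a - b < 2 * r := by linarith
  have h7 : (d - a - b) ^ 2 < (2 * r) ^ 2 := sq_lt_sq' h5 h6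
  nlinarith

/-- the case `d < b` -/
theorem d_lt_case {a b d r u v : ℤ} (h : Sq3 a b d r u v) (ha : 0 < a) (hd : 0 < d)
    (hab : a < b) (hdb : d < b) :
    d = a + b - 2 * r ∨ ∃ d' w : ℤ, 1 ≤ d' ∧ 0 < w ∧ d * d' + 1 = w ^ 2 ∧ 4 * a * d * d' < b := by
  have hb : 0 < b := ha.trans hab
  have h' := h
  obtain ⟨-, -, -, hr, hu, hv, h1, h2, h3⟩ := h'
  have hs : Sq3 a d b u r v := ⟨ha.le, hd.le, hb.le, hu, hr, hv, h2, h1, by rw [← h3]; ring⟩
  have hsym : dm a d b u r v = dm a b d r u v := by unfold dm; ring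
  have hd0 := dm_nonneg ha hd hs
  rcases hd0.eq_or_lt with h0 | h0
  · left
    rw [hsym] at h0
    rcases dm_zero h h0.symm with h5 | h5
    · linarith
    · exact h5
  · right
    have hlt := (dm_lt ha hd hab hdb hs).1
    have hs' := Sq3_dm ha hd hs
    exact ⟨dm a d b u r v, _, h0, hs'.2.2.2.2.2.1, hs'.2.2.2.2.2.2.2.2, hlt⟩

/-- numerical form of the close estimate -/
theorem close_num {a b c r s t : ℤ} (h : Sq3 a b c r s t) (ha : 0 < a) (hab : a < b)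
    (hbc : b < c) (g1 : 24 ≤ a * b) (g2 : 24 ≤ a * c) (g3 : 24 ≤ b * c)
    (hest : 256 * (s ^ 2 - r ^ 2) ^ 5 < 3 * r ^ 4 * (s * t) ^ 2 * ((t - s) ^ 2) ^ 2) :
    1159 * (a ^ 4 * (c - b) ^ 5) < b ^ 3 * c ^ 4 * (b - a) ^ 4 := by
  obtain ⟨-, -, -, hr, hs, ht, h1, h2, h3⟩ := h
  have hb : 0 < b := ha.trans hab
  have hc : 0 < c := hb.trans hbc
  have hst : s < t := by
    have : s ^ 2 < t ^ 2 := by
      rw [← h2, ← h3]
      have := mul_lt_mul_of_pos_right hab hc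
      linarith
    exact lt_of_pow_lt_pow_left₀ 2 ht.le this
  have hσ : s ^ 2 - r ^ 2 = a * (c - b) := by rw [← h1, ← h2]; ring
  set τ := (t - s) ^ 2 with hτ
  have hτ0 : 0 < τ := by
    have : 0 < t - s := by linarith
    positivity
  -- 4 a τ < (b-a)^2 c
  have h4 : 4 * a * τ < (b - a) ^ 2 * c := by
    have e1 : τ * (t + s) ^ 2 = ((b - a) * c) ^ 2 := by
      have : (t - s) * (t + s) = (b - a) * c := by linear_combination h2 - h3
      rw [hτ, ← this]; ring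
    have h5 : 4 * (a * c) < (t + s) ^ 2 := by
      have h6 : 4 * s ^ 2 < (t + s) ^ 2 := by
        have : (2 * s) ^ 2 < (t + s) ^ 2 := pow_lt_pow_left₀ (by linarith) (by linarith) two_ne_zero
        linarith [this, show (2 * s) ^ 2 = 4 * s ^ 2 by ring]
      rw [← h2] at h6
      linarith
    have h6 : c * (4 * a * τ) < c * ((b - a) ^ 2 * c) := by
      calc c * (4 * a * τ) = τ * (4 * (a * c)) := by ring
        _ < τ * (t + s) ^ 2 := mul_lt_mul_of_pos_left h5 hτ0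
        _ = ((b - a) * c) ^ 2 := e1
        _ = c * ((b - a) ^ 2 * c) := by ring
    exact lt_of_mul_lt_mul_left h6 hc.le
  have h5 : (4 * a * τ) ^ 2 < ((b - a) ^ 2 * c) ^ 2 :=
    pow_lt_pow_left₀ h4 (by positivity) two_ne_zero
  -- main inequality
  have hr4 : r ^ 4 = (a * b + 1) ^ 2 := by rw [h1]; ring
  have hq2 : (s * t) ^ 2 = (a * c + 1) * (b * c + 1) := by rw [mul_pow, ← h2, ← h3]
  have h6 : 4096 * a ^ 7 * (c - b) ^ 5
      < 3 * (a * b + 1) ^ 2 * ((a * c + 1) * (b * c + 1)) * ((b - a) ^ 2 * c) ^ 2 := by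
    rw [hσ, hr4, hq2] at hest
    have h7 : 16 * a ^ 2 * (256 * (a * (c - b)) ^ 5)
        < 16 * a ^ 2 * (3 * (a * b + 1) ^ 2 * ((a * c + 1) * (b * c + 1)) * τ ^ 2) :=
      mul_lt_mul_of_pos_left hest (by positivity)
    have h8 : 3 * (a * b + 1) ^ 2 * ((a * c + 1) * (b * c + 1)) * (4 * a * τ) ^ 2
        ≤ 3 * (a * b + 1) ^ 2 * ((a * c + 1) * (b * c + 1)) * ((b - a) ^ 2 * c) ^ 2 :=
      mul_le_mul_of_nonneg_left h5.le (by positivity)
    calc 4096 * a ^ 7 * (c - b) ^ 5 = 16 * a ^ 2 * (256 * (a * (c - b)) ^ 5) := by ring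
      _ < 16 * a ^ 2 * (3 * (a * b + 1) ^ 2 * ((a * c + 1) * (b * c + 1)) * τ ^ 2) := h7
      _ = 3 * (a * b + 1) ^ 2 * ((a * c + 1) * (b * c + 1)) * (4 * a * τ) ^ 2 := by ring
      _ ≤ _ := h8
  -- replace the factors
  have k1 : 24 * (a * b + 1) ≤ 25 * (a * b) := by linarith
  have k2 : 24 * (a * c + 1) ≤ 25 * (a * c) := by linarith
  have k3 : 24 * (b * c + 1) ≤ 25 * (b * c) := by linarith
  have k4 : (24 * (a * b + 1)) ^ 2 ≤ (25 * (a * b)) ^ 2 := pow_le_pow_left₀ (by positivity) k1 2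
  have k5 : (24 * (a * c + 1)) * (24 * (b * c + 1)) ≤ (25 * (a * c)) * (25 * (b * c)) :=
    mul_le_mul k2 k3 (by positivity) (by positivity)
  have k6 : (24 * (a * b + 1)) ^ 2 * ((24 * (a * c + 1)) * (24 * (b * c + 1)))
      ≤ (25 * (a * b)) ^ 2 * ((25 * (a * c)) * (25 * (b * c))) :=
    mul_le_mul k4 k5 (by positivity) (by positivity)
  have k7 : 331776 * (3 * (a * b + 1) ^ 2 * ((a * c + 1) * (b * c + 1)) * ((b - a) ^ 2 * c) ^ 2)
      ≤ 1171875 * (a ^ 3 * b ^ 3 * c ^ 4 * (b - a) ^ 4) := by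
    have : 3 * ((b - a) ^ 2 * c) ^ 2 * ((24 * (a * b + 1)) ^ 2
          * ((24 * (a * c + 1)) * (24 * (b * c + 1))))
        ≤ 3 * ((b - a) ^ 2 * c) ^ 2 * ((25 * (a * b)) ^ 2 * ((25 * (a * c)) * (25 * (b * c)))) :=
      mul_le_mul_of_nonneg_left k6 (by positivity)
    calc _ = 3 * ((b - a) ^ 2 * c) ^ 2 * ((24 * (a * b + 1)) ^ 2
          * ((24 * (a * c + 1)) * (24 * (b * c + 1)))) := by ring
      _ ≤ _ := this
      _ = _ := by ring
  have k8 : a ^ 3 * (1358954496 * (a ^ 4 * (c - b) ^ 5))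
      < a ^ 3 * (1171875 * (b ^ 3 * c ^ 4 * (b - a) ^ 4)) := by
    calc a ^ 3 * (1358954496 * (a ^ 4 * (c - b) ^ 5))
        = 331776 * (4096 * a ^ 7 * (c - b) ^ 5) := by ring
      _ < 331776 * (3 * (a * b + 1) ^ 2 * ((a * c + 1) * (b * c + 1)) * ((b - a) ^ 2 * c) ^ 2) := by
          linarith
      _ ≤ 1171875 * (a ^ 3 * b ^ 3 * c ^ 4 * (b - a) ^ 4) := k7
      _ = a ^ 3 * (1171875 * (b ^ 3 * c ^ 4 * (b - a) ^ 4)) := by ring
  have k9 : 1358954496 * (a ^ 4 * (c - b) ^ 5) < 1171875 * (b ^ 3 * c ^ 4 * (b - a) ^ 4) :=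
    lt_of_mul_lt_mul_left k8 (by positivity)
  have k10 : 0 ≤ a ^ 4 * (c - b) ^ 5 := by
    have : 0 ≤ c - b := by linarith
    positivity
  linarith

end Pool.Agent.Work.MP_71a505_nt
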