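import Mathlib
import Pool.Agent.Work.MP_71a505_nt.Numeric

namespace Pool.Agent.Work.MP_71a505_nt

theorem c_lower {a b c d : ℤ} (ha : 0 < a) (hb : 0 < b) (hd : 1 ≤ d)
    (hlt : 4 * a * b * d + a + b + d < c) : 4 * a * b + a + b + 1 < c := by
  have h5 : 4 * a * b * 1 ≤ 4 * a * b * d := mul_le_mul_of_nonneg_left hd (by positivity)
  linarith

theorem s_lt_t {a b c s t : ℤ} (hab : a < b) (hc : 0 < c) (ht : 0 < t)
    (h2 : a * c + 1 = s ^ 2) (h3 : b * c + 1 = t ^ 2) : s < t := by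
  have : s ^ 2 < t ^ 2 := by
    rw [← h2, ← h3]
    have := mul_lt_mul_of_pos_right hab hc
    linarith
  exact lt_of_pow_lt_pow_left₀ 2 ht.le this

theorem sq_sub_pos {r s : ℤ} (hr : 0 < r) (hrs : r < s) : 0 < s ^ 2 - r ^ 2 := by
  have : r ^ 2 < s ^ 2 := pow_lt_pow_left₀ hrs hr.le two_ne_zero
  linarith

theorem gap4 {A D : ℤ} (hAD : A < D) (h : (4 : ℤ) ∣ D - A) : A + 4 ≤ D := by
  obtain ⟨k, hk⟩ := h
  have : 0 < k := by
    by_contra hh
    push Not at hh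
    linarith
  linarith

theorem gap12 {A D : ℤ} (hAD : A < D) (h : (12 : ℤ) ∣ D - A) : A + 12 ≤ D := by
  obtain ⟨k, hk⟩ := h
  have : 0 < k := by
    by_contra hh
    push Not at hh
    linarith
  linarith

theorem gapmul4 {A D x : ℤ} (hA : 0 < A) (h : A + 4 ≤ D) (hx : (D - A) * (D + A) = x) :
    8 * A < x := by
  have : 4 * (2 * A + 4) ≤ (D - A) * (D + A) := by
    apply mul_le_mul (by linarith) (by linarith) (by linarith) (by linarith)
  linarith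

theorem gapmul12 {A D x : ℤ} (hA : 0 < A) (h : A + 12 ≤ D) (hx : (D - A) * (D + A) = x) :
    24 * A < x := by
  have : 12 * (2 * A + 12) ≤ (D - A) * (D + A) := by
    apply mul_le_mul (by linarith) (by linarith) (by linarith) (by linarith)
  linarith

theorem a_ge3 {a b : ℤ} (ha : 0 < a) (hb : b < 4 * a) (g : 24 ≤ a * b) : 3 ≤ a := by
  by_contra hh
  push Not at hh
  have h1 : a ≤ 2 := by linarith
  have h2 : b ≤ 7 := by linarith
  have h3 : a * b ≤ a * 7 := mul_le_mul_of_nonneg_left h2 ha.le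
  linarith

theorem c_ge10b {a b c : ℤ} (ha : 3 ≤ a) (hb : 0 < b) (hc : 4 * a * b + a + b + 1 < c) :
    10 * b ≤ c := by
  have h1 : 3 * b ≤ a * b := mul_le_mul_of_nonneg_right ha hb.le
  have h2 : 4 * a * b = 4 * (a * b) := by ring
  linarith

/-- the main inequality when `c ≥ 10 b` -/
theorem main_ineq {a b c : ℤ} (ha : 0 < a) (hb : 0 < b) (hc : 0 < c)
    (hc10 : 10 * b ≤ c)
    (hnum : 1159 * (a ^ 4 * (c - b) ^ 5) < b ^ 3 * c ^ 4 * (b - a) ^ 4) :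
    684 * (a ^ 4 * c) < b ^ 3 * (b - a) ^ 4 := by
  have h9 : 9 * c ≤ 10 * (c - b) := by linarith
  have h95 : (9 * c) ^ 5 ≤ (10 * (c - b)) ^ 5 := pow_le_pow_left₀ (by positivity) h9 5
  have h96 : 59049 * c ^ 5 ≤ 100000 * (c - b) ^ 5 := by
    have e1 : (9 * c) ^ 5 = 59049 * c ^ 5 := by ring
    have e2 : (10 * (c - b)) ^ 5 = 100000 * (c - b) ^ 5 := by ring
    rw [e1, e2] at h95
    exact h95
  have h97 : a ^ 4 * (59049 * c ^ 5) ≤ a ^ 4 * (100000 * (c - b) ^ 5) :=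
    mul_le_mul_of_nonneg_left h96 (by positivity)
  have h98 : c ^ 4 * (68437791 * (a ^ 4 * c)) < c ^ 4 * (100000 * (b ^ 3 * (b - a) ^ 4)) := by
    calc c ^ 4 * (68437791 * (a ^ 4 * c)) = 1159 * (a ^ 4 * (59049 * c ^ 5)) := by ring
      _ ≤ 1159 * (a ^ 4 * (100000 * (c - b) ^ 5)) :=
          mul_le_mul_of_nonneg_left h97 (by norm_num)
      _ = 100000 * (1159 * (a ^ 4 * (c - b) ^ 5)) := by ring
      _ < 100000 * (b ^ 3 * c ^ 4 * (b - a) ^ 4) := mul_lt_mul_of_pos_left hnum (by norm_num)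
      _ = c ^ 4 * (100000 * (b ^ 3 * (b - a) ^ 4)) := by ring
  have h99 : 68437791 * (a ^ 4 * c) < 100000 * (b ^ 3 * (b - a) ^ 4) :=
    lt_of_mul_lt_mul_left h98 (by positivity)
  have h0 : 0 < a ^ 4 * c := by positivity
  linarith

/-- case `d > b` -/
theorem caseA1 {a b c d : ℤ} (ha : 0 < a) (hab : a < b) (h4 : b < 4 * a) (hbd : b < d)
    (hlt : 4 * a * b * d < c) (hmain : 684 * (a ^ 4 * c) < b ^ 3 * (b - a) ^ 4) : False := by
  have hb : 0 < b := ha.trans hab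
  have h7 : 4 * a * b * b < 4 * a * b * d := mul_lt_mul_of_pos_left hbd (by positivity)
  have h8 : b * (b * b) < 4 * a * (b * b) := mul_lt_mul_of_pos_right h4 (by positivity)
  have h6 : b ^ 3 < c := by
    calc b ^ 3 = b * (b * b) := by ring
      _ < 4 * a * (b * b) := h8
      _ = 4 * a * b * b := by ring
      _ < 4 * a * b * d := h7
      _ < c := hlt
  have hc : 0 < c := lt_trans (by positivity) h6
  have k7 : (b - a) ^ 4 < (3 * a) ^ 4 :=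
    pow_lt_pow_left₀ (by linarith) (by linarith) (by norm_num)
  have k8 : b ^ 3 * (b - a) ^ 4 < b ^ 3 * (3 * a) ^ 4 := mul_lt_mul_of_pos_left k7 (by positivity)
  have k9 : b ^ 3 * (3 * a) ^ 4 < c * (3 * a) ^ 4 := mul_lt_mul_of_pos_right h6 (by positivity)
  have k10 : c * (3 * a) ^ 4 = 81 * (a ^ 4 * c) := by ring
  have k11 : 0 < a ^ 4 * c := by positivity
  linarith

/-- case `d = a + b - 2 r` -/
theorem caseA2 {a b c d r : ℤ} (ha : 3 ≤ a) (hab : a < b) (h4 : b < 4 * a) (hd0 : 0 < d)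
    (hr : 0 < r) (h1 : a * b + 1 = r ^ 2) (hd : d = a + b - 2 * r)
    (hlt4 : 4 * a * b * d < c) (hmain : 684 * (a ^ 4 * c) < b ^ 3 * (b - a) ^ 4) : False := by
  have ha0 : 0 < a := by linarith
  have hb : 0 < b := ha0.trans hab
  have hr2a : r ≤ 2 * a := by
    have h5 : r ^ 2 ≤ (2 * a) ^ 2 := by
      rw [← h1]
      have h6 : a * b ≤ a * (4 * a - 1) := mul_le_mul_of_nonneg_left (by linarith) ha0.le
      have h7 : a * (4 * a - 1) + a = (2 * a) ^ 2 := by ring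
      linarith
    exact le_of_sq_le_sq h5 (by positivity)
  have hb2r : b < 2 * r := by
    have h5 : b ^ 2 < (2 * r) ^ 2 := by
      have e1 : (2 * r) ^ 2 = 4 * (a * b) + 4 := by rw [mul_pow, ← h1]; ring
      rw [e1]
      have h6 : b * b < (4 * a) * b := mul_lt_mul_of_pos_right h4 hb
      have h7 : (4 * a) * b = 4 * (a * b) := by ring
      have h8 : b ^ 2 = b * b := by ring
      linarith
    exact lt_of_pow_lt_pow_left₀ 2 (by positivity) h5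
  have hda : d < a := by linarith
  have hba : (b - a) ^ 2 = 4 * (r * d) + d * d + 4 := by
    have e1 : (b - a) ^ 2 = (a + b) ^ 2 - 4 * (r ^ 2 - 1) := by rw [← h1]; ring
    have e2 : a + b = d + 2 * r := by linarith
    rw [e1, e2]; ring
  have t1 : r * d ≤ 2 * a * d := mul_le_mul_of_nonneg_right hr2a hd0.le
  have t2 : d * d ≤ a * d := mul_le_mul_of_nonneg_right hda.le hd0.le
  have t3 : a * 1 ≤ a * d := mul_le_mul_of_nonneg_left hd0 ha0.le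
  have t4 : 2 * a * d = 2 * (a * d) := by ring
  have hba2 : 3 * (b - a) ^ 2 ≤ 31 * (a * d) := by
    rw [hba]
    linarith
  have hba4 : 9 * (b - a) ^ 4 ≤ 961 * (a ^ 2 * d ^ 2) := by
    have h5 : (3 * (b - a) ^ 2) ^ 2 ≤ (31 * (a * d)) ^ 2 :=
      pow_le_pow_left₀ (by positivity) hba2 2
    have e1 : (3 * (b - a) ^ 2) ^ 2 = 9 * (b - a) ^ 4 := by ring
    have e2 : (31 * (a * d)) ^ 2 = 961 * (a ^ 2 * d ^ 2) := by ring
    rw [e1, e2] at h5
    exact h5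
  have h6 : 6156 * (a ^ 4 * c) < 961 * (b ^ 3 * (a ^ 2 * d ^ 2)) := by
    calc 6156 * (a ^ 4 * c) = 9 * (684 * (a ^ 4 * c)) := by ring
      _ < 9 * (b ^ 3 * (b - a) ^ 4) := mul_lt_mul_of_pos_left hmain (by norm_num)
      _ = b ^ 3 * (9 * (b - a) ^ 4) := by ring
      _ ≤ b ^ 3 * (961 * (a ^ 2 * d ^ 2)) := mul_le_mul_of_nonneg_left hba4 (by positivity)
      _ = 961 * (b ^ 3 * (a ^ 2 * d ^ 2)) := by ring
  have h7 : a ^ 4 * (4 * a * b * d) < a ^ 4 * c := mul_lt_mul_of_pos_left hlt4 (by positivity)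
  have h8 : (a ^ 2 * b * d) * (24624 * a ^ 3) < (a ^ 2 * b * d) * (961 * (b ^ 2 * d)) := by
    calc (a ^ 2 * b * d) * (24624 * a ^ 3) = 6156 * (a ^ 4 * (4 * a * b * d)) := by ring
      _ < 6156 * (a ^ 4 * c) := mul_lt_mul_of_pos_left h7 (by norm_num)
      _ < 961 * (b ^ 3 * (a ^ 2 * d ^ 2)) := h6
      _ = (a ^ 2 * b * d) * (961 * (b ^ 2 * d)) := by ring
  have h9 : 24624 * a ^ 3 < 961 * (b ^ 2 * d) := lt_of_mul_lt_mul_left h8 (by positivity)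
  have h10 : b ^ 2 * d < (4 * a) ^ 2 * a := by
    have g1 : b ^ 2 < (4 * a) ^ 2 := pow_lt_pow_left₀ h4 hb.le two_ne_zero
    calc b ^ 2 * d < (4 * a) ^ 2 * d := mul_lt_mul_of_pos_right g1 hd0
      _ < (4 * a) ^ 2 * a := mul_lt_mul_of_pos_left hda (by positivity)
  have h11 : (4 * a) ^ 2 * a = 16 * a ^ 3 := by ring
  have h12 : 0 < a ^ 3 := by positivity
  linarith

/-- the irregular case -/
theorem caseA3 {a b d d' : ℤ} (ha : 0 < a) (h4 : b < 4 * a) (hd : 0 < d) (hd' : 1 ≤ d')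
    (h : 4 * a * d * d' < b) : False := by
  have h1 : 1 ≤ d * d' := by
    have : 0 < d * d' := mul_pos hd (by linarith)
    linarith
  have h2 : 4 * a * 1 ≤ 4 * a * (d * d') := mul_le_mul_of_nonneg_left h1 (by positivity)
  have h3 : 4 * a * (d * d') = 4 * a * d * d' := by ring
  linarith

/-- Theorem A: an exceptional triple satisfies `b ≥ 4a`. -/
theorem thmA {a b c r s t x l m : ℤ} (h : Sq3 a b c r s t) (ha : 0 < a) (hab : a < b)
    (hbc : b < c) (hD : Data a b c x l m) : 4 * a ≤ b := by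
  by_contra h4
  push Not at h4
  have hb : 0 < b := ha.trans hab
  have hc : 0 < c := hb.trans hbc
  obtain ⟨A, B, C, δ, D, e, hA, hB, hC, he, qa, qb, qc, hrel, hδ, hρ, hDD, hAD, h4d, -⟩ :=
    package h ha hab hbc hD
  obtain ⟨g1, g2, g3⟩ := dvd24_all h ha hab hbc hD
  have g1' : 24 ≤ a * b := Int.le_of_dvd (by positivity) g1
  have g2' : 24 ≤ a * c := Int.le_of_dvd (by positivity) g2
  have g3' : 24 ≤ b * c := Int.le_of_dvd (by positivity) g3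
  have hd1 := dm_pos_of_data h ha hab hbc hD
  have hclt : 4 * a * b + a + b + 1 < c := c_lower ha hb hd1 (dm_lt' ha hb (hab.trans hbc) hbc h hd1)
  obtain ⟨-, -, -, hr, hs, ht, h1, h2, h3⟩ := id h
  have hrs2 : 2 * r ≤ s := two_mul_r_le_s ha hb hs h1 h2 hclt
  have hrs : r < s := by linarith
  have hst : s < t := s_lt_t hab hc ht h2 h3
  obtain ⟨hs1, -⟩ := sigma_lt hr hrs hst he.le qa qb qc hA hB hC hrel
  have hlow := lower_A hs hst he.le qa qb qc hB hC hrel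
  have hσ0 := sq_sub_pos hr hrs
  have hDA : (D - A) * (D + A) = δ ^ 2 - r ^ 2 := by linear_combination hDD - qa
  have hAδ : 8 * A < δ ^ 2 - r ^ 2 := gapmul4 hA (gap4 hAD h4d) hDA
  have hDD' : D ^ 2 = δ ^ 2 + (A ^ 2 - r ^ 2) := by rw [hDD, qa]; ring
  have hest := close_est hr hs hst hA hδ hlow hρ hDD' hAδ hσ0.le hs1
  have hnum := close_num h ha hab hbc g1' g2' g3' hest
  have ha3 := a_ge3 ha h4 g1'
  have hmain := main_ineq ha hb hc (c_ge10b ha3 hb hclt) hnum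
  -- the descent
  have hS := Sq3_dm ha hb h
  have hlt4 := (dm_lt ha hb (hab.trans hbc) hbc h).1
  clear hest hnum hlow hρ hDD' hAδ hrel qa qb qc hDD hDA hs1 hrs2 hσ0 g1 g2 g3 g1' g2' g3'
  generalize dm a b c r s t = d at hS hlt4 hd1
  have hd0 : 0 < d := hd1
  have hne : b ≠ d := ne_of_sq hb hS.2.2.2.2.2.1 hS.2.2.2.2.2.2.2.2
  rcases lt_or_gt_of_ne hne with hbd | hbd
  · exact caseA1 ha hab h4 hbd hlt4 hmain
  · rcases d_lt_case hS ha hd0 hab hbd with h5 | ⟨d', w, hd', hw, -, h5⟩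
    · exact caseA2 ha3 hab h4 hd0 hr h1 h5 hlt4 hmain
    · exact caseA3 ha h4 hd0 hd' h5

theorem numB1 {a b c : ℤ} (ha : 0 < a) (hb4 : 4 * a ≤ b) (g1 : 24 ≤ a * b)
    (hc : 4 * a * b + a + b + 1 < c) : 100 ≤ a * c ∧ 5 * b ≤ c := by
  have hb : 0 < b := by linarith
  have h2 : 4 * a * b = 4 * (a * b) := by ring
  have h3 : 96 < c := by linarith
  have h3' : 100 ≤ c := by linarith
  have h4 : 1 * c ≤ a * c := mul_le_mul_of_nonneg_right ha (by linarith)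
  have h5 : 1 * b ≤ a * b := mul_le_mul_of_nonneg_right ha hb.le
  exact ⟨by linarith, by linarith⟩

theorem numB2 {a b c : ℤ} (ha : 0 < a) (hb : 0 < b) (hc : 0 < c) (g1 : 24 ≤ a * b)
    (hac : 100 ≤ a * c) (g3 : 24 ≤ b * c) (hc5 : 5 * b ≤ c)
    (hest : 1679616 * (a * (c - b)) ^ 10 < (a * b + 1) ^ 6 * (a * c + 1) ^ 6 * (b * c + 1)) :
    100000 * c ^ 3 < a ^ 2 * b ^ 7 := by
  have k1 : 24 * (a * b + 1) ≤ 25 * (a * b) := by linarith
  have k2 : 100 * (a * c + 1) ≤ 101 * (a * c) := by linarith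
  have k3 : 24 * (b * c + 1) ≤ 25 * (b * c) := by linarith
  have k4 : (24 * (a * b + 1)) ^ 6 ≤ (25 * (a * b)) ^ 6 := pow_le_pow_left₀ (by positivity) k1 6
  have k5 : (100 * (a * c + 1)) ^ 6 ≤ (101 * (a * c)) ^ 6 := pow_le_pow_left₀ (by positivity) k2 6
  have k6 : (24 * (a * b + 1)) ^ 6 * (100 * (a * c + 1)) ^ 6 * (24 * (b * c + 1))
      ≤ (25 * (a * b)) ^ 6 * (101 * (a * c)) ^ 6 * (25 * (b * c)) := by
    apply mul_le_mul _ k3 (by positivity) (by positivity)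
    exact mul_le_mul k4 k5 (by positivity) (by positivity)
  have k7 : 4 * c ≤ 5 * (c - b) := by linarith
  have k8 : (4 * c) ^ 10 ≤ (5 * (c - b)) ^ 10 := pow_le_pow_left₀ (by positivity) k7 10
  have k9 : 1679616 * 24 ^ 7 * 100 ^ 6 * a ^ 10 * (4 * c) ^ 10
      < 5 ^ 10 * ((25 * (a * b)) ^ 6 * (101 * (a * c)) ^ 6 * (25 * (b * c))) := by
    calc 1679616 * 24 ^ 7 * 100 ^ 6 * a ^ 10 * (4 * c) ^ 10
        ≤ 1679616 * 24 ^ 7 * 100 ^ 6 * a ^ 10 * (5 * (c - b)) ^ 10 :=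
          mul_le_mul_of_nonneg_left k8 (by positivity)
      _ = 24 ^ 7 * 100 ^ 6 * 5 ^ 10 * (1679616 * (a * (c - b)) ^ 10) := by ring
      _ < 24 ^ 7 * 100 ^ 6 * 5 ^ 10 * ((a * b + 1) ^ 6 * (a * c + 1) ^ 6 * (b * c + 1)) :=
          mul_lt_mul_of_pos_left hest (by positivity)
      _ = 5 ^ 10 * ((24 * (a * b + 1)) ^ 6 * (100 * (a * c + 1)) ^ 6 * (24 * (b * c + 1))) := by
          ring
      _ ≤ _ := mul_le_mul_of_nonneg_left k6 (by positivity)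
  have k10 : (a ^ 10 * c ^ 7) * (1679616 * 24 ^ 7 * 100 ^ 6 * 4 ^ 10 * c ^ 3)
      < (a ^ 10 * c ^ 7) * (5 ^ 10 * 25 ^ 7 * 101 ^ 6 * (a ^ 2 * b ^ 7)) := by
    calc (a ^ 10 * c ^ 7) * (1679616 * 24 ^ 7 * 100 ^ 6 * 4 ^ 10 * c ^ 3)
        = 1679616 * 24 ^ 7 * 100 ^ 6 * a ^ 10 * (4 * c) ^ 10 := by ring
      _ < _ := k9
      _ = (a ^ 10 * c ^ 7) * (5 ^ 10 * 25 ^ 7 * 101 ^ 6 * (a ^ 2 * b ^ 7)) := by ring
  have k11 : 1679616 * 24 ^ 7 * 100 ^ 6 * 4 ^ 10 * c ^ 3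
      < 5 ^ 10 * 25 ^ 7 * 101 ^ 6 * (a ^ 2 * b ^ 7) := lt_of_mul_lt_mul_left k10 (by positivity)
  have hc3 : 0 < c ^ 3 := by positivity
  have k12 : 5 ^ 10 * 25 ^ 7 * 101 ^ 6 * (100000 * c ^ 3)
      ≤ 1679616 * 24 ^ 7 * 100 ^ 6 * 4 ^ 10 * c ^ 3 := by
    have : (5 : ℤ) ^ 10 * 25 ^ 7 * 101 ^ 6 * 100000 ≤ 1679616 * 24 ^ 7 * 100 ^ 6 * 4 ^ 10 := by
      norm_num
    calc 5 ^ 10 * 25 ^ 7 * 101 ^ 6 * (100000 * c ^ 3)
        = (5 ^ 10 * 25 ^ 7 * 101 ^ 6 * 100000) * c ^ 3 := by ring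
      _ ≤ (1679616 * 24 ^ 7 * 100 ^ 6 * 4 ^ 10) * c ^ 3 :=
          mul_le_mul_of_nonneg_right this hc3.le
  have k13 : (5 : ℤ) ^ 10 * 25 ^ 7 * 101 ^ 6 * (100000 * c ^ 3)
      < 5 ^ 10 * 25 ^ 7 * 101 ^ 6 * (a ^ 2 * b ^ 7) := lt_of_le_of_lt k12 k11
  exact lt_of_mul_lt_mul_left k13 (by norm_num)

/-- Theorem B: `10^5 c^3 < a^2 b^7`. -/
theorem thmB {a b c r s t x l m : ℤ} (h : Sq3 a b c r s t) (ha : 0 < a) (hab : a < b)
    (hbc : b < c) (hD : Data a b c x l m) : 100000 * c ^ 3 < a ^ 2 * b ^ 7 := by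
  have h4 := thmA h ha hab hbc hD
  have hb : 0 < b := ha.trans hab
  have hc : 0 < c := hb.trans hbc
  obtain ⟨A, B, C, δ, D, e, hA, hB, hC, he, qa, qb, qc, hrel, hδ, hρ, hDD, hAD, -, h12⟩ :=
    package h ha hab hbc hD
  obtain ⟨g1, g2, g3⟩ := dvd24_all h ha hab hbc hD
  have g1' : 24 ≤ a * b := Int.le_of_dvd (by positivity) g1
  have g3' : 24 ≤ b * c := Int.le_of_dvd (by positivity) g3
  have hd1 := dm_pos_of_data h ha hab hbc hD
  have hclt : 4 * a * b + a + b + 1 < c := c_lower ha hb hd1 (dm_lt' ha hb (hab.trans hbc) hbc h hd1)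
  obtain ⟨-, -, -, hr, hs, ht, h1, h2, h3⟩ := id h
  have hrs2 : 2 * r ≤ s := two_mul_r_le_s ha hb hs h1 h2 hclt
  have hrs : r < s := by linarith
  have hst : s < t := s_lt_t hab hc ht h2 h3
  obtain ⟨-, hs2⟩ := sigma_lt hr hrs hst he.le qa qb qc hA hB hC hrel
  have hσ0 := sq_sub_pos hr hrs
  have hDA : (D - A) * (D + A) = δ ^ 2 - r ^ 2 := by linear_combination hDD - qa
  have hAδ : 24 * A < δ ^ 2 - r ^ 2 := gapmul12 hA (gap12 hAD (h12 h4)) hDA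
  have hDD' : D ^ 2 = δ ^ 2 + (A ^ 2 - r ^ 2) := by rw [hDD, qa]; ring
  have hest := far_est hr hs ht hA hδ hρ hDD' hAδ hσ0 hs2
  have hσ : s ^ 2 - r ^ 2 = a * (c - b) := by rw [← h1, ← h2]; ring
  rw [hσ, ← h1, ← h2, ← h3] at hest
  obtain ⟨hac, hc5⟩ := numB1 ha h4 g1' hclt
  exact numB2 ha hb hc g1' hac g3' hc5 hest

end Pool.Agent.Work.MP_71a505_nt
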