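import Mathlib
import Pool.Agent.Work.MP_71a505_nt.Final

namespace Pool.Agent.Work.MP_71a505_nt

/-- cubing `y < c` -/
theorem cube_lt {a b c y : ℤ} (hy : 0 ≤ y) (h : y < c) (hB : 100000 * c ^ 3 < a ^ 2 * b ^ 7) :
    100000 * y ^ 3 < a ^ 2 * b ^ 7 := by
  have : y ^ 3 < c ^ 3 := pow_lt_pow_left₀ h hy (by norm_num)
  linarith

/-- case `d > b` -/
theorem caseC1 {a b c d : ℤ} (ha : 0 < a) (hb : 0 < b) (hbd : b < d)
    (hlt : 4 * a * b * d < c) (hB : 100000 * c ^ 3 < a ^ 2 * b ^ 7) : 6400000 * a < b := by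
  have h1 : 4 * a * b * b < c := lt_trans (mul_lt_mul_of_pos_left hbd (by positivity)) hlt
  have h2 := cube_lt (by positivity) h1 hB
  have h3 : (a ^ 2 * b ^ 6) * (6400000 * a) < (a ^ 2 * b ^ 6) * b := by
    calc (a ^ 2 * b ^ 6) * (6400000 * a) = 100000 * (4 * a * b * b) ^ 3 := by ring
      _ < a ^ 2 * b ^ 7 := h2
      _ = (a ^ 2 * b ^ 6) * b := by ring
  exact lt_of_mul_lt_mul_left h3 (by positivity)

/-- `4 d ≥ b - 4` if `d = a + b - 2 r`, `b ≥ 4 a` -/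
theorem d_lower1 {a b r : ℤ} (ha : 0 < a) (h4 : 4 * a ≤ b) (h1 : a * b + 1 = r ^ 2) :
    b - 4 ≤ 4 * (a + b - 2 * r) := by
  have h5 : (8 * r) ^ 2 ≤ (4 * a + 3 * b + 4) ^ 2 := by
    have e1 : (8 * r) ^ 2 = 64 * (a * b + 1) := by rw [h1]; ring
    rw [e1]
    have h6 : 0 ≤ (b - 4 * a) * (9 * b - 4 * a) := mul_nonneg (by linarith) (by linarith)
    nlinarith
  have h7 : 8 * r ≤ 4 * a + 3 * b + 4 := le_of_sq_le_sq h5 (by linarith)
  linarith

/-- first rough bound in the case `d = a + b - 2r` -/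
theorem caseC2a {a b c d : ℤ} (ha : 0 < a) (hb : 10 ≤ b) (hd : b - 4 ≤ 4 * d)
    (hlt : 4 * a * b * d < c) (hB : 100000 * c ^ 3 < a ^ 2 * b ^ 7) : 21600 * a < b := by
  have hb0 : 0 < b := by linarith
  have h0 : a * b * (b - 4) ≤ a * b * (4 * d) := mul_le_mul_of_nonneg_left hd (by positivity)
  have h1 : a * b * (b - 4) < c := by
    have : a * b * (4 * d) = 4 * a * b * d := by ring
    linarith
  have hb4 : 0 ≤ b - 4 := by linarith
  have h2 := cube_lt (by positivity) h1 hB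
  have h3 : (3 * b) ^ 3 ≤ (5 * (b - 4)) ^ 3 := pow_le_pow_left₀ (by positivity) (by linarith) 3
  have h4 : (a ^ 2 * b ^ 6) * (2700000 * a) < (a ^ 2 * b ^ 6) * (125 * b) := by
    calc (a ^ 2 * b ^ 6) * (2700000 * a) = 100000 * (a * b) ^ 3 * (3 * b) ^ 3 := by ring
      _ ≤ 100000 * (a * b) ^ 3 * (5 * (b - 4)) ^ 3 := mul_le_mul_of_nonneg_left h3 (by positivity)
      _ = 125 * (100000 * (a * b * (b - 4)) ^ 3) := by ring
      _ < 125 * (a ^ 2 * b ^ 7) := mul_lt_mul_of_pos_left h2 (by norm_num)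
      _ = (a ^ 2 * b ^ 6) * (125 * b) := by ring
  have h5 : 2700000 * a < 125 * b := lt_of_mul_lt_mul_left h4 (by positivity)
  linarith

/-- second bound in the case `d = a + b - 2r` -/
theorem caseC2 {a b c d r : ℤ} (ha : 0 < a) (h1 : a * b + 1 = r ^ 2)
    (hd : d = a + b - 2 * r) (h2 : 21600 * a < b)
    (hlt : 4 * a * b * d < c) (hB : 100000 * c ^ 3 < a ^ 2 * b ^ 7) : 6000000 * a < b := by
  have hb0 : 0 < b := by linarith
  have hbb : 21600 < b := by linarith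
  have h5 : (140 * r) ^ 2 ≤ b ^ 2 := by
    have e1 : (140 * r) ^ 2 = 19600 * (a * b) + 19600 := by
      rw [mul_pow, ← h1]; ring
    rw [e1]
    have h6 : 21600 * a * b < b * b := mul_lt_mul_of_pos_right h2 hb0
    have h7 : 21600 * b < b * b := mul_lt_mul_of_pos_right hbb hb0
    nlinarith
  have h6 : 140 * r ≤ b := le_of_sq_le_sq h5 hb0.le
  have h7 : 69 * b ≤ 70 * d := by linarith
  have h8 : 69 * (4 * a * b * b) ≤ 70 * (4 * a * b * d) := by
    have : (4 * a * b) * (69 * b) ≤ (4 * a * b) * (70 * d) :=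
      mul_le_mul_of_nonneg_left h7 (by positivity)
    linarith
  have h9 : 69 * (4 * a * b * b) < 70 * c := by linarith
  have h10 : (69 * (4 * a * b * b)) ^ 3 < (70 * c) ^ 3 :=
    pow_lt_pow_left₀ h9 (by positivity) (by norm_num)
  have h11 : (a ^ 2 * b ^ 6) * (2102457600000 * a) < (a ^ 2 * b ^ 6) * (343000 * b) := by
    calc (a ^ 2 * b ^ 6) * (2102457600000 * a) = 100000 * (69 * (4 * a * b * b)) ^ 3 := by ring
      _ < 100000 * (70 * c) ^ 3 := mul_lt_mul_of_pos_left h10 (by norm_num)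
      _ = 343000 * (100000 * c ^ 3) := by ring
      _ < 343000 * (a ^ 2 * b ^ 7) := mul_lt_mul_of_pos_left hB (by norm_num)
      _ = (a ^ 2 * b ^ 6) * (343000 * b) := by ring
  have h12 : 2102457600000 * a < 343000 * b := lt_of_mul_lt_mul_left h11 (by positivity)
  linarith

/-- `d d' ≥ 3` -/
theorem dd_ge3 {d d' w : ℤ} (hd : 0 < d) (hd' : 1 ≤ d') (hw : d * d' + 1 = w ^ 2) :
    3 ≤ d * d' := by
  have h0 : 0 < d * d' := mul_pos hd (by linarith)
  by_contra hh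
  push Not at hh
  have h1 : w ^ 2 = 2 ∨ w ^ 2 = 3 := by
    rw [← hw]; omega
  have h2 : |w| < 2 := by
    by_contra h3
    push Not at h3
    have : 4 ≤ w ^ 2 := by
      rw [← sq_abs]
      nlinarith
    rcases h1 with h1 | h1 <;> linarith
  have h3 : -2 < w ∧ w < 2 := abs_lt.1 h2
  obtain ⟨h4, h5⟩ := h3
  interval_cases w <;> omega

theorem dm_w {a b c r s t : ℤ} (h : Sq3 a b c r s t) :
    c * dm a b c r s t + 1 = (c * r - s * t) ^ 2 := by
  obtain ⟨-, -, -, -, -, -, h1, h2, h3⟩ := h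
  unfold dm
  linear_combination (c ^ 2) * h1 + (a * c + 1) * h3 + t ^ 2 * h2

/-- the quadruple is regular -/
theorem dm_reg {a b c r s t : ℤ} (h : Sq3 a b c r s t) :
    (a + b - c - dm a b c r s t) ^ 2 = 4 * (a * b + 1) * (c * dm a b c r s t + 1) := by
  obtain ⟨-, -, -, -, -, -, h1, h2, h3⟩ := h
  have e : (r * s * t) ^ 2 = (a * b + 1) * (a * c + 1) * (b * c + 1) := by
    rw [h1, h2, h3]; ring
  unfold dm
  linear_combination 4 * e

/-- the case `d < b` with all the data -/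
theorem d_lt_case' {a b d r u v : ℤ} (h : Sq3 a b d r u v) (ha : 0 < a) (hd : 0 < d)
    (hab : a < b) (hdb : d < b) :
    d = a + b - 2 * r ∨ ∃ d' : ℤ, 1 ≤ d' ∧ IsSquare (a * d' + 1) ∧ IsSquare (b * d' + 1) ∧
      IsSquare (d * d' + 1) ∧ (a + d - b - d') ^ 2 = 4 * (a * d + 1) * (b * d' + 1) ∧
      4 * a * d * d' < b := by
  have hb : 0 < b := ha.trans hab
  have h' := h
  obtain ⟨-, -, -, hr, hu, hv, h1, h2, h3⟩ := h'
  have hs : Sq3 a d b u r v := ⟨ha.le, hd.le, hb.le, hu, hr, hv, h2, h1, by rw [← h3]; ring⟩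
  have hsym : dm a d b u r v = dm a b d r u v := by unfold dm; ring
  have hd0 := dm_nonneg ha hd hs
  rcases hd0.eq_or_lt with h0 | h0
  · left
    rw [hsym] at h0
    rcases dm_zero h h0.symm with h5 | h5
    · linarith
    · exact h5
  · right
    have hlt := (dm_lt ha hd hab hdb hs).1
    have q1 := dm_u hs
    have q2 := dm_w hs
    have q3 := dm_v hs
    have q4 := dm_reg hs
    exact ⟨dm a d b u r v, h0, ⟨_, by rw [q1, sq]⟩, ⟨_, by rw [q2, sq]⟩, ⟨_, by rw [q3, sq]⟩, q4,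
      hlt⟩

theorem dd_ge3' {d d' : ℤ} (hd : 0 < d) (hd' : 1 ≤ d') (hw : IsSquare (d * d' + 1)) :
    3 ≤ d * d' := by
  obtain ⟨w, hw⟩ := hw
  exact dd_ge3 hd hd' (w := w) (by rw [hw, sq])

theorem twelve {a b y : ℤ} (ha : 0 < a) (hy : 3 ≤ y) (h : 4 * a * y < b) : 12 * a < b := by
  have : 4 * a * 3 ≤ 4 * a * y := mul_le_mul_of_nonneg_left hy (by positivity)
  linarith

/-- Theorem C -/
theorem thmC {a b c r s t x l m : ℤ} (h : Sq3 a b c r s t) (ha : 0 < a) (hab : a < b)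
    (hbc : b < c) (hD : Data a b c x l m) :
    100000 * c ^ 3 < a ^ 2 * b ^ 7 ∧ 12 * a < b ∧
      (6000000 * a < b ∨ ∃ d d' : ℤ, 1 ≤ d ∧ 1 ≤ d' ∧
        IsSquare (a * d + 1) ∧ IsSquare (b * d + 1) ∧ IsSquare (c * d + 1) ∧
        IsSquare (a * d' + 1) ∧ IsSquare (b * d' + 1) ∧ IsSquare (d * d' + 1) ∧
        (a + b - c - d) ^ 2 = 4 * (a * b + 1) * (c * d + 1) ∧
        (a + d - b - d') ^ 2 = 4 * (a * d + 1) * (b * d' + 1) ∧
        4 * a * d * d' < b ∧ 4 * a * b * d < c) := by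
  have h4 := thmA h ha hab hbc hD
  have hB := thmB h ha hab hbc hD
  have hb : 0 < b := ha.trans hab
  obtain ⟨g1, -, -⟩ := dvd24_all h ha hab hbc hD
  have g1' : 24 ≤ a * b := Int.le_of_dvd (by positivity) g1
  have hb10 : 10 ≤ b := by
    by_contra hh
    push Not at hh
    have h5 : a ≤ 2 := by linarith
    have h6 : a * b ≤ 2 * b := mul_le_mul_of_nonneg_right h5 hb.le
    linarith
  have hd1 := dm_pos_of_data h ha hab hbc hD
  have hS := Sq3_dm ha hb h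
  have hlt4 := (dm_lt ha hb (hab.trans hbc) hbc h).1
  have q1 := dm_u h
  have q2 := dm_v h
  have q3 := dm_w h
  have q4 := dm_reg h
  have h1 := h.2.2.2.2.2.2.1
  generalize dm a b c r s t = d at *
  generalize |a * t - r * s| = u at *
  generalize |b * s - r * t| = v at *
  refine ⟨hB, ?_⟩
  have hd0 : 0 < d := hd1
  have hne : b ≠ d := ne_of_sq hb hS.2.2.2.2.2.1 hS.2.2.2.2.2.2.2.2
  rcases lt_or_gt_of_ne hne with hbd | hbd
  · have h5 := caseC1 ha hb hbd hlt4 hB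
    exact ⟨by linarith, Or.inl (by linarith)⟩
  · rcases d_lt_case' hS ha hd0 hab hbd with h5 | ⟨d', k1, k2, k3, k4, k5, k6⟩
    · have h6 := d_lower1 ha h4 h1
      rw [← h5] at h6
      have h7 := caseC2a ha hb10 h6 hlt4 hB
      have h8 := caseC2 ha h1 h5 h7 hlt4 hB
      exact ⟨by linarith, Or.inl h8⟩
    · have h6 := dd_ge3' hd0 k1 k4
      refine ⟨twelve ha h6 (by rw [← mul_assoc]; exact k6), Or.inr ⟨d, d', hd1, k1, ?_, ?_, ?_,
        k2, k3, k4, q4, k5, k6, hlt4⟩⟩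
      · exact ⟨_, by rw [q1, sq]⟩
      · exact ⟨_, by rw [q2, sq]⟩
      · exact ⟨_, by rw [q3, sq]⟩

end Pool.Agent.Work.MP_71a505_nt
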