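import Mathlib

namespace Pool.Agent.Work.MP_71a505_nt

open WeierstrassCurve WeierstrassCurve.Affine

/-- The elliptic curve induced by `(a, b, c)`, in Weierstrass form
`Y^2 = (X + ab)(X + ac)(X + bc)`; it is the image of `y^2 = (ax+1)(bx+1)(cx+1)` under
`(x, y) ↦ (abc x, abc y)`. -/
def inducedCurve (a b c : ℤ) : WeierstrassCurve.Affine ℚ where
  a₁ := 0
  a₂ := (a * b + a * c + b * c : ℤ)
  a₃ := 0
  a₄ := (a * b * c * (a + b + c) : ℤ)
  a₆ := ((a * b * c) ^ 2 : ℤ)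

theorem double_eq_neg {G : Type*} [AddCommGroup G] {P : G} (h : (3 : ℕ) • P = 0) :
    P + P = - P := by
  have e : (3 : ℕ) • P = (P + P) + P := by
    rw [succ_nsmul, two_nsmul]
  rw [e] at h
  exact eq_neg_of_add_eq_zero_left h

theorem slope_eq {W : WeierstrassCurve.Affine ℚ} (h1 : W.a₁ = 0) (h3 : W.a₃ = 0) {x y : ℚ}
    (hy : y ≠ W.negY x y) :
    W.slope x x y y = (3 * x ^ 2 + 2 * W.a₂ * x + W.a₄) / (2 * y) := by
  have h := slope_of_Y_ne (W := W) (x₁ := x) (x₂ := x) (y₁ := y) (y₂ := y) rfl hy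
  have hy2 : y - W.negY x y = 2 * y := by
    simp only [negY, h1, h3]; ring
  have e : 3 * x ^ 2 + 2 * W.a₂ * x + W.a₄ - W.a₁ * y = 3 * x ^ 2 + 2 * W.a₂ * x + W.a₄ := by
    rw [h1]; ring
  exact h.trans (by rw [e, hy2])

theorem eqn_of {W : WeierstrassCurve.Affine ℚ} (h1 : W.a₁ = 0) (h3 : W.a₃ = 0) {x y : ℚ}
    (h : W.Equation x y) : y ^ 2 = x ^ 3 + W.a₂ * x ^ 2 + W.a₄ * x + W.a₆ := by
  have := (equation_iff x y).1 h
  rw [h1, h3] at this
  linear_combination this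

theorem data_algebra {a2 a4 a6 x y l : ℚ} (heq : y ^ 2 = x ^ 3 + a2 * x ^ 2 + a4 * x + a6)
    (hl1 : l ^ 2 = a2 + 3 * x) (hl2 : 2 * y * l = 3 * x ^ 2 + 2 * a2 * x + a4) :
    ∃ x l m : ℚ, l ^ 2 = a2 + 3 * x ∧ 2 * l * m = a4 - 3 * x ^ 2 ∧ m ^ 2 = a6 + x ^ 3 := by
  refine ⟨x, l, y - l * x, hl1, ?_, ?_⟩
  · linear_combination hl2 - 2 * x * hl1
  · linear_combination heq - x * hl2 + x ^ 2 * hl1

/-- tangent line data at a rational point of order three -/
theorem three_torsion_data {W : WeierstrassCurve.Affine ℚ} (h1 : W.a₁ = 0) (h3 : W.a₃ = 0)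
    {P : W.Point} (hP : P ≠ 0) (h3P : (3 : ℕ) • P = 0) :
    ∃ x l m : ℚ, l ^ 2 = W.a₂ + 3 * x ∧ 2 * l * m = W.a₄ - 3 * x ^ 2 ∧
      m ^ 2 = W.a₆ + x ^ 3 := by
  cases P with
  | zero => exact absurd rfl hP
  | some x y h =>
    have h2P : Point.some x y h + Point.some x y h = - Point.some x y h :=
      double_eq_neg h3P
    have hy : y ≠ W.negY x y := by
      intro hy
      have h0 := Point.add_self_of_Y_eq (h₁ := h) hy
      have h00 : - Point.some x y h = 0 := h2P.symm.trans h0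
      exact hP (neg_eq_zero.1 h00)
    have h4 := (Point.add_self_of_Y_ne (h₁ := h) hy).symm.trans h2P
    have hX : W.addX x x (W.slope x x y y) = x := by
      have h5 := h4.trans (Point.neg_some h)
      exact (Point.some.inj h5).1
    have hyne : y ≠ 0 := by
      intro h0
      apply hy
      simp only [negY, h1, h3, h0]; ring
    have hs := slope_eq h1 h3 hy
    obtain ⟨l, hl⟩ : ∃ l, l = W.slope x x y y := ⟨_, rfl⟩
    have hl' : l = (3 * x ^ 2 + 2 * W.a₂ * x + W.a₄) / (2 * y) := hl.trans hs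
    have heq := eqn_of h1 h3 h.1
    have hX' : W.addX x x l = x := by rw [hl]; exact hX
    have hl1 : l ^ 2 = W.a₂ + 3 * x := by
      simp only [addX, h1] at hX'
      linear_combination hX'
    have hl2 : 2 * y * l = 3 * x ^ 2 + 2 * W.a₂ * x + W.a₄ := by
      rw [hl']; field_simp
    exact data_algebra heq hl1 hl2

/-- rational number which is integral over `ℤ` -/
theorem int_of_sq {q : ℚ} {n : ℤ} (h : q ^ 2 = n) : ∃ k : ℤ, q = k := by
  have hi : IsIntegral ℤ q := by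
    refine ⟨Polynomial.X ^ 2 - Polynomial.C n, Polynomial.monic_X_pow_sub_C n two_ne_zero, ?_⟩
    simp only [Polynomial.eval₂_sub, Polynomial.eval₂_pow, Polynomial.eval₂_X,
      Polynomial.eval₂_C]
    rw [h]
    simp only [algebraMap_int_eq, eq_intCast, sub_self]
  obtain ⟨k, hk⟩ := IsIntegrallyClosed.isIntegral_iff.1 hi
  exact ⟨k, by rw [← hk]; simp⟩

theorem int_of_quartic {z : ℚ} {A B C D : ℤ}
    (h : z ^ 4 + A * z ^ 3 + B * z ^ 2 + C * z + D = 0) : ∃ k : ℤ, z = k := by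
  have hi : IsIntegral ℤ z := by
    refine ⟨Polynomial.X ^ 4 + (Polynomial.C A * Polynomial.X ^ 3 +
      Polynomial.C B * Polynomial.X ^ 2 + Polynomial.C C * Polynomial.X + Polynomial.C D),
      ?_, ?_⟩
    · apply Polynomial.monic_X_pow_add
      compute_degree
      all_goals norm_num
    · simp only [Polynomial.eval₂_add, Polynomial.eval₂_mul, Polynomial.eval₂_pow,
        Polynomial.eval₂_X, Polynomial.eval₂_C]
      simp only [algebraMap_int_eq, eq_intCast]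
      linear_combination h
  obtain ⟨k, hk⟩ := IsIntegrallyClosed.isIntegral_iff.1 hi
  exact ⟨k, by rw [← hk]; simp⟩

/-- integrality of the tangent data -/
theorem integral_data {s t q : ℤ} {x l m : ℚ} (h1 : l ^ 2 = s + 3 * x)
    (h2 : 2 * l * m = t - 3 * x ^ 2) (h3 : m ^ 2 = q ^ 2 + x ^ 3) :
    ∃ X L M : ℤ, x = X ∧ L ^ 2 = s + 3 * X ∧ 2 * L * M = t - 3 * X ^ 2 ∧
      M ^ 2 = q ^ 2 + X ^ 3 := by
  -- the 3-division polynomial in z = 3x
  have hz : (3 * x) ^ 4 + (4 * s : ℤ) * (3 * x) ^ 3 + (18 * t : ℤ) * (3 * x) ^ 2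
      + (108 * q ^ 2 : ℤ) * (3 * x) + (27 * (4 * s * q ^ 2 - t ^ 2) : ℤ) = 0 := by
    push_cast
    have e : (2 * l * m) ^ 2 = 4 * (l ^ 2) * (m ^ 2) := by ring
    rw [h2, h1, h3] at e
    linear_combination (-27 : ℚ) * e
  obtain ⟨z, hz⟩ := int_of_quartic hz
  obtain ⟨L, hL⟩ : ∃ k : ℤ, l = k := by
    apply int_of_sq (n := s + z)
    rw [h1]; push_cast; linarith
  obtain ⟨N, hN⟩ : ∃ k : ℤ, 9 * m = k := by
    apply int_of_sq (n := 81 * q ^ 2 + 3 * z ^ 3)
    push_cast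
    rw [← hz]
    linear_combination 81 * h3
  have hN2 : N ^ 2 = 81 * q ^ 2 + 3 * z ^ 3 := by
    have : ((N ^ 2 : ℤ) : ℚ) = ((81 * q ^ 2 + 3 * z ^ 3 : ℤ) : ℚ) := by
      push_cast
      rw [← hz, ← hN]
      linear_combination 81 * h3
    exact_mod_cast this
  have h3p : Prime (3 : ℤ) := Int.prime_three
  have hN3 : (3 : ℤ) ∣ N := by
    apply h3p.dvd_of_dvd_pow (n := 2)
    rw [hN2]
    exact ⟨27 * q ^ 2 + z ^ 3, by ring⟩
  obtain ⟨N', rfl⟩ := hN3
  have hz3 : (3 : ℤ) ∣ z := by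
    apply h3p.dvd_of_dvd_pow (n := 3)
    have : 3 * z ^ 3 = 3 * (3 * (N' ^ 2 - 9 * q ^ 2)) := by linear_combination (-1 : ℤ) * hN2
    have := mul_left_cancel₀ (by norm_num : (3 : ℤ) ≠ 0) this
    exact ⟨_, this⟩
  obtain ⟨X, rfl⟩ := hz3
  have hx : x = X := by
    push_cast at hz
    linarith
  obtain ⟨M, hM⟩ : ∃ k : ℤ, m = k := by
    apply int_of_sq (n := q ^ 2 + X ^ 3)
    rw [h3, hx]; push_cast; ring
  refine ⟨X, L, M, hx, ?_, ?_, ?_⟩
  · have : ((L ^ 2 : ℤ) : ℚ) = ((s + 3 * X : ℤ) : ℚ) := by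
      push_cast
      rw [← hL, ← hx]; exact h1
    exact_mod_cast this
  · have : ((2 * L * M : ℤ) : ℚ) = ((t - 3 * X ^ 2 : ℤ) : ℚ) := by
      push_cast
      rw [← hL, ← hx, ← hM]; exact h2
    exact_mod_cast this
  · have : ((M ^ 2 : ℤ) : ℚ) = ((q ^ 2 + X ^ 3 : ℤ) : ℚ) := by
      push_cast
      rw [← hx, ← hM]; exact h3
    exact_mod_cast this

/-- the integral tangent data attached to a rational point of order 3 of the induced curve -/
theorem data_of_point {a b c : ℤ} {P : (inducedCurve a b c).Point} (hP : P ≠ 0)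
    (h3P : (3 : ℕ) • P = 0) :
    ∃ x l m : ℤ, l ^ 2 = a * b + a * c + b * c + 3 * x ∧
      2 * l * m = (a * b * c) * (a + b + c) - 3 * x ^ 2 ∧
      m ^ 2 = (a * b * c) ^ 2 + x ^ 3 := by
  obtain ⟨x, l, m, h1, h2, h3⟩ := three_torsion_data (W := inducedCurve a b c) rfl rfl hP h3P
  have h1' : l ^ 2 = ((a * b + a * c + b * c : ℤ) : ℚ) + 3 * x := h1
  have h2' : 2 * l * m = ((a * b * c * (a + b + c) : ℤ) : ℚ) - 3 * x ^ 2 := h2
  have h3' : m ^ 2 = ((a * b * c : ℤ) : ℚ) ^ 2 + x ^ 3 := by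
    have : m ^ 2 = (((a * b * c) ^ 2 : ℤ) : ℚ) + x ^ 3 := h3
    rw [this]; push_cast; ring
  obtain ⟨X, L, M, -, g1, g2, g3⟩ := integral_data h1' h2' h3'
  exact ⟨X, L, M, g1, g2, g3⟩

/-- A group isomorphic to `ZMod 2 × ZMod 6` (inside another one) has a point of order 3. -/
theorem exists_three_of_equiv {G : Type*} [AddCommGroup G]
    (e : AddCommGroup.torsion G ≃+ ZMod 2 × ZMod 6) : ∃ P : G, P ≠ 0 ∧ (3 : ℕ) • P = 0 := by
  refine ⟨((e.symm (0, 2) : AddCommGroup.torsion G) : G), ?_, ?_⟩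
  · intro h
    have h0 : e.symm (0, 2) = 0 := by
      apply Subtype.ext
      simpa using h
    have : ((0 : ZMod 2), (2 : ZMod 6)) = 0 := by
      have := congrArg e h0
      simpa using this
    have h6 : (2 : ZMod 6) = 0 := congrArg Prod.snd this
    exact absurd h6 (by decide)
  · have h0 : (3 : ℕ) • e.symm (0, 2) = 0 := by
      have h1 : e.symm ((3 : ℕ) • ((0 : ZMod 2), (2 : ZMod 6))) = (3 : ℕ) • e.symm (0, 2) :=
        map_nsmul e.symm 3 _
      have h2 : (3 : ℕ) • ((0 : ZMod 2), (2 : ZMod 6)) = 0 := by decide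
      rw [← h1, h2]
      exact map_zero e.symm
    have := congrArg (Subtype.val) h0
    simpa using this

end Pool.Agent.Work.MP_71a505_nt
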