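import Mathlib

namespace Pool.Agent.Work.MP_71a505_nt

open Finset

/-- constant for the prime power bound -/
theorem exists_const {δ : ℝ} (hδ : 0 < δ) :
    ∃ A : ℝ, 1 ≤ A ∧ ∀ k : ℕ, ((k : ℝ) + 1) ≤ A * (2 : ℝ) ^ (δ * k) := by
  have hlog : 0 < Real.log 2 := Real.log_pos (by norm_num)
  set e := δ * Real.log 2 with he
  have he0 : 0 < e := by positivity
  refine ⟨max 1 (1 / e), le_max_left _ _, fun k => ?_⟩
  have h1 : (2 : ℝ) ^ (δ * k) = Real.exp (e * k) := by
    rw [Real.rpow_def_of_pos (by norm_num), he]; ring_nf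
  have h2 : 1 + e * k ≤ Real.exp (e * k) := by
    have := Real.add_one_le_exp (e * k); linarith
  rw [h1]
  have hA : 0 ≤ max 1 (1 / e) := le_trans zero_le_one (le_max_left _ _)
  have h3 : max 1 (1 / e) * (1 + e * k) ≤ max 1 (1 / e) * Real.exp (e * k) :=
    mul_le_mul_of_nonneg_left h2 hA
  refine le_trans ?_ h3
  have h4 : 1 ≤ max 1 (1 / e) := le_max_left _ _
  have h5 : 1 / e ≤ max 1 (1 / e) := le_max_right _ _
  have h6 : 1 ≤ max 1 (1 / e) * e := by
    have := mul_le_mul_of_nonneg_right h5 he0.le
    have h : 1 / e * e = 1 := by field_simp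
    linarith
  have hk : (0 : ℝ) ≤ k := Nat.cast_nonneg k
  have h7 : (k : ℝ) ≤ (max 1 (1 / e) * e) * k := by nlinarith
  calc (k : ℝ) + 1 ≤ (max 1 (1 / e) * e) * k + max 1 (1 / e) := by linarith
    _ = max 1 (1 / e) * (1 + e * k) := by ring

/-- The classical divisor bound. -/
theorem tau_le {δ : ℝ} (hδ : 0 < δ) :
    ∃ C : ℝ, 1 ≤ C ∧ ∀ n : ℕ, n ≠ 0 → (n.divisors.card : ℝ) ≤ C * (n : ℝ) ^ δ := by
  obtain ⟨A, hA1, hA⟩ := exists_const hδ
  obtain ⟨P, hP⟩ := exists_nat_ge ((2 : ℝ) ^ (1 / δ))
  have hP2 : ∀ p : ℕ, P ≤ p → (2 : ℝ) ≤ (p : ℝ) ^ δ := by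
    intro p hp
    have h1 : (2 : ℝ) ^ (1 / δ) ≤ p := hP.trans (by exact_mod_cast hp)
    calc (2 : ℝ) = ((2 : ℝ) ^ (1 / δ)) ^ δ := by
          rw [← Real.rpow_mul (by norm_num), one_div, inv_mul_cancel₀ hδ.ne', Real.rpow_one]
      _ ≤ (p : ℝ) ^ δ := Real.rpow_le_rpow (by positivity) h1 hδ.le
  have key : ∀ n : ℕ, n ≠ 0 → (n.divisors.card : ℝ)
      ≤ A ^ ((n.primeFactors.filter (· < P)).card) * (n : ℝ) ^ δ := by
    intro n
    induction n using Nat.recOnPosPrimePosCoprime with
    | zero => intro h; exact absurd rfl h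
    | one => intro _; simp
    | prime_pow p k hp hk =>
      intro _
      have h1 : (p ^ k).divisors.card = k + 1 := by
        rw [Nat.divisors_prime_pow hp, Finset.card_map, Finset.card_range]
      have h2 : (((p ^ k : ℕ) : ℝ)) ^ δ = ((p : ℝ) ^ δ) ^ k := by
        push_cast
        rw [← Real.rpow_natCast, ← Real.rpow_mul (by positivity), ← Real.rpow_natCast,
          ← Real.rpow_mul (by positivity), mul_comm]
      rw [h1, h2, Nat.primeFactors_prime_pow hk.ne' hp]
      push_cast
      rcases lt_or_ge p P with h | h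
      · have h3 : (({p} : Finset ℕ).filter (· < P)).card = 1 := by
          rw [Finset.filter_singleton, if_pos h, Finset.card_singleton]
        rw [h3, pow_one]
        refine (hA k).trans ?_
        apply mul_le_mul_of_nonneg_left _ (by linarith)
        have h4 : (2 : ℝ) ≤ p := by exact_mod_cast hp.two_le
        calc (2 : ℝ) ^ (δ * k) = ((2 : ℝ) ^ δ) ^ k := by
              rw [Real.rpow_mul (by norm_num), Real.rpow_natCast]
          _ ≤ ((p : ℝ) ^ δ) ^ k := by
              apply pow_le_pow_left₀ (by positivity)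
              exact Real.rpow_le_rpow (by norm_num) h4 hδ.le
      · have h3 : (({p} : Finset ℕ).filter (· < P)).card = 0 := by
          rw [Finset.filter_singleton, if_neg (not_lt.2 h), Finset.card_empty]
        rw [h3, pow_zero, one_mul]
        have h4 : ((k : ℝ) + 1) ≤ 2 ^ k := by
          have : k + 1 ≤ 2 ^ k := Nat.lt_two_pow_self
          exact_mod_cast this
        refine h4.trans ?_
        exact pow_le_pow_left₀ (by norm_num) (hP2 p h) k
    | coprime a b ha hb hab iha ihb =>
      intro _
      have i1 := iha (by omega)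
      have i2 := ihb (by omega)
      have h1 : (a * b).primeFactors = a.primeFactors ∪ b.primeFactors :=
        Nat.primeFactors_mul (by omega) (by omega)
      have h2 : (((a * b).primeFactors.filter (· < P)).card)
          = ((a.primeFactors.filter (· < P)).card) + ((b.primeFactors.filter (· < P)).card) := by
        rw [h1, Finset.filter_union, Finset.card_union_of_disjoint]
        exact Finset.disjoint_filter_filter hab.disjoint_primeFactors
      rw [h2, hab.card_divisors_mul, pow_add]
      push_cast
      rw [Real.mul_rpow (by positivity) (by positivity)]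
      calc (a.divisors.card : ℝ) * b.divisors.card
          ≤ (A ^ ((a.primeFactors.filter (· < P)).card) * (a : ℝ) ^ δ) *
            (A ^ ((b.primeFactors.filter (· < P)).card) * (b : ℝ) ^ δ) := by
              apply mul_le_mul i1 i2 (by positivity)
              exact le_trans (by positivity) i1
        _ = _ := by ring
  refine ⟨A ^ P, one_le_pow₀ hA1, fun n hn => (key n hn).trans ?_⟩
  apply mul_le_mul_of_nonneg_right _ (by positivity)
  apply pow_le_pow_right₀ hA1
  calc (n.primeFactors.filter (· < P)).card ≤ (range P).card := by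
        apply Finset.card_le_card
        intro x hx
        simp only [mem_filter] at hx
        exact mem_range.2 hx.2
    _ = P := card_range P

end Pool.Agent.Work.MP_71a505_nt
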