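import Mathlib
import Pool.Agent.Work.MP_71a505_nt.Tau

namespace Pool.Agent.Work.MP_71a505_nt

open Finset

/-- `ρ ∈ [1, X]` with `q ∣ ρ^2 - 1`. -/
def solSet (q X : ℕ) : Finset ℕ := (Icc 1 X).filter (fun ρ => q ∣ ρ ^ 2 - 1)

theorem dvd_two_mul_sub {q ρ ρ' : ℕ} (hq : 0 < q) (h1 : 1 ≤ ρ) (h1' : 1 ≤ ρ')
    (hd : q ∣ ρ ^ 2 - 1) (hd' : q ∣ ρ' ^ 2 - 1)
    (hg : Nat.gcd q (ρ - 1) = Nat.gcd q (ρ' - 1)) : (q : ℤ) ∣ 2 * ((ρ : ℤ) - ρ') := by
  set u := Nat.gcd q (ρ - 1) with hu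
  have hu0 : 0 < u := Nat.gcd_pos_of_pos_left _ hq
  obtain ⟨v, hv⟩ : u ∣ q := Nat.gcd_dvd_left _ _
  have aux : ∀ σ : ℕ, 1 ≤ σ → q ∣ σ ^ 2 - 1 → Nat.gcd q (σ - 1) = u →
      (u : ℤ) ∣ (σ : ℤ) - 1 ∧ (v : ℤ) ∣ (σ : ℤ) + 1 := by
    intro σ hσ hdσ hgσ
    have hud : u ∣ σ - 1 := hgσ ▸ Nat.gcd_dvd_right _ _
    obtain ⟨w, hw⟩ := hud
    have hcop : Nat.Coprime v w := by
      have h := Nat.coprime_div_gcd_div_gcd (m := q) (n := σ - 1) (by rw [hgσ]; exact hu0)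
      rw [hgσ, hw] at h
      have e1 : q / u = v := by
        conv_lhs => rw [hv]
        exact Nat.mul_div_cancel_left v hu0
      have e2 : u * w / u = w := Nat.mul_div_cancel_left w hu0
      rwa [e1, e2] at h
    have hfac : σ ^ 2 - 1 = (σ - 1) * (σ + 1) := by
      obtain ⟨j, rfl⟩ : ∃ j, σ = j + 1 := ⟨σ - 1, by omega⟩
      have : (j + 1) ^ 2 - 1 = j * (j + 1 + 1) := by
        have : (j + 1) ^ 2 = j * (j + 1 + 1) + 1 := by ring
        omega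
      rw [this]; simp
    rw [hfac, hw] at hdσ
    have hvd : v ∣ w * (σ + 1) := by
      have : u * v ∣ u * (w * (σ + 1)) := by
        rw [← mul_assoc]
        rw [← hv]; exact hdσ
      exact Nat.dvd_of_mul_dvd_mul_left hu0 this
    have hvs : v ∣ σ + 1 := hcop.dvd_of_dvd_mul_left hvd
    constructor
    · have : ((σ - 1 : ℕ) : ℤ) = (σ : ℤ) - 1 := by push_cast [hσ]; ring
      rw [← this, hw]
      push_cast
      exact Dvd.intro _ rfl
    · have := Int.natCast_dvd_natCast.2 hvs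
      push_cast at this
      exact this
  obtain ⟨a1, a2⟩ := aux ρ h1 hd rfl
  obtain ⟨b1, b2⟩ := aux ρ' h1' hd' hg.symm
  obtain ⟨w, hw⟩ := a1
  obtain ⟨y, hy⟩ := a2
  obtain ⟨w', hw'⟩ := b1
  obtain ⟨y', hy'⟩ := b2
  have hq' : (q : ℤ) = u * v := by rw [hv]; push_cast; ring
  rw [hq']
  refine ⟨(w - w') * y - (y - y') * w, ?_⟩
  have e1 : (ρ : ℤ) - ρ' = u * (w - w') := by linear_combination hw - hw'
  have e2 : (ρ : ℤ) - ρ' = v * (y - y') := by linear_combination hy - hy'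
  have e3 : (2 : ℤ) = v * y - u * w := by linear_combination hy - hw
  calc 2 * ((ρ : ℤ) - ρ') = (v * y - u * w) * ((ρ : ℤ) - ρ') := by rw [← e3]
    _ = v * y * ((ρ : ℤ) - ρ') - u * w * ((ρ : ℤ) - ρ') := by ring
    _ = v * y * (u * (w - w')) - u * w * (v * (y - y')) := by
        rw [← e1]
        conv_lhs => rw [e2]
        rw [← e2]
    _ = _ := by ring

theorem card_solSet_le {q : ℕ} (hq : 0 < q) (X : ℕ) :
    (solSet q X).card ≤ q.divisors.card * (2 * X / q + 1) := by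
  rw [← Finset.card_range (2 * X / q + 1), ← Finset.card_product]
  apply Finset.card_le_card_of_injOn (fun ρ => (Nat.gcd q (ρ - 1), 2 * ρ / q))
  · intro ρ hρ
    simp only [solSet, coe_filter, mem_Icc, Set.mem_ofPred_eq] at hρ
    simp only [coe_product, Set.mem_prod, mem_coe, Nat.mem_divisors, mem_range]
    refine ⟨⟨Nat.gcd_dvd_left _ _, hq.ne'⟩, ?_⟩
    have : 2 * ρ / q ≤ 2 * X / q := Nat.div_le_div_right (by omega)
    omega
  · intro ρ hρ ρ' hρ' he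
    simp only [solSet, coe_filter, mem_Icc, Set.mem_ofPred_eq] at hρ hρ'
    simp only [Prod.mk.injEq] at he
    obtain ⟨hg, hf⟩ := he
    have hd := dvd_two_mul_sub hq hρ.1.1 hρ'.1.1 hρ.2 hρ'.2 hg
    have hmod : (2 * ρ) % q = (2 * ρ') % q := by
      have : (q : ℤ) ∣ ((2 * ρ : ℕ) : ℤ) - ((2 * ρ' : ℕ) : ℤ) := by
        push_cast
        have e : (2 : ℤ) * ρ - 2 * ρ' = 2 * ((ρ : ℤ) - ρ') := by ring
        rw [e]; exact hd
      exact ((Nat.modEq_iff_dvd.2 this).symm : _)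
    have h1 := Nat.div_add_mod (2 * ρ) q
    have h2 := Nat.div_add_mod (2 * ρ') q
    rw [hf, hmod] at h1
    omega

/-- the box of codes -/
def box (M : ℕ) : Finset ((_ : ℕ) × (ℕ × ℕ)) :=
  (Icc 1 M).sigma (fun q => solSet q q ×ˢ solSet q M)

theorem card_box (M : ℕ) :
    (box M).card = ∑ q ∈ Icc 1 M, (solSet q q).card * (solSet q M).card := by
  simp [box, Finset.card_sigma, Finset.card_product]

/-- a chain `p ≤ q ≤ z` with `pq + 1`, `qz + 1` squares and `4 p q z < N` is encoded by the box -/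
theorem chain_mem_box {p q z ρ ζ N : ℕ} (hp : 1 ≤ p) (hpq : p ≤ q) (hqz : q ≤ z)
    (h1 : p * q + 1 = ρ ^ 2) (h2 : q * z + 1 = ζ ^ 2) (hN : 4 * (p * q * z) < N) :
    (⟨q, (ρ, ζ)⟩ : (_ : ℕ) × (ℕ × ℕ)) ∈ box (Nat.sqrt N) ∧ p = (ρ ^ 2 - 1) / q ∧
      z = (ζ ^ 2 - 1) / q := by
  have hq : 1 ≤ q := hp.trans hpq
  have hρ : 1 ≤ ρ := by
    rcases Nat.eq_zero_or_pos ρ with h | h
    · rw [h] at h1; simp at h1
    · exact h
  have hζ : 1 ≤ ζ := by
    rcases Nat.eq_zero_or_pos ζ with h | h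
    · rw [h] at h2; simp at h2
    · exact h
  have e1 : ρ ^ 2 - 1 = q * p := by rw [← h1, mul_comm]; simp
  have e2 : ζ ^ 2 - 1 = q * z := by rw [← h2]; simp
  have hρq : ρ ≤ q := by
    by_contra hh
    push Not at hh
    have h3 : (q + 1) ^ 2 ≤ ρ ^ 2 := Nat.pow_le_pow_left hh 2
    have h4 : p * q ≤ q * q := Nat.mul_le_mul_right q hpq
    nlinarith
  have hqz' : q * z ≤ p * q * z := by
    have : 1 * (q * z) ≤ p * (q * z) := Nat.mul_le_mul_right _ hp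
    rw [one_mul] at this
    rw [mul_assoc]; exact this
  have hqM : q ≤ Nat.sqrt N := by
    rw [Nat.le_sqrt']
    have : q ^ 2 ≤ q * z := by rw [sq]; exact Nat.mul_le_mul_left q hqz
    omega
  have hζM : ζ ≤ Nat.sqrt N := by
    rw [Nat.le_sqrt']
    have : 1 ≤ q * z := Nat.mul_pos hq (hq.trans hqz)
    omega
  refine ⟨?_, ?_, ?_⟩
  · simp only [box, mem_sigma, mem_Icc, mem_product, solSet, mem_filter]
    exact ⟨⟨hq, hqM⟩, ⟨⟨hρ, hρq⟩, e1 ▸ Dvd.intro _ rfl⟩, ⟨hζ, hζM⟩, e2 ▸ Dvd.intro _ rfl⟩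
  · rw [e1]; exact (Nat.mul_div_cancel_left p hq).symm
  · rw [e2]; exact (Nat.mul_div_cancel_left z hq).symm

/-- the third element, recovered from `a, b, d` and a sign -/
def upC (a b d : ℕ) (e : Bool) : ℕ :=
  if e then (a + b + d + 2 * a * b * d) + 2 * Nat.sqrt ((a * b + 1) * (a * d + 1) * (b * d + 1))
  else (a + b + d + 2 * a * b * d) - 2 * Nat.sqrt ((a * b + 1) * (a * d + 1) * (b * d + 1))

/-- decoding -/
def decode : ((_ : ℕ) × (ℕ × ℕ)) × (Fin 3 × Bool) → ℕ × ℕ × ℕ :=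
  fun w =>
    let q := w.1.1
    let p := (w.1.2.1 ^ 2 - 1) / q
    let z := (w.1.2.2 ^ 2 - 1) / q
    if w.2.1 = 0 then (q, z, upC q z p w.2.2)
    else if w.2.1 = 1 then (p, z, upC p z q w.2.2)
    else (p, q, upC p q z w.2.2)

theorem upC_eq {a b c d r u v : ℕ} (h1 : a * b + 1 = r ^ 2) (h2 : a * d + 1 = u ^ 2)
    (h3 : b * d + 1 = v ^ 2)
    (h : ((c : ℤ) - (a + b + d + 2 * a * b * d)) ^ 2
      = 4 * (a * b + 1) * (a * d + 1) * (b * d + 1)) : ∃ e : Bool, c = upC a b d e := by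
  have hs : Nat.sqrt ((a * b + 1) * (a * d + 1) * (b * d + 1)) = r * u * v := by
    rw [h1, h2, h3, ← mul_pow, ← mul_pow]
    exact Nat.sqrt_eq' _
  have h1' : (a : ℤ) * b + 1 = (r : ℤ) ^ 2 := by exact_mod_cast h1
  have h2' : (a : ℤ) * d + 1 = (u : ℤ) ^ 2 := by exact_mod_cast h2
  have h3' : (b : ℤ) * d + 1 = (v : ℤ) ^ 2 := by exact_mod_cast h3
  rw [h1', h2', h3'] at h
  have h4 : ((c : ℤ) - (a + b + d + 2 * a * b * d) - 2 * (r * u * v))
      * ((c : ℤ) - (a + b + d + 2 * a * b * d) + 2 * (r * u * v)) = 0 := by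
    linear_combination h
  rcases mul_eq_zero.1 h4 with h5 | h5
  · refine ⟨true, ?_⟩
    simp only [upC, if_true, hs]
    have : (c : ℤ) = ((a + b + d + 2 * a * b * d + 2 * (r * u * v) : ℕ) : ℤ) := by
      push_cast; linarith
    exact_mod_cast this
  · refine ⟨false, ?_⟩
    simp only [upC, hs]
    have : ((c + 2 * (r * u * v) : ℕ) : ℤ) = ((a + b + d + 2 * a * b * d : ℕ) : ℤ) := by
      push_cast; linarith
    have h6 : c + 2 * (r * u * v) = a + b + d + 2 * a * b * d := by exact_mod_cast this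
    simp only [Bool.false_eq_true, if_false]
    omega

/-- every triple with a descent is in the image of `decode` -/
theorem triple_mem_image {a b c d r u v N : ℕ} (ha : 1 ≤ a) (hab : a < b) (hd : 1 ≤ d)
    (hN : 4 * (a * b * d) < N)
    (h1 : a * b + 1 = r ^ 2) (h2 : a * d + 1 = u ^ 2) (h3 : b * d + 1 = v ^ 2)
    (h : ((c : ℤ) - (a + b + d + 2 * a * b * d)) ^ 2
      = 4 * (a * b + 1) * (a * d + 1) * (b * d + 1)) :
    (a, b, c) ∈ (box (Nat.sqrt N) ×ˢ (univ : Finset (Fin 3 × Bool))).image decode := by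
  obtain ⟨e, he⟩ := upC_eq h1 h2 h3 h
  rw [Finset.mem_image]
  rcases le_or_gt d a with hda | hda
  · -- d ≤ a < b
    have h2' : d * a + 1 = u ^ 2 := by rw [mul_comm]; exact h2
    have hN' : 4 * (d * a * b) < N := by
      have : d * a * b = a * b * d := by ring
      rw [this]; exact hN
    obtain ⟨m1, m2, m3⟩ := chain_mem_box hd hda hab.le h2' h1 hN'
    refine ⟨(⟨a, (u, r)⟩, (0, e)), ?_, ?_⟩
    · exact mem_product.2 ⟨m1, mem_univ _⟩
    · simp only [decode, if_true]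
      rw [← m2, ← m3, he]
  · rcases le_or_gt d b with hdb | hdb
    · -- a < d ≤ b
      have h3' : d * b + 1 = v ^ 2 := by rw [mul_comm]; exact h3
      have hN' : 4 * (a * d * b) < N := by
        have : a * d * b = a * b * d := by ring
        rw [this]; exact hN
      obtain ⟨m1, m2, m3⟩ := chain_mem_box ha hda.le hdb h2 h3' hN'
      refine ⟨(⟨d, (u, v)⟩, (1, e)), ?_, ?_⟩
      · exact mem_product.2 ⟨m1, mem_univ _⟩
      · simp only [decode, one_ne_zero, if_false, if_true]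
        rw [← m2, ← m3, he]
    · -- a < b < d
      obtain ⟨m1, m2, m3⟩ := chain_mem_box ha hab.le hdb.le h1 h3 hN
      refine ⟨(⟨b, (r, v)⟩, (2, e)), ?_, ?_⟩
      · exact mem_product.2 ⟨m1, mem_univ _⟩
      · have e20 : ¬ ((2 : Fin 3) = 0) := by decide
        have e21 : ¬ ((2 : Fin 3) = 1) := by decide
        simp only [decode, e20, e21, if_false]
        rw [← m2, ← m3, he]

/-- A set of triples all of which have a descent has at most `6 |box|` elements. -/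
theorem card_le_box {S : Finset (ℕ × ℕ × ℕ)} {N : ℕ}
    (hS : ∀ a b c : ℕ, (a, b, c) ∈ S → ∃ d r u v : ℕ, 1 ≤ a ∧ a < b ∧ 1 ≤ d ∧
      4 * (a * b * d) < N ∧ a * b + 1 = r ^ 2 ∧ a * d + 1 = u ^ 2 ∧ b * d + 1 = v ^ 2 ∧
      ((c : ℤ) - (a + b + d + 2 * a * b * d)) ^ 2
        = 4 * (a * b + 1) * (a * d + 1) * (b * d + 1)) :
    S.card ≤ 6 * (box (Nat.sqrt N)).card := by
  have hsub : S ⊆ (box (Nat.sqrt N) ×ˢ (univ : Finset (Fin 3 × Bool))).image decode := by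
    rintro ⟨a, b, c⟩ hx
    obtain ⟨d, r, u, v, g1, g2, g3, g4, g5, g6, g7, g8⟩ := hS a b c hx
    exact triple_mem_image g1 g2 g3 g4 g5 g6 g7 g8
  calc S.card ≤ _ := Finset.card_le_card hsub
    _ ≤ (box (Nat.sqrt N) ×ˢ (univ : Finset (Fin 3 × Bool))).card := Finset.card_image_le
    _ = 6 * (box (Nat.sqrt N)).card := by
      rw [Finset.card_product, mul_comm]
      congr 1

/-- bound for the size of the box -/
theorem card_box_le {ε : ℝ} (hε : 0 < ε) :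
    ∃ C : ℝ, 0 < C ∧ ∀ M : ℕ, 1 ≤ M → ((box M).card : ℝ) ≤ C * (M : ℝ) ^ (1 + ε) := by
  obtain ⟨A, hA1, hA⟩ := tau_le (δ := ε / 3) (by positivity)
  refine ⟨9 * A ^ 2 * (1 + 3 / ε), by positivity, fun M hM => ?_⟩
  have hM1 : (1 : ℝ) ≤ M := by exact_mod_cast hM
  have hM0 : (0 : ℝ) < M := by linarith
  have hterm : ∀ q ∈ Icc 1 M, (((solSet q q).card * (solSet q M).card : ℕ) : ℝ)
      ≤ 9 * A ^ 2 * (M : ℝ) ^ (2 * ε / 3) * M * ((q : ℝ))⁻¹ := by
    intro q hq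
    rw [mem_Icc] at hq
    have hq0 : 0 < q := hq.1
    have hqr : (0 : ℝ) < q := by exact_mod_cast hq0
    have h1 := card_solSet_le hq0 q
    have h2 := card_solSet_le hq0 M
    have e1 : 2 * q / q + 1 = 3 := by
      rw [Nat.mul_div_cancel _ hq0]
    rw [e1] at h1
    have h3 : (((2 * M / q + 1 : ℕ)) : ℝ) ≤ 3 * M * ((q : ℝ))⁻¹ := by
      have h4 : (((2 * M / q : ℕ)) : ℝ) ≤ ((2 * M : ℕ) : ℝ) / q := Nat.cast_div_le
      have h5 : (1 : ℝ) ≤ M * ((q : ℝ))⁻¹ := by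
        have : (q : ℝ) ≤ M := by exact_mod_cast hq.2
        rw [← div_eq_mul_inv, le_div_iff₀ hqr]; linarith
      push_cast at h4 ⊢
      rw [div_eq_mul_inv] at h4
      nlinarith
    have hτ : ((q.divisors.card : ℕ) : ℝ) ≤ A * (M : ℝ) ^ (ε / 3) := by
      refine (hA q hq0.ne').trans ?_
      apply mul_le_mul_of_nonneg_left _ (by linarith)
      apply Real.rpow_le_rpow hqr.le (by exact_mod_cast hq.2) (by positivity)
    have hτ0 : (0 : ℝ) ≤ ((q.divisors.card : ℕ) : ℝ) := Nat.cast_nonneg _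
    have h6 : (((solSet q q).card : ℕ) : ℝ) ≤ A * (M : ℝ) ^ (ε / 3) * 3 := by
      have : (((solSet q q).card : ℕ) : ℝ) ≤ ((q.divisors.card * 3 : ℕ) : ℝ) := by
        exact_mod_cast h1
      push_cast at this
      linarith
    have h7 : (((solSet q M).card : ℕ) : ℝ) ≤ (A * (M : ℝ) ^ (ε / 3)) * (3 * M * ((q : ℝ))⁻¹) := by
      have : (((solSet q M).card : ℕ) : ℝ) ≤ ((q.divisors.card * (2 * M / q + 1) : ℕ) : ℝ) := by
        exact_mod_cast h2
      refine this.trans ?_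
      rw [Nat.cast_mul]
      exact mul_le_mul hτ h3 (Nat.cast_nonneg _) (by positivity)
    have hpow : (M : ℝ) ^ (ε / 3) * (M : ℝ) ^ (ε / 3) = (M : ℝ) ^ (2 * ε / 3) := by
      rw [← Real.rpow_add hM0]; congr 1; ring
    rw [Nat.cast_mul]
    calc (((solSet q q).card : ℕ) : ℝ) * (((solSet q M).card : ℕ) : ℝ)
        ≤ (A * (M : ℝ) ^ (ε / 3) * 3) * ((A * (M : ℝ) ^ (ε / 3)) * (3 * M * ((q : ℝ))⁻¹)) :=
          mul_le_mul h6 h7 (Nat.cast_nonneg _) (by positivity)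
      _ = 9 * A ^ 2 * ((M : ℝ) ^ (ε / 3) * (M : ℝ) ^ (ε / 3)) * M * ((q : ℝ))⁻¹ := by ring
      _ = _ := by rw [hpow]
  rw [card_box]
  have hcast : (((∑ q ∈ Icc 1 M, (solSet q q).card * (solSet q M).card : ℕ)) : ℝ)
      = ∑ q ∈ Icc 1 M, (((solSet q q).card * (solSet q M).card : ℕ) : ℝ) := by
    rw [Nat.cast_sum]
  rw [hcast]
  have hharm : ∑ q ∈ Icc 1 M, ((q : ℝ))⁻¹ ≤ 1 + Real.log M := by
    have h := harmonic_le_one_add_log M
    rw [harmonic_eq_sum_Icc] at h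
    push_cast at h
    exact h
  have hlog : Real.log M ≤ (3 / ε) * (M : ℝ) ^ (ε / 3) := by
    have := Real.log_le_rpow_div hM0.le (show 0 < ε / 3 by positivity)
    calc Real.log M ≤ (M : ℝ) ^ (ε / 3) / (ε / 3) := this
      _ = _ := by field_simp
  have hone : (1 : ℝ) ≤ (M : ℝ) ^ (ε / 3) := Real.one_le_rpow hM1 (by positivity)
  calc ∑ q ∈ Icc 1 M, (((solSet q q).card * (solSet q M).card : ℕ) : ℝ)
      ≤ ∑ q ∈ Icc 1 M, 9 * A ^ 2 * (M : ℝ) ^ (2 * ε / 3) * M * ((q : ℝ))⁻¹ :=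
        Finset.sum_le_sum hterm
    _ = 9 * A ^ 2 * (M : ℝ) ^ (2 * ε / 3) * M * ∑ q ∈ Icc 1 M, ((q : ℝ))⁻¹ := by
        rw [Finset.mul_sum]
    _ ≤ 9 * A ^ 2 * (M : ℝ) ^ (2 * ε / 3) * M * ((1 + 3 / ε) * (M : ℝ) ^ (ε / 3)) := by
        apply mul_le_mul_of_nonneg_left _ (by positivity)
        refine hharm.trans ?_
        have : (1 + 3 / ε) * (M : ℝ) ^ (ε / 3)
          = (M : ℝ) ^ (ε / 3) + (3 / ε) * (M : ℝ) ^ (ε / 3) := by ring
        rw [this]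
        linarith
    _ = 9 * A ^ 2 * (1 + 3 / ε) * ((M : ℝ) ^ (2 * ε / 3) * M * (M : ℝ) ^ (ε / 3)) := by ring
    _ = 9 * A ^ 2 * (1 + 3 / ε) * (M : ℝ) ^ (1 + ε) := by
        congr 1
        have e1 : (M : ℝ) = (M : ℝ) ^ (1 : ℝ) := (Real.rpow_one _).symm
        conv_lhs =>
          enter [1, 2]
          rw [e1]
        rw [← Real.rpow_add hM0, ← Real.rpow_add hM0]
        congr 1
        ring

/-- the bound `O(N^{1/2 + ε})` -/
theorem six_box_le {ε : ℝ} (hε : 0 < ε) :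
    ∃ C : ℝ, 0 < C ∧ ∀ N : ℕ, 1 ≤ N →
      ((6 * (box (Nat.sqrt N)).card : ℕ) : ℝ) ≤ C * (N : ℝ) ^ (1 / 2 + ε) := by
  obtain ⟨C, hC, h⟩ := card_box_le (ε := 2 * ε) (by positivity)
  refine ⟨6 * C, by positivity, fun N hN => ?_⟩
  have hN0 : (0 : ℝ) < N := by exact_mod_cast hN
  have hs : 1 ≤ Nat.sqrt N := Nat.sqrt_pos.2 hN
  have h1 := h (Nat.sqrt N) hs
  have h2 : ((Nat.sqrt N : ℕ) : ℝ) ≤ (N : ℝ) ^ (1 / 2 : ℝ) := by
    rw [← Real.sqrt_eq_rpow]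
    exact Real.nat_sqrt_le_real_sqrt
  have h3 : ((Nat.sqrt N : ℕ) : ℝ) ^ (1 + 2 * ε) ≤ (N : ℝ) ^ (1 / 2 + ε) := by
    calc ((Nat.sqrt N : ℕ) : ℝ) ^ (1 + 2 * ε) ≤ ((N : ℝ) ^ (1 / 2 : ℝ)) ^ (1 + 2 * ε) :=
          Real.rpow_le_rpow (Nat.cast_nonneg _) h2 (by positivity)
      _ = (N : ℝ) ^ (1 / 2 + ε) := by
          rw [← Real.rpow_mul hN0.le]; congr 1; ring
  push_cast
  calc (6 : ℝ) * ((box (Nat.sqrt N)).card : ℝ) ≤ 6 * (C * ((Nat.sqrt N : ℕ) : ℝ) ^ (1 + 2 * ε)) := by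
        linarith
    _ ≤ 6 * (C * (N : ℝ) ^ (1 / 2 + ε)) := by
        apply mul_le_mul_of_nonneg_left _ (by norm_num)
        exact mul_le_mul_of_nonneg_left h3 hC.le
    _ = _ := by ring

end Pool.Agent.Work.MP_71a505_nt
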