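import Mathlib

/-!
Local analysis of the point `(0, abc)` at a prime `p`.
-/

namespace Pool.Agent.Work.MP_71a505_nt

/-- a natural number all of whose exponents are divisible by 3 is a cube -/
theorem nat_cube {n : ℕ} (hn : n ≠ 0) (h : ∀ p : ℕ, p.Prime → 3 ∣ n.factorization p) :
    ∃ k : ℕ, k ^ 3 = n := by
  refine ⟨n.factorization.prod (fun p e => p ^ (e / 3)), ?_⟩
  have h1 := Nat.prod_factorization_pow_eq_self hn
  conv_rhs => rw [← h1]
  unfold Finsupp.prod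
  rw [← Finset.prod_pow]
  apply Finset.prod_congr rfl
  intro p hp
  rw [← pow_mul, Nat.div_mul_cancel (h p (Nat.prime_of_mem_primeFactors (by simpa using hp)))]

/-- taking out the common power of `p` -/
theorem common_pow {p : ℤ} (hp : Prime p) : ∀ (k : ℕ) (α β : ℤ), α ≠ 0 → α.natAbs ≤ k →
    ∃ (n : ℕ) (α' β' : ℤ), α = p ^ n * α' ∧ β = p ^ n * β' ∧ ¬ (p ∣ α' ∧ p ∣ β') := by
  intro k
  induction k with
  | zero =>
    intro α β hα hk
    omega
  | succ k ih =>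
    intro α β hα hk
    by_cases hd : p ∣ α ∧ p ∣ β
    · obtain ⟨⟨α', hα'⟩, ⟨β', hβ'⟩⟩ := hd
      have hα0 : α' ≠ 0 := by
        rintro rfl
        exact hα (by rw [hα', mul_zero])
      have hp2 : 2 ≤ p.natAbs := (Int.prime_iff_natAbs_prime.1 hp).two_le
      have h1 : 1 ≤ α'.natAbs := Int.natAbs_pos.2 hα0
      have h2 : α.natAbs = p.natAbs * α'.natAbs := by rw [hα', Int.natAbs_mul]
      have h3 : α'.natAbs ≤ k := by nlinarith
      obtain ⟨n, u, v, hu, hv, huv⟩ := ih α' β' hα0 h3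
      refine ⟨n + 1, u, v, ?_, ?_, huv⟩
      · rw [hα', hu]; ring
      · rw [hβ', hv]; ring
    · exact ⟨0, α, β, by ring, by ring, hd⟩

theorem not_dvd_sq_of {p x α α' y : ℤ} {n : ℕ} (hp : Prime p) (hα : α = p ^ n * α')
    (h' : ¬ p ∣ α') (hx : α ^ 2 = x + y) (hy : p ^ (2 * n + 1) ∣ y) : ¬ p ^ (2 * n + 1) ∣ x := by
  intro h
  have h1 : p ^ (2 * n + 1) ∣ α ^ 2 := by rw [hx]; exact dvd_add h hy
  have h2 : α ^ 2 = p ^ (2 * n) * α' ^ 2 := by rw [hα]; ring
  rw [h2, pow_succ] at h1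
  have h3 : p ∣ α' ^ 2 := (mul_dvd_mul_iff_left (pow_ne_zero _ hp.ne_zero)).1 h1
  exact h' (hp.dvd_of_dvd_pow h3)

theorem local_one {p a b c x α β γ : ℤ} (hp : Prime p) (hx : p ∣ x) (pa : p ∣ a)
    (pb : ¬ p ∣ b) (pc : ¬ p ∣ c) (pcb : ¬ p ∣ c - b)
    (ha : α ^ 2 = x + a * b) (hb : β ^ 2 = x + a * c) (hc : γ ^ 2 = x + b * c)
    (hs : α * β + β * γ + γ * α = 0) (hα : α ≠ 0) :
    ∃ n : ℕ, 1 ≤ n ∧ p ^ (2 * n) ∣ x ∧ ¬ p ^ (2 * n + 1) ∣ x ∧ p ^ (3 * n) ∣ a := by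
  obtain ⟨n, u, v, hu, hv, huv⟩ := common_pow hp α.natAbs α β hα le_rfl
  have pα : p ∣ α := by
    apply hp.dvd_of_dvd_pow (n := 2)
    rw [ha]
    exact dvd_add hx (Dvd.dvd.mul_right pa _)
  have pβ : p ∣ β := by
    apply hp.dvd_of_dvd_pow (n := 2)
    rw [hb]
    exact dvd_add hx (Dvd.dvd.mul_right pa _)
  have pγ : ¬ p ∣ γ := by
    intro h
    have h1 : p ∣ γ ^ 2 := dvd_pow h two_ne_zero
    rw [hc] at h1
    have h2 := (dvd_add_right hx).1 h1
    rcases hp.dvd_or_dvd h2 with h3 | h3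
    · exact pb h3
    · exact pc h3
  have hn : 1 ≤ n := by
    rcases Nat.eq_zero_or_pos n with h0 | h0
    · exfalso
      apply huv
      rw [h0, pow_zero, one_mul] at hu hv
      rw [← hu, ← hv]
      exact ⟨pα, pβ⟩
    · exact h0
  have hid : (γ * (c - b)) * a = α * β * (α - β) := by
    linear_combination γ * ha - γ * hb + (β - α) * hs
  have hpa : p ^ (3 * n) ∣ a := by
    apply hp.pow_dvd_of_dvd_mul_left (3 * n) (a := γ * (c - b))
    · intro h
      rcases hp.dvd_or_dvd h with h3 | h3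
      · exact pγ h3
      · exact pcb h3
    · rw [hid]
      refine ⟨u * v * (u - v), ?_⟩
      rw [hu, hv]; ring
  have h2n : p ^ (2 * n) ∣ a := (pow_dvd_pow p (by omega)).trans hpa
  have h2n1 : p ^ (2 * n + 1) ∣ a := (pow_dvd_pow p (by omega)).trans hpa
  refine ⟨n, hn, ?_, ?_, hpa⟩
  · have h1 : x = α ^ 2 - a * b := by linarith
    rw [h1]
    apply dvd_sub
    · exact ⟨u ^ 2, by rw [hu]; ring⟩
    · exact Dvd.dvd.mul_right h2n _
  · by_cases h3 : p ∣ u
    · have h4 : ¬ p ∣ v := fun h => huv ⟨h3, h⟩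
      exact not_dvd_sq_of hp hv h4 hb (Dvd.dvd.mul_right h2n1 _)
    · exact not_dvd_sq_of hp hu h3 ha (Dvd.dvd.mul_right h2n1 _)

theorem local_two {p a b c x α β γ : ℤ} (hp : Prime p) (hx : p ∣ x) (pa : p ∣ a)
    (pb : p ∣ b) (pc : ¬ p ∣ c)
    (ha : α ^ 2 = x + a * b) (hb : β ^ 2 = x + a * c) (hc : γ ^ 2 = x + b * c)
    (hs : α * β + β * γ + γ * α = 0) (hα : α ≠ 0) :
    ∃ n : ℕ, 1 ≤ n ∧ p ^ (2 * n) ∣ x ∧ ¬ p ^ (2 * n + 1) ∣ x ∧ p ^ (3 * n) ∣ a * b := by
  obtain ⟨n, u, v, hu, hv, huv⟩ := common_pow hp α.natAbs α 0 hα le_rfl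
  have hpu : ¬ p ∣ u := by
    intro h
    apply huv
    refine ⟨h, ?_⟩
    have h0 : v = 0 := by
      rcases mul_eq_zero.1 hv.symm with h1 | h1
      · exact absurd h1 (pow_ne_zero _ hp.ne_zero)
      · exact h1
    rw [h0]
    exact dvd_zero _
  have pα : p ∣ α := by
    apply hp.dvd_of_dvd_pow (n := 2)
    rw [ha]
    exact dvd_add hx (Dvd.dvd.mul_right pa _)
  have pβ : p ∣ β := by
    apply hp.dvd_of_dvd_pow (n := 2)
    rw [hb]
    exact dvd_add hx (Dvd.dvd.mul_right pa _)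
  have pγ : p ∣ γ := by
    apply hp.dvd_of_dvd_pow (n := 2)
    rw [hc]
    exact dvd_add hx (Dvd.dvd.mul_right pb _)
  have hn : 1 ≤ n := by
    rcases Nat.eq_zero_or_pos n with h0 | h0
    · exfalso
      apply hpu
      rw [h0, pow_zero, one_mul] at hu
      rw [← hu]
      exact pα
    · exact h0
  have hid : ((c - a) * (c - b)) * (a * b) = α ^ 3 * (α - 2 * β - 2 * γ) := by
    have e1 : a * (c - b) = β ^ 2 - α ^ 2 := by linear_combination ha - hb
    have e2 : b * (c - a) = γ ^ 2 - α ^ 2 := by linear_combination ha - hc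
    have e3 : ((c - a) * (c - b)) * (a * b) = (a * (c - b)) * (b * (c - a)) := by ring
    rw [e3, e1, e2]
    linear_combination (β * γ - α * β - γ * α + 2 * α ^ 2) * hs
  obtain ⟨w, hw⟩ : p ∣ α - 2 * β - 2 * γ :=
    dvd_sub (dvd_sub pα (Dvd.dvd.mul_left pβ _)) (Dvd.dvd.mul_left pγ _)
  have hpab : p ^ (3 * n + 1) ∣ a * b := by
    apply hp.pow_dvd_of_dvd_mul_left (3 * n + 1) (a := (c - a) * (c - b))
    · intro h
      rcases hp.dvd_or_dvd h with h3 | h3
      · exact pc ((dvd_sub_left pa).1 h3)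
      · exact pc ((dvd_sub_left pb).1 h3)
    · rw [hid, hw]
      refine ⟨u ^ 3 * w, ?_⟩
      rw [hu]; ring
  refine ⟨n, hn, ?_, ?_, (pow_dvd_pow p (by omega)).trans hpab⟩
  · have h1 : x = α ^ 2 - a * b := by linarith
    rw [h1]
    apply dvd_sub
    · exact ⟨u ^ 2, by rw [hu]; ring⟩
    · exact (pow_dvd_pow p (by omega)).trans hpab
  · exact not_dvd_sq_of hp hu hpu ha ((pow_dvd_pow p (by omega)).trans hpab)

/-- combination of the cases -/
theorem local_all {p a b c x α β γ : ℤ} (hp : Prime p) (hx : p ∣ x) (habc : p ∣ a * b * c)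
    (G1 : ¬ (p ∣ a ∧ p ∣ c - b)) (G2 : ¬ (p ∣ b ∧ p ∣ c - a)) (G3 : ¬ (p ∣ c ∧ p ∣ b - a))
    (ha : α ^ 2 = x + a * b) (hb : β ^ 2 = x + a * c) (hc : γ ^ 2 = x + b * c)
    (hs : α * β + β * γ + γ * α = 0) (hα : α ≠ 0) (hβ : β ≠ 0) (hγ : γ ≠ 0) :
    ∃ n : ℕ, 1 ≤ n ∧ p ^ (2 * n) ∣ x ∧ ¬ p ^ (2 * n + 1) ∣ x ∧ p ^ (3 * n) ∣ a * b * c := by
  by_cases pa : p ∣ a
  · by_cases pb : p ∣ b
    · have pc : ¬ p ∣ c := fun pc => G1 ⟨pa, dvd_sub pc pb⟩
      obtain ⟨n, h1, h2, h3, h4⟩ := local_two hp hx pa pb pc ha hb hc hs hα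
      exact ⟨n, h1, h2, h3, Dvd.dvd.mul_right h4 _⟩
    · by_cases pc : p ∣ c
      · -- a, c
        obtain ⟨n, h1, h2, h3, h4⟩ := local_two (a := a) (b := c) (c := b) (α := β) (β := α)
          (γ := γ) hp hx pa pc pb hb ha (by rw [hc]; ring) (by linear_combination hs) hβ
        refine ⟨n, h1, h2, h3, ?_⟩
        have e : a * b * c = (a * c) * b := by ring
        rw [e]
        exact Dvd.dvd.mul_right h4 _
      · -- only a
        have pcb : ¬ p ∣ c - b := fun h => G1 ⟨pa, h⟩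
        obtain ⟨n, h1, h2, h3, h4⟩ := local_one hp hx pa pb pc pcb ha hb hc hs hα
        refine ⟨n, h1, h2, h3, ?_⟩
        rw [mul_assoc]
        exact Dvd.dvd.mul_right h4 _
  · by_cases pb : p ∣ b
    · by_cases pc : p ∣ c
      · -- b, c
        obtain ⟨n, h1, h2, h3, h4⟩ := local_two (a := b) (b := c) (c := a) (α := γ) (β := α)
          (γ := β) hp hx pb pc pa hc (by rw [ha]; ring) (by rw [hb]; ring)
          (by linear_combination hs) hγ
        refine ⟨n, h1, h2, h3, ?_⟩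
        have e : a * b * c = (b * c) * a := by ring
        rw [e]
        exact Dvd.dvd.mul_right h4 _
      · -- only b
        have pca : ¬ p ∣ c - a := fun h => G2 ⟨pb, h⟩
        obtain ⟨n, h1, h2, h3, h4⟩ := local_one (a := b) (b := a) (c := c) (α := α) (β := γ)
          (γ := β) hp hx pb pa pc pca (by rw [ha]; ring) hc hb (by linear_combination hs) hα
        refine ⟨n, h1, h2, h3, ?_⟩
        have e : a * b * c = b * (a * c) := by ring
        rw [e]
        exact Dvd.dvd.mul_right h4 _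
    · by_cases pc : p ∣ c
      · -- only c
        have pba : ¬ p ∣ b - a := fun h => G3 ⟨pc, h⟩
        obtain ⟨n, h1, h2, h3, h4⟩ := local_one (a := c) (b := a) (c := b) (α := β) (β := γ)
          (γ := α) hp hx pc pa pb pba (by rw [hb]; ring) (by rw [hc]; ring) ha
          (by linear_combination hs) hβ
        refine ⟨n, h1, h2, h3, ?_⟩
        exact Dvd.dvd.mul_left h4 _
      · exfalso
        rcases hp.dvd_or_dvd habc with h1 | h1
        · rcases hp.dvd_or_dvd h1 with h2 | h2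
          · exact pa h2
          · exact pb h2
        · exact pc h1

end Pool.Agent.Work.MP_71a505_nt
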