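import Mathlib
import Pool.Agent.Work.MP_71a505_nt.Local

namespace Pool.Agent.Work.MP_71a505_nt

theorem fac_min {p n1 n2 M : ℕ} (hp : p.Prime) (h1 : n1 ≠ 0) (h2 : n2 ≠ 0) (hM : M ≠ 0)
    (h : n2 = n1 + M) (hne : n1.factorization p ≠ n2.factorization p) :
    M.factorization p = min (n1.factorization p) (n2.factorization p) := by
  apply le_antisymm
  · by_contra hh
    push Not at hh
    have h5 : p ^ (min (n1.factorization p) (n2.factorization p) + 1) ∣ M :=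
      (hp.pow_dvd_iff_le_factorization hM).2 hh
    rcases lt_or_gt_of_ne hne with h6 | h6
    · rw [min_eq_left h6.le] at h5
      have h7 : p ^ (n1.factorization p + 1) ∣ n2 := (hp.pow_dvd_iff_le_factorization h2).2 h6
      rw [h] at h7
      have h8 := (Nat.dvd_add_left h5).1 h7
      have := (hp.pow_dvd_iff_le_factorization h1).1 h8
      omega
    · rw [min_eq_right h6.le] at h5
      have h7 : p ^ (n2.factorization p + 1) ∣ n1 := (hp.pow_dvd_iff_le_factorization h1).2 h6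
      have h8 : p ^ (n2.factorization p + 1) ∣ n1 + M := dvd_add h7 h5
      rw [← h] at h8
      have := (hp.pow_dvd_iff_le_factorization h2).1 h8
      omega
  · apply (hp.pow_dvd_iff_le_factorization hM).1
    have h7 : p ^ (min (n1.factorization p) (n2.factorization p)) ∣ n1 :=
      (hp.pow_dvd_iff_le_factorization h1).2 (min_le_left _ _)
    have h8 : p ^ (min (n1.factorization p) (n2.factorization p)) ∣ n2 :=
      (hp.pow_dvd_iff_le_factorization h2).2 (min_le_right _ _)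
    have h9 : p ^ (min (n1.factorization p) (n2.factorization p)) ∣ n1 + M := by
      rw [← h]; exact h8
    exact (Nat.dvd_add_right h7).1 h9

/-- the arithmetic of the exponents -/
theorem exps {v1 v2 w M : ℕ} (hsum : v1 + v2 = 3 * w) (hne : v1 ≠ v2) (hmin : M = min v1 v2)
    (h3 : 3 ∣ M) : 3 ∣ v1 ∧ 3 ∣ v2 := by
  omega

theorem exps' {v1 v2 w M n : ℕ} (hsum : v1 + v2 = 3 * w) (hne : v1 ≠ v2) (hmin : M = min v1 v2)
    (l1 : w = 2 * n) (l3 : 3 * n ≤ M) : False := by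
  omega

theorem exps'' {v1 v2 w : ℕ} (hsum : v1 + v2 = 3 * w) (hne : v1 = v2) : 3 ∣ v1 ∧ 3 ∣ v2 := by
  omega

theorem exps3 {v1 v2 w M : ℕ} (hsum : v1 + v2 = 3 * w) (hmin : M = min v1 v2) (h : M ≠ 0) :
    w ≠ 0 := by
  omega

theorem dvd_of_fac {p n : ℕ} (h : n.factorization p ≠ 0) : p ∣ n := by
  exact Nat.dvd_of_factorization_pos h

/-- the factors `m - abc`, `m + abc` have all exponents divisible by 3 -/
theorem three_dvd_fac {p n1 n2 X M : ℕ} {a b c α β γ : ℤ} (hp : p.Prime)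
    (h1 : n1 ≠ 0) (h2 : n2 ≠ 0) (hX : X ≠ 0) (hM : M ≠ 0)
    (h : n2 = n1 + 2 * M) (hprod : n1 * n2 = X ^ 3) (hMabc : (M : ℤ) = a * b * c)
    (h2M : 2 ∣ M)
    (ha : α ^ 2 = X + a * b) (hb : β ^ 2 = X + a * c) (hc : γ ^ 2 = X + b * c)
    (hs : α * β + β * γ + γ * α = 0) (hα : α ≠ 0) (hβ : β ≠ 0) (hγ : γ ≠ 0)
    (H : ¬ 3 ∣ (2 * M).factorization p →
      ¬ ((p : ℤ) ∣ a ∧ (p : ℤ) ∣ c - b) ∧ ¬ ((p : ℤ) ∣ b ∧ (p : ℤ) ∣ c - a) ∧
        ¬ ((p : ℤ) ∣ c ∧ (p : ℤ) ∣ b - a)) :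
    3 ∣ n1.factorization p ∧ 3 ∣ n2.factorization p := by
  have hsum : n1.factorization p + n2.factorization p = 3 * X.factorization p := by
    have e1 : (n1 * n2).factorization p = (X ^ 3).factorization p := by rw [hprod]
    rw [Nat.factorization_mul h1 h2, Nat.factorization_pow] at e1
    simpa using e1
  have h2M0 : 2 * M ≠ 0 := Nat.mul_ne_zero two_ne_zero hM
  by_cases hne : n1.factorization p = n2.factorization p
  · exact exps'' hsum hne
  have hmin := fac_min hp h1 h2 h2M0 h hne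
  by_cases h3 : 3 ∣ (2 * M).factorization p
  · exact exps hsum hne hmin h3
  exfalso
  obtain ⟨G1, G2, G3⟩ := H h3
  have hpos : (2 * M).factorization p ≠ 0 := by
    intro h0
    apply h3
    rw [h0]
    exact dvd_zero _
  have hp2M : p ∣ 2 * M := dvd_of_fac hpos
  have hpM : p ∣ M := by
    rcases (hp.dvd_mul).1 hp2M with h5 | h5
    · have h6 : p = 2 := (Nat.prime_dvd_prime_iff_eq hp Nat.prime_two).1 h5
      rw [h6]
      exact h2M
    · exact h5
  have hpX : p ∣ X := dvd_of_fac (exps3 hsum hmin hpos)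
  have hpi : Prime (p : ℤ) := Nat.prime_iff_prime_int.1 hp
  have hpXi : (p : ℤ) ∣ (X : ℤ) := Int.natCast_dvd_natCast.2 hpX
  have hpMi : (p : ℤ) ∣ a * b * c := by rw [← hMabc]; exact Int.natCast_dvd_natCast.2 hpM
  obtain ⟨n, hn, k1, k2, k3⟩ := local_all hpi hpXi hpMi G1 G2 G3 ha hb hc hs hα hβ hγ
  have k1' : p ^ (2 * n) ∣ X := by
    rw [← Int.natCast_dvd_natCast]
    push_cast
    exact k1
  have k2' : ¬ p ^ (2 * n + 1) ∣ X := by
    intro hh
    apply k2
    have := Int.natCast_dvd_natCast.2 hh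
    push_cast at this
    exact this
  have k3' : p ^ (3 * n) ∣ M := by
    rw [← hMabc] at k3
    rw [← Int.natCast_dvd_natCast]
    push_cast
    exact k3
  have l1 : 2 * n ≤ X.factorization p := (hp.pow_dvd_iff_le_factorization hX).1 k1'
  have l2 : ¬ 2 * n + 1 ≤ X.factorization p := fun hh =>
    k2' ((hp.pow_dvd_iff_le_factorization hX).2 hh)
  have l3 : 3 * n ≤ (2 * M).factorization p :=
    (hp.pow_dvd_iff_le_factorization h2M0).1 (Dvd.dvd.mul_left k3' 2)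
  have l4 : X.factorization p = 2 * n := le_antisymm (Nat.lt_succ_iff.1 (not_le.1 l2)) l1
  exact exps' hsum hne hmin l4 l3

/-- Under the local hypothesis, `m + abc` is the cube of an integer `ν` with `ν ^ 2 > x`. -/
theorem P_cube {a b c x m α β γ : ℤ} (hx : 0 < x) (hM : 0 < a * b * c) (hm : 0 < m)
    (h3 : m ^ 2 = (a * b * c) ^ 2 + x ^ 3) (h2M : (2 : ℤ) ∣ a * b * c)
    (ha : α ^ 2 = x + a * b) (hb : β ^ 2 = x + a * c) (hc : γ ^ 2 = x + b * c)
    (hs : α * β + β * γ + γ * α = 0) (hα : α ≠ 0) (hβ : β ≠ 0) (hγ : γ ≠ 0)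
    (H : ∀ p : ℕ, p.Prime → ¬ 3 ∣ (2 * (a * b * c)).natAbs.factorization p →
      ¬ ((p : ℤ) ∣ a ∧ (p : ℤ) ∣ c - b) ∧ ¬ ((p : ℤ) ∣ b ∧ (p : ℤ) ∣ c - a) ∧
        ¬ ((p : ℤ) ∣ c ∧ (p : ℤ) ∣ b - a)) :
    ∃ ν : ℤ, 0 < ν ∧ ν ^ 3 = m + a * b * c ∧ x < ν ^ 2 := by
  have hlt : a * b * c < m := by
    have : (a * b * c) ^ 2 < m ^ 2 := by
      rw [h3]
      have : 0 < x ^ 3 := by positivity
      linarith
    exact lt_of_pow_lt_pow_left₀ 2 hm.le this
  obtain ⟨n1, hn1⟩ := Int.eq_ofNat_of_zero_le (show 0 ≤ m - a * b * c by linarith)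
  obtain ⟨n2, hn2⟩ := Int.eq_ofNat_of_zero_le (show 0 ≤ m + a * b * c by linarith)
  obtain ⟨X, hX⟩ := Int.eq_ofNat_of_zero_le hx.le
  obtain ⟨M, hMM⟩ := Int.eq_ofNat_of_zero_le hM.le
  have e1 : n2 = n1 + 2 * M := by
    have : (n2 : ℤ) = n1 + 2 * M := by rw [← hn1, ← hn2, ← hMM]; ring
    exact_mod_cast this
  have e2 : n1 * n2 = X ^ 3 := by
    have : (n1 : ℤ) * n2 = (X : ℤ) ^ 3 := by
      rw [← hn1, ← hn2, ← hX]; linear_combination h3
    exact_mod_cast this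
  have p1 : n1 ≠ 0 := by
    rintro rfl
    have : m - a * b * c = 0 := by rw [hn1]; rfl
    linarith
  have p2 : n2 ≠ 0 := by
    rintro rfl
    have : m + a * b * c = 0 := by rw [hn2]; rfl
    linarith
  have p3 : X ≠ 0 := by
    rintro rfl
    have : x = 0 := by rw [hX]; rfl
    linarith
  have p4 : M ≠ 0 := by
    rintro rfl
    have : a * b * c = 0 := by rw [hMM]; rfl
    linarith
  have hab : (2 * (a * b * c)).natAbs = 2 * M := by rw [hMM]; omega
  have h2M' : 2 ∣ M := by rw [hMM] at h2M; exact_mod_cast h2M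
  have key : ∀ p : ℕ, p.Prime → 3 ∣ n1.factorization p ∧ 3 ∣ n2.factorization p := by
    intro p hp
    refine three_dvd_fac (a := a) (b := b) (c := c) (α := α) (β := β) (γ := γ) hp p1 p2 p3 p4
      e1 e2 hMM.symm h2M' (by rw [ha, hX]) (by rw [hb, hX]) (by rw [hc, hX]) hs hα hβ hγ ?_
    intro h5
    exact H p hp (by rw [hab]; exact h5)
  obtain ⟨k1, hk1⟩ := nat_cube p1 (fun p hp => (key p hp).1)
  obtain ⟨k2, hk2⟩ := nat_cube p2 (fun p hp => (key p hp).2)
  have e3 : k1 * k2 = X := by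
    have : (k1 * k2) ^ 3 = X ^ 3 := by rw [mul_pow, hk1, hk2, e2]
    exact Nat.pow_left_injective (n := 3) (by norm_num) this
  have e4 : k1 < k2 := by
    have : k1 ^ 3 < k2 ^ 3 := by rw [hk1, hk2, e1]; omega
    exact lt_of_pow_lt_pow_left₀ 3 (Nat.zero_le _) this
  have e5 : 0 < k2 := by omega
  refine ⟨k2, by exact_mod_cast e5, ?_, ?_⟩
  · rw [hn2, ← hk2]; push_cast; ring
  · rw [hX, ← e3]
    have : k1 * k2 < k2 ^ 2 := by
      rw [sq]; exact Nat.mul_lt_mul_of_pos_right e4 e5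
    exact_mod_cast this

end Pool.Agent.Work.MP_71a505_nt
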