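import Mathlib
import Pool.Agent.Work.MP_71a505_nt.GlobalP
import Pool.Agent.Work.MP_71a505_nt.Final

namespace Pool.Agent.Work.MP_71a505_nt

/-- consecutive cubes -/
theorem consec {X ν u : ℤ} (hν : 0 < ν) (h : X ^ 3 = ν ^ 3 + u) (hu : 0 < u) :
    3 * ν ^ 2 < u := by
  have h1 : ν < X := by
    by_contra hh
    push Not at hh
    rcases le_or_gt 0 X with h0 | h0
    · have : X ^ 3 ≤ ν ^ 3 := pow_le_pow_left₀ h0 hh 3
      linarith
    · have h2 : X ^ 3 < 0 := by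
        have hX0 : X ≠ 0 := h0.ne
        have : X ^ 3 = X * X ^ 2 := by ring
        rw [this]
        exact mul_neg_of_neg_of_pos h0 (by positivity)
      have h3 : 0 < ν ^ 3 := by positivity
      linarith
  have h2 : (ν + 1) ^ 3 ≤ X ^ 3 := pow_le_pow_left₀ (by linarith) (by linarith) 3
  have h3 : (ν + 1) ^ 3 = ν ^ 3 + 3 * ν ^ 2 + 3 * ν + 1 := by ring
  linarith

theorem z_bound {a b c q : ℤ} (ha : 0 < a) (hb : 4 ≤ b) (hc : b ≤ c)
    (hq0 : 0 < q) (hq : q ^ 2 = (a * b + 1) * (a * c + 1) * (b * c + 1)) :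
    2 * (q - a * b * c) ≤ a + b + c + 2 := by
  by_contra hh
  push Not at hh
  have hb0 : 0 < b := by linarith
  have hc0 : 0 < c := by linarith
  have hM : 0 < a * b * c := by positivity
  set M := a * b * c with hMd
  have h1 : M < q := by
    have h2 : M ^ 2 < q ^ 2 := by
      rw [hq]
      have e : (a * b + 1) * (a * c + 1) * (b * c + 1)
          = (a * b * c) ^ 2 + ((a * b) * (a * c) + (a * b) * (b * c) + (a * c) * (b * c)
            + a * b + a * c + b * c + 1) := by ring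
      rw [e, ← hMd]
      have : 0 < (a * b) * (a * c) + (a * b) * (b * c) + (a * c) * (b * c)
            + a * b + a * c + b * c + 1 := by positivity
      linarith
    exact lt_of_pow_lt_pow_left₀ 2 hq0.le h2
  set z := q - M with hz
  have hz0 : 0 < z := by linarith
  have e1 : q = M + z := by rw [hz]; ring
  have e2 : q ^ 2 = M ^ 2 + M * (a + b + c) + (a * b + a * c + b * c) + 1 := by
    rw [hq, hMd]; ring
  have e3 : M * (2 * z) + z ^ 2 = M * (a + b + c) + (a * b + a * c + b * c) + 1 := by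
    have : q ^ 2 = M ^ 2 + M * (2 * z) + z ^ 2 := by rw [e1]; ring
    linarith
  have h4 : M * (a + b + c + 2) < M * (2 * z) := mul_lt_mul_of_pos_left hh hM
  have h5 : 0 < z ^ 2 := by positivity
  have h6 : 2 * M < a * b + a * c + b * c + 1 := by nlinarith
  have h7 : b * c ≤ M := by
    have : 1 * (b * c) ≤ a * (b * c) := mul_le_mul_of_nonneg_right ha (by positivity)
    have e : a * (b * c) = M := by rw [hMd]; ring
    linarith
  have h8 : 4 * (a * c) ≤ M := by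
    have : 4 * (a * c) ≤ b * (a * c) := mul_le_mul_of_nonneg_right hb (by positivity)
    have e : b * (a * c) = M := by rw [hMd]; ring
    linarith
  have h9 : a * b ≤ a * c := mul_le_mul_of_nonneg_left hc ha.le
  have h10 : 1 ≤ a * c := by
    have : 0 < a * c := by positivity
    linarith
  linarith

theorem A_bound {a b c t A : ℤ} (ha : 0 < a) (hab : 24 ≤ a * b) (hb : 0 < b) (hc : 0 < c)
    (hc5 : 5 * b ≤ c) (ht : b * c + 1 = t ^ 2) (ht0 : 0 < t) (hA : 0 < A)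
    (h : a * (c - b) * t < 6 * A ^ 3) : 3 * c < 4 * A ^ 2 := by
  by_contra hh
  push Not at hh
  have hcb : 0 < c - b := by linarith
  have h1 : (a * (c - b) * t) ^ 2 < (6 * A ^ 3) ^ 2 :=
    pow_lt_pow_left₀ h (by positivity) two_ne_zero
  have h2 : (a * (c - b)) ^ 2 * (b * c + 1) < 36 * (A ^ 2) ^ 3 := by
    calc (a * (c - b)) ^ 2 * (b * c + 1) = (a * (c - b) * t) ^ 2 := by rw [ht]; ring
      _ < (6 * A ^ 3) ^ 2 := h1
      _ = 36 * (A ^ 2) ^ 3 := by ring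
  have h3 : (4 * A ^ 2) ^ 3 ≤ (3 * c) ^ 3 := pow_le_pow_left₀ (by positivity) hh 3
  have h4 : (4 * c) ^ 2 ≤ (5 * (c - b)) ^ 2 :=
    pow_le_pow_left₀ (by positivity) (by linarith) 2
  have h5 : 24 ≤ a * (a * b) := by
    have : 1 * (a * b) ≤ a * (a * b) := mul_le_mul_of_nonneg_right ha (by linarith)
    linarith
  have h6 : (a * a * (b * c)) * (4 * c) ^ 2 ≤ (a * a * (b * c)) * (5 * (c - b)) ^ 2 :=
    mul_le_mul_of_nonneg_left h4 (by positivity)
  have h7 : 24 * (16 * c ^ 3) ≤ (a * (a * b)) * (16 * c ^ 3) :=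
    mul_le_mul_of_nonneg_right h5 (by positivity)
  have h8 : 0 ≤ (a * (c - b)) ^ 2 := by positivity
  have h9 : 0 < c ^ 3 := by positivity
  have e1 : (a * a * (b * c)) * (4 * c) ^ 2 = (a * (a * b)) * (16 * c ^ 3) := by ring
  have e2 : (a * a * (b * c)) * (5 * (c - b)) ^ 2 = 25 * ((a * (c - b)) ^ 2 * (b * c)) := by ring
  have e3 : (a * (c - b)) ^ 2 * (b * c + 1)
      = (a * (c - b)) ^ 2 * (b * c) + (a * (c - b)) ^ 2 := by ring
  have e4 : (4 * A ^ 2) ^ 3 = 64 * (A ^ 2) ^ 3 := by ring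
  have e5 : (3 * c) ^ 3 = 27 * c ^ 3 := by ring
  rw [e3] at h2
  rw [e1, e2] at h6
  rw [e4, e5] at h3
  linarith

/-- The final numerical contradiction. -/
theorem core_ineq {a b c t x l q A X ν m : ℤ} (ha : 0 < a) (h4 : 4 * a ≤ b)
    (g1 : 24 ≤ a * b) (hclt : 4 * a * b + a + b + 1 < c)
    (hq0 : 0 < q) (hq : q ^ 2 = (a * b + 1) * (a * c + 1) * (b * c + 1))
    (ht : b * c + 1 = t ^ 2) (ht0 : 0 < t) (hA : 0 < A) (hAx : A ^ 2 = x + a * b)
    (hσ : a * (c - b) * t < 6 * A ^ 3)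
    (hl : 0 < l) (hl2 : l ^ 2 = a * b + a * c + b * c + 3 * x)
    (hX : X ^ 3 = l + m + q) (hν : 0 < ν) (hν3 : ν ^ 3 = m + a * b * c) (hxν : x < ν ^ 2) :
    False := by
  have hb : 0 < b := by linarith
  have e4 : 4 * a * b = 4 * (a * b) := by ring
  have hc : 0 < c := by linarith
  have hab1 : 1 * b ≤ a * b := mul_le_mul_of_nonneg_right ha hb.le
  have hc5 : 5 * b ≤ c := by linarith
  have hb4 : 4 ≤ b := by linarith
  have hMq : a * b * c < q := by
    have h2 : (a * b * c) ^ 2 < q ^ 2 := by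
      rw [hq]
      have e : (a * b + 1) * (a * c + 1) * (b * c + 1)
          = (a * b * c) ^ 2 + ((a * b) * (a * c) + (a * b) * (b * c) + (a * c) * (b * c)
            + a * b + a * c + b * c + 1) := by ring
      rw [e]
      have : 0 < (a * b) * (a * c) + (a * b) * (b * c) + (a * c) * (b * c)
            + a * b + a * c + b * c + 1 := by positivity
      linarith
    exact lt_of_pow_lt_pow_left₀ 2 hq0.le h2
  have hz := z_bound ha hb4 (by linarith) hq0 hq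
  have hAc := A_bound ha g1 hb hc hc5 ht ht0 hA hσ
  have h1 : 3 * ν ^ 2 < l + (q - a * b * c) :=
    consec hν (X := X) (by rw [hX, hν3]; ring) (by linarith)
  have hc100 : 96 < c := by linarith
  have h2x : c < 2 * x := by
    rw [hAx] at hAc
    linarith
  -- w = 24 x - 5 c - 8
  have hab4 : 4 * (a + b) ≤ c := by linarith
  have hw : 24 * x - 5 * c - 8 < 8 * l := by linarith
  have hw0 : 7 * c - 8 < 24 * x - 5 * c - 8 := by linarith
  have hw1 : (24 * x - 5 * c - 8) ^ 2 < (8 * l) ^ 2 :=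
    pow_lt_pow_left₀ hw (by linarith) two_ne_zero
  have hl3 : (8 * l) ^ 2 ≤ 16 * c + 16 * c ^ 2 + 192 * x := by
    have e : (8 * l) ^ 2 = 64 * (a * b) + 64 * ((a + b) * c) + 192 * x := by
      rw [mul_pow, hl2]; ring
    rw [e]
    have h5 : 4 * (a + b) * c ≤ c * c := mul_le_mul_of_nonneg_right hab4 hc.le
    have e5 : c ^ 2 = c * c := by ring
    have e6 : 4 * (a + b) * c = 4 * ((a + b) * c) := by ring
    linarith
  -- quadratic inequality
  have e7 : (7 * c - 8) * (7 * c - 16) < (24 * x - 5 * c - 8) * (24 * x - 5 * c - 16) := by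
    apply mul_lt_mul hw0 (by linarith) (by linarith) (by linarith)
  have e8 : (24 * x - 5 * c - 8) * (24 * x - 5 * c - 16)
      = (24 * x - 5 * c - 8) ^ 2 - 8 * (24 * x - 5 * c - 8) := by ring
  have e9 : (7 * c - 8) * (7 * c - 16) = 49 * (c * c) - 168 * c + 128 := by ring
  have e10 : c ^ 2 = c * c := by ring
  have e11 : 96 * c < c * c := mul_lt_mul_of_pos_right hc100 hc
  linarith

/-- Every exceptional triple is imprimitive. -/
theorem imprimitive {a b c r s t x l m : ℤ} (h : Sq3 a b c r s t) (ha : 0 < a) (hab : a < b)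
    (hbc : b < c) (hD : Data a b c x l m) :
    ∃ p : ℕ, p.Prime ∧ ¬ 3 ∣ (2 * (a * b * c)).natAbs.factorization p ∧
      (((p : ℤ) ∣ a ∧ (p : ℤ) ∣ c - b) ∨ ((p : ℤ) ∣ b ∧ (p : ℤ) ∣ c - a) ∨
        ((p : ℤ) ∣ c ∧ (p : ℤ) ∣ b - a)) := by
  by_contra hcon
  have H : ∀ p : ℕ, p.Prime → ¬ 3 ∣ (2 * (a * b * c)).natAbs.factorization p →
      ¬ ((p : ℤ) ∣ a ∧ (p : ℤ) ∣ c - b) ∧ ¬ ((p : ℤ) ∣ b ∧ (p : ℤ) ∣ c - a) ∧
        ¬ ((p : ℤ) ∣ c ∧ (p : ℤ) ∣ b - a) := by
    intro p hp h3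
    refine ⟨?_, ?_, ?_⟩
    · intro h5; exact hcon ⟨p, hp, h3, Or.inl h5⟩
    · intro h5; exact hcon ⟨p, hp, h3, Or.inr (Or.inl h5)⟩
    · intro h5; exact hcon ⟨p, hp, h3, Or.inr (Or.inr h5)⟩
  clear hcon
  have h4 := thmA h ha hab hbc hD
  obtain ⟨-, -, -, hr, hs, ht, h1, h2, h3⟩ := id h
  have hb : 0 < b := ha.trans hab
  have hc : 0 < c := hb.trans hbc
  have hpc := pairwise_coprime h
  obtain ⟨g1, g2, g3⟩ := dvd24_all h ha hab hbc hD
  have g1' : 24 ≤ a * b := Int.le_of_dvd (by positivity) g1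
  have e8 : ∀ {y : ℤ}, (24 : ℤ) ∣ y → (8 : ℤ) ∣ y := fun hy => (by norm_num : (8 : ℤ) ∣ 24).trans hy
  obtain ⟨α, β, γ, ka, kb, kc, ks, kl, ky⟩ := squares' ha.ne' hb.ne' hc.ne' hab.ne
    (hab.trans hbc).ne hbc.ne hD
  obtain ⟨hx8, h4a, -, -⟩ := four_dvd (e8 g1) (e8 g2) (e8 g3) ka kb kc ks
  have hxe : Even x := by
    obtain ⟨k, hk⟩ := hx8
    exact ⟨4 * k, by rw [hk]; ring⟩
  have ka' : α ^ 2 = r ^ 2 + (x - 1) := by rw [ka, ← h1]; ring
  have kb' : β ^ 2 = s ^ 2 + (x - 1) := by rw [kb, ← h2]; ring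
  have kc' : γ ^ 2 = t ^ 2 + (x - 1) := by rw [kc, ← h3]; ring
  obtain ⟨δ, D, hρ, hw, hDD⟩ := cubes_S hpc hxe ka' kb' kc' ks (sum_sq h hD)
  have hd1 := dm_pos_of_data h ha hab hbc hD
  have hclt : 4 * a * b + a + b + 1 < c :=
    c_lower ha hb hd1 (dm_lt' ha hb (hab.trans hbc) hbc h hd1)
  have hrs2 : 2 * r ≤ s := two_mul_r_le_s ha hb hs h1 h2 hclt
  have hrs : r < s := by linarith
  have hst : s < t := s_lt_t hab hc ht h2 h3
  have hab2 : α ^ 2 < β ^ 2 := by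
    rw [ka', kb']
    have := sq_sub_pos hr hrs
    linarith
  have hbc2 : β ^ 2 < γ ^ 2 := by
    rw [kb', kc']
    have := sq_sub_pos hs hst
    linarith
  obtain ⟨hrel, hαl, hα0⟩ := abs_rel ks hab2 hbc2 kl
  have hβ0 : 0 < |β| := hα0.trans (sq_lt_sq.1 hab2)
  have hγ0 : 0 < |γ| := hβ0.trans (sq_lt_sq.1 hbc2)
  have qa : |α| ^ 2 = r ^ 2 + (x - 1) := by rw [sq_abs]; exact ka'
  have qb : |β| ^ 2 = s ^ 2 + (x - 1) := by rw [sq_abs]; exact kb'
  have qc : |γ| ^ 2 = t ^ 2 + (x - 1) := by rw [sq_abs]; exact kc'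
  have he := e_pos hrs2 hst hr qa qb qc hα0 hβ0 hγ0 hrel
  have hlm := lm_nonneg h ha h4 hbc hD hrs he qa qb qc hα0 hβ0 hγ0 hrel
  obtain ⟨-, hs2⟩ := sigma_lt hr hrs hst he.le qa qb qc hα0 hβ0 hγ0 hrel
  have hσ : s ^ 2 - r ^ 2 = a * (c - b) := by rw [← h1, ← h2]; ring
  rw [hσ] at hs2
  have qa' : |α| ^ 2 = x + a * b := by rw [sq_abs]; exact ka
  have hM : 0 < a * b * c := by positivity
  have h2M : (2 : ℤ) ∣ a * b * c := by
    have : (2 : ℤ) ∣ a * b := (by norm_num : (2 : ℤ) ∣ 24).trans g1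
    exact Dvd.dvd.mul_right this _
  have hx0 : 0 < x := by linarith
  have hq0 : 0 < r * s * t := by positivity
  have hq : (r * s * t) ^ 2 = (a * b + 1) * (a * c + 1) * (b * c + 1) := by
    rw [h1, h2, h3]; ring
  obtain ⟨d1, d2, d3⟩ := hD
  have hm2 : 0 < m ^ 2 := by
    rw [d3]; positivity
  have hm0 : m ≠ 0 := by
    rintro rfl
    simp at hm2
  have hl0 : l ≠ 0 := by
    rintro rfl
    rw [mul_zero] at hαl
    exact lt_irrefl _ hαl
  have aα : α ≠ 0 := abs_pos.1 hα0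
  have aβ : β ≠ 0 := abs_pos.1 hβ0
  have aγ : γ ≠ 0 := abs_pos.1 hγ0
  rcases lt_or_gt_of_ne hl0 with hl | hl
  · -- `l < 0`
    have hm : 0 < -m := by
      rcases lt_or_gt_of_ne hm0 with h5 | h5
      · linarith
      · exfalso
        have : l * m < 0 := mul_neg_of_neg_of_pos hl h5
        linarith
    obtain ⟨ν, hν, hν3, hxν⟩ := P_cube (m := -m) hx0 hM hm (by rw [neg_sq]; exact d3) h2M
      ka kb kc ks aα aβ aγ H
    refine core_ineq (l := -l) (X := -D + δ) (m := -m) ha h4 g1' hclt hq0 hq h3 ht hα0 qa' hs2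
      (by linarith) (by rw [neg_sq]; exact d1) ?_ hν hν3 hxν
    have : (-D + δ) ^ 3 = -(D * (D ^ 2 + 3 * δ ^ 2)) + δ * (δ ^ 2 + 3 * D ^ 2) := by ring
    rw [this, ← hw, ← hρ]; ring
  · have hm : 0 < m := by
      rcases lt_or_gt_of_ne hm0 with h5 | h5
      · exfalso
        have : l * m < 0 := mul_neg_of_pos_of_neg hl h5
        linarith
      · exact h5
    obtain ⟨ν, hν, hν3, hxν⟩ := P_cube (m := m) hx0 hM hm d3 h2M ka kb kc ks aα aβ aγ H
    refine core_ineq (l := l) (X := D + δ) (m := m) ha h4 g1' hclt hq0 hq h3 ht hα0 qa' hs2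
      hl d1 ?_ hν hν3 hxν
    have : (D + δ) ^ 3 = (D * (D ^ 2 + 3 * δ ^ 2)) + δ * (δ ^ 2 + 3 * D ^ 2) := by ring
    rw [this, ← hw, ← hρ]

end Pool.Agent.Work.MP_71a505_nt
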